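import Pool.Agent.U725.MG.NCM

/-!
# All elliptic curves
-/

set_option autoImplicit false
set_option linter.unusedSectionVars false

open Matrix
open scoped PeriodPair ComplexConjugate

namespace Pool.Agent.U725.CMA

open H667R3 Pool.Agent.W245.EB Pool.Agent.U725.OM Pool.Agent.U725.MT Pool.Agent.U725.MG
  Pool.Agent.U725.CMG Pool.Agent.TH127.PT

noncomputable section

variable {L : PeriodPair} {ρ m : ℕ} {I : Type} [Fintype I] [DecidableEq I] {K : Subfield ℂ}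
  {P Q : I → Fin ρ}

/-- **All elliptic curves.** -/
theorem all_final (h2 : IsAlgebraic ℚ L.g₂) (h3 : IsAlgebraic ℚ L.g₃) {w : Fin ρ → ℂ}
    (hw : ∀ j, IsAlgebraic ℚ (℘[L] (w j))) (hi : Indep L w) {b : Fin m → ℂ}
    (hb : ∀ i, IsAlgebraic ℚ (Complex.exp (b i)))
    (hbi : LinearIndependent ℚ (Fin.cons (2 * Real.pi * Complex.I) b : Fin (m + 1) → ℂ))
    {ε : I → ℂ} (hε : ∀ e, ε e ∈ Pool.Agent.TH813.Ell.kL L)
    (hH : LinearIndependent ℝ fun e : I => (Matrix.single (P e) (Q e) (ε e) +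
      Matrix.single (Q e) (P e) (conj (ε e)) : Matrix (Fin ρ) (Fin ρ) ℂ))
    (s : I → ℂ) {n : ℤ} (hn : n ≠ 0)
    (hleg : L.ω₁ * (2 * zeta L (L.ω₂ / 2)) - 2 * zeta L (L.ω₁ / 2) * L.ω₂ =
      n * (2 * Real.pi * Complex.I)) (hK : K ≤ OM.QB)
    (hKL : ∀ β ∈ Pool.Agent.TH813.Ell.kL L, β ∈ K)
    (hKκ : ∀ β ∈ Pool.Agent.TH813.Ell.kL L, kap L * (β - conj β) ∈ K) :
    Om K (shp P Q ε (fun e => conj (ε e)) (fun e => kap L * (ε e - conj (ε e))) (X0 L)
      (2 * Real.pi * Complex.I) (fun j => ![w j, zeta L (w j)]) s b) =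
    {x | ∃ X ∈ Om K (X0 L), ∃ l Y t z, X.det = (n : ℂ) * l ∧
      x = shp P Q ε (fun e => conj (ε e)) (fun e => kap L * (ε e - conj (ε e))) X l Y t z} := by
  by_cases hL : ∀ β ∈ Pool.Agent.TH813.Ell.kL L, ∃ q : ℚ, β = q
  · exact ncm_final h2 h3 hL hw hi hb hbi hε hH s hn hleg hK
  · push Not at hL
    obtain ⟨β, ⟨k, hk, hm⟩, hβ⟩ := hL
    have hk0 : (k : ℂ) ≠ 0 := by exact_mod_cast hk.ne'
    obtain ⟨a, c, hac⟩ := mult_coord hm
    refine cm_final h2 h3 (α := k * β) hm ?_ hw hi hb hbi hε hH s hn hleg hK hKL hKκ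
    intro him
    have hc : c = 0 := by
      rw [hac] at him
      simp only [Complex.add_im, Complex.mul_im, Complex.intCast_im, Complex.intCast_re, zero_mul,
        add_zero, zero_add] at him
      have h4 := (mul_eq_zero.1 him).resolve_right (tau_im L)
      exact_mod_cast h4
    apply hβ (a / k)
    rw [hc, Int.cast_zero, zero_mul, add_zero] at hac
    push_cast
    rw [← hac]
    field_simp

/-- the smallest subtorsor of a curve without complex multiplication -/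
theorem curve_final (h2 : IsAlgebraic ℚ L.g₂) (h3 : IsAlgebraic ℚ L.g₃)
    (hL : ∀ β ∈ Pool.Agent.TH813.Ell.kL L, ∃ q : ℚ, β = q) {n : ℤ} (hn : n ≠ 0)
    (hleg : L.ω₁ * (2 * zeta L (L.ω₂ / 2)) - 2 * zeta L (L.ω₁ / 2) * L.ω₂ =
      n * (2 * Real.pi * Complex.I)) (hK : K ≤ OM.QB) :
    Om K (X0 L) = {X : M2 | X.det ≠ 0} := by
  have hn0 : (n : ℂ) ≠ 0 := by exact_mod_cast hn
  have hpi : (2 * Real.pi * Complex.I : ℂ) ≠ 0 := Complex.two_pi_I_ne_zero
  have hnK : (n : ℂ) ∈ K := intCast_mem K n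
  have hdet : (X0 L).det = (n : ℂ) * (2 * Real.pi * Complex.I) := by
    rw [X0, Matrix.det_fin_two_of, ← hleg]
  have hu : IsUnit (X0 L) := by
    rw [Matrix.isUnit_iff_isUnit_det, hdet]
    exact isUnit_iff_ne_zero.2 (mul_ne_zero hn0 hpi)
  refine Set.Subset.antisymm (fun X hX => det_ne (Om_isUnit hu hX)) fun X hX T hT hc => ?_
  set P : Empty → Fin 0 := fun e => e.elim
  have h1 := block_sub (Tor_sub (ρ := 0) (m := 0) P P hn0 hnK) (by
    rintro _ ⟨X, l, Y, t, z, _, _, rfl⟩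
    exact ⟨_, _, rfl⟩) hT
  have hmem : mat P P (X0 L) (2 * Real.pi * Complex.I) (fun j => ![(0 : ℂ), 0]) (fun _ => 0)
      (Fin.elim0 : Fin 0 → ℂ) ∈ {x | x ∈ Tor 0 0 Empty P P n ∧ ul x ∈ T} := by
    refine ⟨⟨_, _, _, _, _, by rw [hdet]; exact mul_ne_zero hn0 hpi, ?_, rfl⟩, hc⟩
    rw [← hdet, Matrix.det_fin_two]
  have hL' : ∀ β ∈ Pool.Agent.W245.EB.kL L, ∃ q : ℚ, β = q := fun β hβ => hL β hβ
  have hi : Indep L (Fin.elim0 : Fin 0 → ℂ) := fun β _ _ => Subsingleton.elim _ _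
  have hY : (fun j : Fin 0 => ![(0 : ℂ), 0]) =
      fun j => ![(Fin.elim0 : Fin 0 → ℂ) j, zeta L ((Fin.elim0 : Fin 0 → ℂ) j)] := by
    funext j
    exact j.elim0
  rw [hY] at hmem
  have hS := sit (P := P) (Q := P) h2 h3 hL' (w := (Fin.elim0 : Fin 0 → ℂ)) (fun j => j.elim0)
    (indep_append hi) (b := (Fin.elim0 : Fin 0 → ℂ)) (fun j => j.elim0) (by
      rw [Fintype.linearIndependent_iff]
      intro g hg j
      rw [Fin.sum_univ_one] at hg
      have h4 : j = 0 := Fin.ext (by have := j.2; simp only [Fin.val_zero]; omega)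
      rw [h4]
      exact (smul_eq_zero.1 hg).resolve_right hpi) (fun e => e.elim) (fun _ => 0) hn hleg
    (sub_mono hK h1) hmem
  have h5 := hS.sub X (X.det / n) hX (by
    rw [← Matrix.det_fin_two]
    field_simp) (fun j => j.elim0) (fun e => e.elim) (fun j => j.elim0)
  exact h5.2

end

end Pool.Agent.U725.CMA
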