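import Pool.Agent.U725.MT.Fin

/-!
# Groups with a torus of arbitrary rank
-/

set_option autoImplicit false
set_option linter.unusedSectionVars false

open Matrix MvPolynomial

namespace Pool.Agent.U725.MG

open Pool.Agent.TH127.PT Pool.Agent.TH119.MX Pool.Agent.TH119.DR Pool.Agent.Y123.ST
  Pool.Agent.U725.OM Pool.Agent.U725.MT

variable {B R : Type} [Fintype B] [DecidableEq B] [Fintype R] [DecidableEq R]

/-- a monomial in the coordinates of the torus -/
noncomputable def mon (l : R → ℂ) (χ : R → ℤ) : ℂ := ∏ r, l r ^ χ r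

/-- a character on the Lie algebra -/
def dch (s : R → ℂ) (χ : R → ℤ) : ℂ := ∑ r, s r * (χ r : ℂ)

theorem mon_ne {l : R → ℂ} (hl : ∀ r, l r ≠ 0) (χ : R → ℤ) : mon l χ ≠ 0 :=
  Finset.prod_ne_zero_iff.2 fun r _ => zpow_ne_zero _ (hl r)

theorem mon_add {l : R → ℂ} (hl : ∀ r, l r ≠ 0) (χ χ' : R → ℤ) :
    mon l (χ + χ') = mon l χ * mon l χ' := by
  unfold mon
  rw [← Finset.prod_mul_distrib]
  exact Finset.prod_congr rfl fun r _ => zpow_add₀ (hl r) _ _

theorem mon_sub {l : R → ℂ} (hl : ∀ r, l r ≠ 0) (χ χ' : R → ℤ) :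
    mon l (χ - χ') = mon l χ / mon l χ' := by
  rw [eq_div_iff (mon_ne hl χ'), ← mon_add hl, sub_add_cancel]

theorem mon_mul (l l' : R → ℂ) (χ : R → ℤ) : mon (l * l') χ = mon l χ * mon l' χ := by
  unfold mon
  rw [← Finset.prod_mul_distrib]
  exact Finset.prod_congr rfl fun r _ => mul_zpow _ _ _

theorem mon_one (χ : R → ℤ) : mon (1 : R → ℂ) χ = 1 := by
  unfold mon
  simp

theorem mon_zero (l : R → ℂ) : mon l 0 = 1 := by
  unfold mon
  simp

theorem mon_inv (l : R → ℂ) (χ : R → ℤ) : mon l⁻¹ χ = (mon l χ)⁻¹ := by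
  unfold mon
  rw [← Finset.prod_inv_distrib]
  exact Finset.prod_congr rfl fun r _ => inv_zpow _ _

theorem mon_map (σ : ℂ ≃+* ℂ) (l : R → ℂ) (χ : R → ℤ) :
    σ (mon l χ) = mon (fun r => σ (l r)) χ := by
  unfold mon
  rw [map_prod]
  exact Finset.prod_congr rfl fun r _ => map_zpow₀ σ _ _

theorem mon_der {K : Subfield ℂ} (D : Derivation K ℂ ℂ) {l : R → ℂ} (hl : ∀ r, l r ≠ 0)
    (χ : R → ℤ) : D (mon l χ) = dch (fun r => D (l r) / l r) χ * mon l χ := by
  have key : ∀ S : Finset R, D (∏ r ∈ S, l r ^ χ r) =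
      (∑ r ∈ S, D (l r) / l r * (χ r : ℂ)) * ∏ r ∈ S, l r ^ χ r := by
    intro S
    induction S using Finset.induction_on with
    | empty => simp
    | insert a S ha ih =>
      rw [Finset.prod_insert ha, Finset.sum_insert ha, Derivation.leibniz, ih,
        Derivation.leibniz_zpow, smul_eq_mul, smul_eq_mul, smul_eq_mul, zsmul_eq_mul]
      have h1 : l a ^ (χ a - 1) = l a ^ χ a / l a := zpow_sub_one₀ (hl a) _
      rw [h1]
      have h2 := hl a
      field_simp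
      ring
  exact key Finset.univ

variable (e : B → R → ℤ)

/-- the torus -/
noncomputable def dt (l : R → ℂ) : Matrix B B ℂ := Matrix.diagonal fun b => mon l (e b)

/-- its Lie algebra -/
noncomputable def Ht (s : R → ℂ) : Matrix B B ℂ := Matrix.diagonal fun b => dch s (e b)

variable {e}

theorem dt_mul (l l' : R → ℂ) : dt e l * dt e l' = dt e (l * l') := by
  unfold dt
  rw [Matrix.diagonal_mul_diagonal]
  congr 1
  funext b
  rw [mon_mul]

theorem dt_one : dt e 1 = 1 := by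
  unfold dt
  rw [← Matrix.diagonal_one]
  congr 1
  funext b
  exact mon_one _

theorem mul_inv_l {l : R → ℂ} (hl : ∀ r, l r ≠ 0) : l * l⁻¹ = 1 := by
  funext r
  exact mul_inv_cancel₀ (hl r)

theorem inv_mul_l {l : R → ℂ} (hl : ∀ r, l r ≠ 0) : l⁻¹ * l = 1 := by
  funext r
  exact inv_mul_cancel₀ (hl r)

theorem inv_ne_l {l : R → ℂ} (hl : ∀ r, l r ≠ 0) : ∀ r, l⁻¹ r ≠ 0 := fun r => inv_ne_zero (hl r)

theorem dt_inv {l : R → ℂ} (hl : ∀ r, l r ≠ 0) : (dt e l)⁻¹ = dt e l⁻¹ := by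
  refine Matrix.inv_eq_right_inv ?_
  rw [dt_mul, mul_inv_l hl, dt_one]

theorem dt_der {K : Subfield ℂ} (D : Derivation K ℂ ℂ) {l : R → ℂ} (hl : ∀ r, l r ≠ 0) :
    (dt e l).map D = Ht e (fun r => D (l r) / l r) * dt e l := by
  ext i j
  rw [Matrix.map_apply, Ht, dt, Matrix.diagonal_mul_diagonal]
  by_cases hij : i = j
  · subst hij
    rw [Matrix.diagonal_apply_eq, Matrix.diagonal_apply_eq, mon_der D hl]
  · rw [Matrix.diagonal_apply_ne _ hij, Matrix.diagonal_apply_ne _ hij, map_zero]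

theorem dch_add (s s' : R → ℂ) (χ : R → ℤ) : dch (s + s') χ = dch s χ + dch s' χ := by
  unfold dch
  rw [← Finset.sum_add_distrib]
  refine Finset.sum_congr rfl fun r _ => ?_
  rw [Pi.add_apply]
  ring

theorem dch_smul (a : ℂ) (s : R → ℂ) (χ : R → ℤ) : dch (a • s) χ = a * dch s χ := by
  unfold dch
  rw [Finset.mul_sum]
  refine Finset.sum_congr rfl fun r _ => ?_
  rw [Pi.smul_apply, smul_eq_mul]
  ring

theorem dch_sub_right (s : R → ℂ) (χ χ' : R → ℤ) : dch s (χ - χ') = dch s χ - dch s χ' := by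
  unfold dch
  rw [← Finset.sum_sub_distrib]
  refine Finset.sum_congr rfl fun r _ => ?_
  rw [Pi.sub_apply]
  push_cast
  ring

theorem Ht_add (s s' : R → ℂ) : Ht e (s + s') = Ht e s + Ht e s' := by
  unfold Ht
  rw [Matrix.diagonal_add]
  congr 1
  funext b
  exact dch_add _ _ _

theorem Ht_smul (a : ℂ) (s : R → ℂ) : Ht e (a • s) = a • Ht e s := by
  unfold Ht
  rw [← Matrix.diagonal_smul]
  congr 1
  funext b
  exact dch_smul _ _ _

theorem Ht_zero : Ht e (0 : R → ℂ) = (0 : Matrix B B ℂ) := by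
  have := Ht_smul (e := e) (0 : ℂ) (0 : R → ℂ)
  rwa [zero_smul, zero_smul] at this

variable {wt : B → ℕ} {K : Subfield ℂ} {G T : Set (Matrix B B ℂ)}

theorem Fk_br {k : ℕ} {X : Matrix B B ℂ} (hX : Fk wt k X) (s : R → ℂ) :
    Fk wt k (Ht e s * X - X * Ht e s) := by
  intro b b' h
  refine hX b b' fun h2 => h ?_
  rw [Matrix.sub_apply, Ht, Matrix.diagonal_mul, Matrix.mul_diagonal, h2]
  ring

theorem Fk_dt {k : ℕ} {w : Matrix B B ℂ} (hw : Fk wt k w) (l : R → ℂ) :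
    Fk wt k (dt e l * w * dt e l⁻¹) := by
  intro b b' h
  refine hw b b' fun h2 => h ?_
  rw [dt, dt, Matrix.mul_diagonal, Matrix.diagonal_mul, h2, mul_zero, zero_mul]

/-- The situation: an algebraic group, with a torus and a filtration. -/
structure Mg (K : Subfield ℂ) (wt : B → ℕ) (e : B → R → ℤ) (G : Set (Matrix B B ℂ)) : Prop where
  hK : ∀ x ∈ K, IsAlgebraic ℚ x
  hG : IsSubtorsor K G
  weight : ∀ l : R → ℂ, (∀ r, l r ≠ 0) → dt e l ∈ G
  tri : ∀ x ∈ G, ∃ (l : R → ℂ) (M : Matrix B B ℂ), (∀ r, l r ≠ 0) ∧ Fk wt 1 M ∧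
    x = IsNilpotent.exp M * dt e l

theorem Mg.one_mem (h : Mg K wt e G) : (1 : Matrix B B ℂ) ∈ G := by
  rw [← dt_one (e := e)]
  exact h.weight 1 fun _ => one_ne_zero

theorem Mg.mul_mem (h : Mg K wt e G) {x y : Matrix B B ℂ} (hx : x ∈ G) (hy : y ∈ G) :
    x * y ∈ G := by
  have := h.hG.torsor x hx 1 h.one_mem y hy
  rwa [inv_one, Matrix.mul_one] at this

theorem Mg.inv_mem (h : Mg K wt e G) {x : Matrix B B ℂ} (hx : x ∈ G) : x⁻¹ ∈ G := by
  have := h.hG.torsor 1 h.one_mem x hx 1 h.one_mem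
  rwa [Matrix.one_mul, Matrix.mul_one] at this

theorem Mg.log_mem (h : Mg K wt e G) {M : Matrix B B ℂ} (hM : Fk wt 1 M)
    (hG : IsNilpotent.exp M ∈ G) : fl M ∈ UU wt G := by
  refine ⟨hM, mem_LL_of_exp hM.nil fun s x hx => ?_⟩
  refine exp_all h.hG hM.nil (fun m => ?_) s
  induction m with
  | zero => rwa [Nat.cast_zero, zero_smul, IsNilpotent.exp_zero, Matrix.one_mul]
  | succ m ih =>
    have h1 : ((m + 1 : ℕ) : ℂ) • M = M + (m : ℂ) • M := by
      push_cast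
      rw [add_smul, one_smul, add_comm]
    rw [h1, IsNilpotent.exp_add_of_commute (Commute.smul_right rfl _) hM.nil
      (hM.smul _).nil, Matrix.mul_assoc]
    exact h.mul_mem hG ih

theorem Mg.exp_mem (h : Mg K wt e G) {M : Matrix B B ℂ} (hM : fl M ∈ UU wt G) :
    IsNilpotent.exp M ∈ G := by
  have := MT.exp_mem h.hG hM.1.nil hM.2 h.one_mem 1
  rwa [one_smul, Matrix.mul_one] at this

/-- a derivation with a prescribed value at a transcendental number -/
theorem exists_der_val (hK : ∀ x ∈ K, IsAlgebraic ℚ x) {z : ℂ} (hz : Transcendental ℚ z) (v : ℂ) :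
    ∃ D : Derivation K ℂ ℂ, D z = v := by
  have _ : Algebra.IsAlgebraic ℚ K := ⟨fun x => by
    have h1 := hK x x.2
    exact (isAlgebraic_algebraMap_iff (A := ℂ) (algebraMap K ℂ).injective).1 h1⟩
  have hzK : Transcendental K z := by
    intro h
    exact hz (h.restrictScalars ℚ)
  have hind : AlgebraicIndependent K (fun _ : Unit => z) :=
    (algebraicIndependent_unique_type_iff).2 hzK
  obtain ⟨D, hD⟩ := Pool.Agent.H135R2.VS.exists_der hind (fun _ => v)
  exact ⟨D, hD ()⟩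

theorem Mg.Ht (h : Mg K wt e G) (s : R → ℂ) : fl (Ht e s) ∈ LL G := by
  classical
  set t : ℂ := 2 * Real.pi * Complex.I with ht
  have ht0 : t ≠ 0 := Complex.two_pi_I_ne_zero
  obtain ⟨D, hD⟩ := exists_der_val h.hK transc t
  have key : ∀ r, fl (MG.Ht e (Pi.single r (1 : ℂ))) ∈ LL G := by
    intro r
    set l : R → ℂ := Function.update 1 r t with hl
    have hl0 : ∀ r', l r' ≠ 0 := by
      intro r'
      rw [hl]
      by_cases hr : r' = r
      · rw [hr, Function.update_self]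
        exact ht0
      · rw [Function.update_of_ne hr]
        exact one_ne_zero
    have h1 := logder_mem h.hG D (h.weight l hl0)
    rw [dt_der D hl0, Matrix.mul_assoc, dt_inv hl0, dt_mul, mul_inv_l hl0, dt_one,
      Matrix.mul_one] at h1
    have h2 : (fun r' => D (l r') / l r') = Pi.single r (1 : ℂ) := by
      funext r'
      by_cases hr : r' = r
      · rw [hr, hl, Function.update_self, hD, Pi.single_eq_same, div_self ht0]
      · rw [hl, Function.update_of_ne hr, Pi.one_apply, Pi.single_eq_of_ne hr, Derivation.map_one_eq_zero,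
          zero_div]
    rwa [h2] at h1
  have h3 : MG.Ht e s = ∑ r, s r • MG.Ht e (Pi.single r (1 : ℂ)) := by
    unfold MG.Ht
    ext i j
    rw [Matrix.sum_apply]
    by_cases hij : i = j
    · subst hij
      simp only [Matrix.smul_apply, Matrix.diagonal_apply_eq, smul_eq_mul, dch]
      refine Finset.sum_congr rfl fun r _ => ?_
      rw [Finset.sum_eq_single r]
      · rw [Pi.single_eq_same, one_mul]
      · intro r' _ hr
        rw [Pi.single_eq_of_ne hr, zero_mul]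
      · exact fun h4 => absurd (Finset.mem_univ r) h4
    · simp only [Matrix.smul_apply, Matrix.diagonal_apply_ne _ hij, smul_zero, Finset.sum_const_zero]
  have h4 : fl (MG.Ht e s) = ∑ r, s r • fl (MG.Ht e (Pi.single r (1 : ℂ))) := by
    rw [h3]
    funext b
    simp only [fl, Matrix.sum_apply, Matrix.smul_apply, Finset.sum_apply, Pi.smul_apply]
  rw [h4]
  exact Submodule.sum_mem _ fun r _ => Submodule.smul_mem _ _ (key r)

theorem Mg.Ht_UU (h : Mg K wt e G) (s : R → ℂ) {X : Matrix B B ℂ} (hX : fl X ∈ UU wt G) :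
    fl (MG.Ht e s * X - X * MG.Ht e s) ∈ UU wt G :=
  ⟨Fk_br hX.1 s, lie_mem (h.Ht s) hX.2⟩

theorem Mg.Ht_CC (h : Mg K wt e G) (s : R → ℂ) {X : Matrix B B ℂ} (hX : fl X ∈ CC wt G) :
    fl (MG.Ht e s * X - X * MG.Ht e s) ∈ CC wt G := by
  have key : ∀ w ∈ CC wt G, fl (MG.Ht e s * um w - um w * MG.Ht e s) ∈ CC wt G := by
    intro w hw
    unfold CC at hw
    induction hw using Submodule.span_induction with
    | mem w hw =>
      obtain ⟨X, Y, hX, hY, rfl⟩ := hw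
      rw [um_fl]
      have h1 : MG.Ht e s * (X * Y - Y * X) - (X * Y - Y * X) * MG.Ht e s =
          ((MG.Ht e s * X - X * MG.Ht e s) * Y - Y * (MG.Ht e s * X - X * MG.Ht e s)) +
          (X * (MG.Ht e s * Y - Y * MG.Ht e s) - (MG.Ht e s * Y - Y * MG.Ht e s) * X) := by
        noncomm_ring
      rw [h1, fl_add]
      exact Submodule.add_mem _ (br_CC (h.Ht_UU s hX) hY) (br_CC hX (h.Ht_UU s hY))
    | zero =>
      rw [um_zero, Matrix.mul_zero, Matrix.zero_mul, sub_zero, fl_zero]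
      exact Submodule.zero_mem _
    | add v w _ _ hv hw =>
      have h1 : MG.Ht e s * um (v + w) - um (v + w) * MG.Ht e s =
          (MG.Ht e s * um v - um v * MG.Ht e s) + (MG.Ht e s * um w - um w * MG.Ht e s) := by
        rw [um_add]
        noncomm_ring
      rw [h1, fl_add]
      exact Submodule.add_mem _ hv hw
    | smul a v _ hv =>
      have h1 : MG.Ht e s * um (a • v) - um (a • v) * MG.Ht e s =
          a • (MG.Ht e s * um v - um v * MG.Ht e s) := by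
        rw [um_smul, Matrix.mul_smul, Matrix.smul_mul, smul_sub]
      rw [h1, fl_smul]
      exact Submodule.smul_mem _ _ hv
  have h1 := key (fl X) hX
  rwa [um_fl] at h1

/-- the operator `[H, ·]` -/
def aT (e : B → R → ℤ) (s : R → ℂ) (w : B × B → ℂ) : B × B → ℂ :=
  fun b => (dch s (e b.1) - dch s (e b.2)) * w b

theorem aT_fl (s : R → ℂ) (X : Matrix B B ℂ) :
    aT e s (fl X) = fl (MG.Ht e s * X - X * MG.Ht e s) := by
  funext b
  simp only [aT, fl]
  rw [Matrix.sub_apply, MG.Ht, Matrix.diagonal_mul, Matrix.mul_diagonal]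
  ring

/-- the part of the character `χ` -/
def part (e : B → R → ℤ) (χ : R → ℤ) (w : B × B → ℂ) : B × B → ℂ :=
  fun b => if e b.1 - e b.2 = χ then w b else 0

/-- linear forms of the character `χ` over `K` -/
def IsFm (K : Subfield ℂ) (e : B → R → ℤ) (χ : R → ℤ) (f : B × B → ℂ) : Prop :=
  (∀ b, f b ∈ K) ∧ ∀ b, f b ≠ 0 → e b.1 - e b.2 = χ

theorem prf_aT {χ : R → ℤ} {f : B × B → ℂ} (hf : IsFm K e χ f) (s : R → ℂ) (w : B × B → ℂ) :
    prf f (aT e s w) = dch s χ * prf f w := by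
  rw [prf_apply, prf_apply, Finset.mul_sum]
  refine Finset.sum_congr rfl fun b _ => ?_
  by_cases h0 : f b = 0
  · rw [h0]
    ring
  · rw [aT, ← dch_sub_right, hf.2 b h0]
    ring

theorem prf_Ht {χ : R → ℤ} (hχ : χ ≠ 0) {f : B × B → ℂ} (hf : IsFm K e χ f) (s : R → ℂ) :
    prf f (fl (MG.Ht e s)) = 0 := by
  rw [prf_apply]
  refine Finset.sum_eq_zero fun b _ => ?_
  by_cases h0 : f b = 0
  · rw [h0, zero_mul]
  · have h1 := hf.2 b h0
    have h2 : b.1 ≠ b.2 := by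
      intro h3
      rw [h3, sub_self] at h1
      exact hχ h1.symm
    rw [fl, MG.Ht, Matrix.diagonal_apply_ne _ h2, mul_zero]

theorem prf_dt {χ : R → ℤ} {f : B × B → ℂ} (hf : IsFm K e χ f) (w : Matrix B B ℂ) {l : R → ℂ}
    (hl : ∀ r, l r ≠ 0) : prf f (fl (dt e l * w * dt e l⁻¹)) = mon l χ * prf f (fl w) := by
  rw [prf_apply, prf_apply, Finset.mul_sum]
  refine Finset.sum_congr rfl fun b _ => ?_
  by_cases h0 : f b = 0
  · rw [h0]
    ring
  · simp only [fl]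
    rw [dt, dt, Matrix.mul_diagonal, Matrix.diagonal_mul, ← hf.2 b h0, mon_sub hl, mon_inv]
    ring

/-! ### The adjoint action -/

theorem inv_eq {l : R → ℂ} (hl : ∀ r, l r ≠ 0) {M : Matrix B B ℂ} (hM : Fk wt 1 M) :
    (IsNilpotent.exp M * dt e l)⁻¹ = dt e l⁻¹ * IsNilpotent.exp (-M) := by
  refine Matrix.inv_eq_right_inv ?_
  rw [Matrix.mul_assoc, ← Matrix.mul_assoc (dt e l), dt_mul, mul_inv_l hl, dt_one,
    Matrix.one_mul, IsNilpotent.exp_mul_exp_neg_self hM.nil]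

theorem Mg.inv_mul (h : Mg K wt e G) {x : Matrix B B ℂ} (hx : x ∈ G) : x⁻¹ * x = 1 :=
  inv_mul' h.hG hx

theorem Mg.mul_inv (h : Mg K wt e G) {x : Matrix B B ℂ} (hx : x ∈ G) : x * x⁻¹ = 1 :=
  mul_inv' h.hG hx

/-- the triangular form -/
theorem Mg.tri' (h : Mg K wt e G) {x : Matrix B B ℂ} (hx : x ∈ G) :
    ∃ (l : R → ℂ) (M : Matrix B B ℂ), (∀ r, l r ≠ 0) ∧ fl M ∈ UU wt G ∧
      x = IsNilpotent.exp M * dt e l := by
  obtain ⟨l, M, hl, hM, h1⟩ := h.tri x hx
  refine ⟨l, M, hl, h.log_mem hM ?_, h1⟩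
  have h2 := h.mul_mem hx (h.weight l⁻¹ (inv_ne_l hl))
  rwa [h1, Matrix.mul_assoc, dt_mul, mul_inv_l hl, dt_one, Matrix.mul_one] at h2

theorem Mg.dt_UU (h : Mg K wt e G) {w : Matrix B B ℂ} (hw : fl w ∈ UU wt G) {l : R → ℂ}
    (hl : ∀ r, l r ≠ 0) : fl (dt e l * w * dt e l⁻¹) ∈ UU wt G := by
  refine h.log_mem (Fk_dt hw.1 l) ?_
  have h1 : dt e l⁻¹ * dt e l = (1 : Matrix B B ℂ) := by
    rw [dt_mul, inv_mul_l hl, dt_one]
  have h2 := conj_exp (dt e l) (dt e l⁻¹) w h1 hw.1.nil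
  have h3 := h.mul_mem (h.mul_mem (h.weight l hl) (h.exp_mem hw))
    (h.weight l⁻¹ (inv_ne_l hl))
  rwa [← h2, Matrix.mul_assoc, dt_mul, mul_inv_l hl, dt_one, Matrix.mul_one] at h3

/-- conjugation of elements of the unipotent part -/
theorem Mg.conj_UU (h : Mg K wt e G) {w : Matrix B B ℂ} (hw : fl w ∈ UU wt G) {l : R → ℂ}
    (hl : ∀ r, l r ≠ 0) {M : Matrix B B ℂ} (hM : fl M ∈ UU wt G) :
    fl (IsNilpotent.exp M * dt e l * w * (IsNilpotent.exp M * dt e l)⁻¹ -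
      dt e l * w * dt e l⁻¹) ∈ CC wt G := by
  have hM1 : Fk wt 1 M := hM.1
  rw [inv_eq hl hM1]
  set w' := dt e l * w * dt e l⁻¹ with hw'
  have hwU : fl w' ∈ UU wt G := h.dt_UU hw hl
  have hN : IsNilpotent M := hM.1.nil
  have h1 : IsNilpotent.exp M * w' * IsNilpotent.exp (-M) - w' - adL M w' ∈ CS wt G :=
    conj_mod hN (CS wt G) (z := w') (ad_CS hM (br_UU hM hwU)) fun y hy => ad_CS hM (CC_le hy)
  have h2 := Submodule.add_mem _ h1 (ad_CS hM hwU)
  rw [sub_add_cancel] at h2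
  have h3 : IsNilpotent.exp M * dt e l * w * (dt e l⁻¹ * IsNilpotent.exp (-M)) =
      IsNilpotent.exp M * w' * IsNilpotent.exp (-M) := by
    rw [hw']
    simp only [Matrix.mul_assoc]
  rw [h3]
  exact h2

theorem Mg.logD_two (h : Mg K wt e G) (s : R → ℂ) {L : Matrix B B ℂ} (hL : fl L ∈ UU wt G) :
    fl (IsNilpotent.exp L * MG.Ht e s * IsNilpotent.exp (-L) - MG.Ht e s -
      (L * MG.Ht e s - MG.Ht e s * L)) ∈ CC wt G := by
  have hN : IsNilpotent L := hL.1.nil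
  have h1 := Submodule.neg_mem _ (h.Ht_UU s hL)
  have h2 : adL L (MG.Ht e s) = -(MG.Ht e s * L - L * MG.Ht e s) := by
    rw [adL_apply]
    abel
  have h3 : fl (adL L (MG.Ht e s)) ∈ UU wt G := by
    rw [h2]
    exact h1
  exact conj_mod hN (CS wt G) (z := MG.Ht e s) (ad_CS hL h3) fun y hy => ad_CS hL (CC_le hy)

/-- conjugation of `H` -/
theorem Mg.conj_Ht (h : Mg K wt e G) (s : R → ℂ) {l : R → ℂ} (hl : ∀ r, l r ≠ 0)
    {M : Matrix B B ℂ} (hM : fl M ∈ UU wt G) :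
    fl (IsNilpotent.exp M * dt e l * MG.Ht e s * (IsNilpotent.exp M * dt e l)⁻¹ -
      (MG.Ht e s + (M * MG.Ht e s - MG.Ht e s * M))) ∈ CC wt G := by
  have hM1 : Fk wt 1 M := hM.1
  rw [inv_eq hl hM1]
  have h1 := h.logD_two s hM
  have h2 : dt e l * MG.Ht e s * dt e l⁻¹ = (MG.Ht e s : Matrix B B ℂ) := by
    rw [dt, dt, MG.Ht, Matrix.diagonal_mul_diagonal, Matrix.diagonal_mul_diagonal]
    congr 1
    funext b
    have h3 : mon l (e b) ≠ 0 := mon_ne hl _
    rw [mon_inv]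
    field_simp
  have h3 : IsNilpotent.exp M * dt e l * MG.Ht e s * (dt e l⁻¹ * IsNilpotent.exp (-M)) =
      IsNilpotent.exp M * MG.Ht e s * IsNilpotent.exp (-M) := by
    conv_rhs => rw [← h2]
    simp only [Matrix.mul_assoc]
  rw [h3]
  have h4 : IsNilpotent.exp M * MG.Ht e s * IsNilpotent.exp (-M) -
      (MG.Ht e s + (M * MG.Ht e s - MG.Ht e s * M)) = IsNilpotent.exp M * MG.Ht e s *
      IsNilpotent.exp (-M) - MG.Ht e s - (M * MG.Ht e s - MG.Ht e s * M) := by abel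
  rw [h4]
  exact h1

section Form

variable (h : Mg K wt e G) {χ : R → ℤ} (hχ : χ ≠ 0) {f : B × B → ℂ} (hf : IsFm K e χ f)
  (hfC : ∀ w ∈ CC wt G, prf f w = 0)

include h hf hfC

theorem Mg.prf_conj {w : Matrix B B ℂ} (hw : fl w ∈ UU wt G) {l : R → ℂ} (hl : ∀ r, l r ≠ 0)
    {M : Matrix B B ℂ} (hM : fl M ∈ UU wt G) :
    prf f (fl (IsNilpotent.exp M * dt e l * w * (IsNilpotent.exp M * dt e l)⁻¹)) =
      mon l χ * prf f (fl w) := by
  have h1 := hfC _ (h.conj_UU hw hl hM)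
  have h2 : ∀ X Y : Matrix B B ℂ, fl (X - Y) = fl X - fl Y := fun _ _ => rfl
  rw [h2, map_sub, sub_eq_zero] at h1
  rw [h1, prf_dt hf w hl]

include hχ

theorem Mg.prf_conj_Ht (s : R → ℂ) {l : R → ℂ} (hl : ∀ r, l r ≠ 0) {M : Matrix B B ℂ}
    (hM : fl M ∈ UU wt G) :
    prf f (fl (IsNilpotent.exp M * dt e l * MG.Ht e s * (IsNilpotent.exp M * dt e l)⁻¹)) =
      -(dch s χ * prf f (fl M)) := by
  have h1 := hfC _ (h.conj_Ht s hl hM)
  have h2 : ∀ X Y : Matrix B B ℂ, fl (X - Y) = fl X - fl Y := fun _ _ => rfl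
  rw [h2, map_sub, sub_eq_zero] at h1
  rw [h1, fl_add, map_add, prf_Ht hχ hf, zero_add]
  have h3 : fl (M * MG.Ht e s - MG.Ht e s * M) = -aT e s (fl M) := by
    rw [aT_fl]
    funext b
    simp only [fl, Pi.neg_apply, Matrix.sub_apply]
    ring
  rw [h3, map_neg, prf_aT hf]

omit hf hfC hχ

theorem Mg.conj_mem {w : Matrix B B ℂ} (hw : fl w ∈ UU wt G) {x : Matrix B B ℂ} (hx : x ∈ G) :
    fl (x * w * x⁻¹) ∈ UU wt G := by
  obtain ⟨l, M, hl, hM, rfl⟩ := h.tri' hx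
  have h1 := Submodule.add_mem _ (CC_le (h.conj_UU hw hl hM)) (h.dt_UU hw hl)
  rwa [← fl_add, sub_add_cancel] at h1

theorem Mg.conj_Ht_mem (s : R → ℂ) {x : Matrix B B ℂ} (hx : x ∈ G) :
    fl (x * MG.Ht e s * x⁻¹ - MG.Ht e s) ∈ UU wt G := by
  obtain ⟨l, M, hl, hM, rfl⟩ := h.tri' hx
  have h1 := CC_le (h.conj_Ht s hl hM)
  have h2 := Submodule.sub_mem _ h1 (h.Ht_UU s hM)
  convert h2 using 1
  rw [← sub_eq_zero]
  funext b
  simp only [fl, Pi.sub_apply, Pi.zero_apply, Matrix.sub_apply, Matrix.add_apply]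
  ring

end Form

/-! ### The logarithmic derivative -/

theorem Mg.wD_mem (hT : IsSubtorsor K T) (D : Derivation K ℂ ℂ) {τ : R → ℂ} (hτ : ∀ r, τ r ≠ 0)
    {L : Matrix B B ℂ} (hL : Fk wt 1 L) (hc : IsNilpotent.exp L * dt e τ ∈ T) :
    fl ((IsNilpotent.exp L).map D * IsNilpotent.exp (-L) +
      IsNilpotent.exp L * MG.Ht e (fun r => D (τ r) / τ r) * IsNilpotent.exp (-L)) ∈ LL T := by
  have h1 := logder_mem hT D hc
  have h2 : (IsNilpotent.exp L * dt e τ).map D = (IsNilpotent.exp L).map D * dt e τ +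
      IsNilpotent.exp L * (dt e τ).map D := dMat_mul D _ _
  have h4 : (IsNilpotent.exp L * dt e τ).map D * (IsNilpotent.exp L * dt e τ)⁻¹ =
      (IsNilpotent.exp L).map D * IsNilpotent.exp (-L) +
      IsNilpotent.exp L * MG.Ht e (fun r => D (τ r) / τ r) * IsNilpotent.exp (-L) := by
    rw [h2, inv_eq hτ hL, dt_der D hτ, Matrix.add_mul, Matrix.mul_assoc _ (dt e τ), ← Matrix.mul_assoc
      (dt e τ), dt_mul, mul_inv_l hτ, dt_one, Matrix.one_mul]
    congr 1
    rw [Matrix.mul_assoc, Matrix.mul_assoc, ← Matrix.mul_assoc (dt e τ), dt_mul,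
      mul_inv_l hτ, dt_one, Matrix.one_mul, Matrix.mul_assoc]
  rwa [h4] at h1

theorem Mg.wD_UU (h : Mg K wt e G) (D : Derivation K ℂ ℂ) (τ : R → ℂ) {L : Matrix B B ℂ}
    (hL : fl L ∈ UU wt G) :
    fl ((IsNilpotent.exp L).map D * IsNilpotent.exp (-L) +
      IsNilpotent.exp L * MG.Ht e (fun r => D (τ r) / τ r) * IsNilpotent.exp (-L) -
      MG.Ht e (fun r => D (τ r) / τ r)) ∈ UU wt G := by
  set s : R → ℂ := fun r => D (τ r) / τ r
  have h1 := CC_le (logD_one h.hG D hL)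
  have hD : fl (L.map D) ∈ UU wt G := der_sub (UU wt G) (aut_UU h.hG) D hL
  have h2 := CC_le (h.logD_two s hL)
  have h3 := Submodule.neg_mem _ (h.Ht_UU s hL)
  have h4 := Submodule.add_mem _ (Submodule.add_mem _ h1 hD) (Submodule.add_mem _ h2 h3)
  convert h4 using 1
  funext b
  simp only [fl, Pi.add_apply, Pi.neg_apply, Matrix.sub_apply, Matrix.add_apply]
  ring

end Pool.Agent.U725.MG
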