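import Pool.Agent.U725.MG.CMStab
import Pool.Agent.TH813.Ell0K

/-!
# Complex multiplication: the arithmetic input
-/

set_option autoImplicit false
set_option linter.unusedSectionVars false

open Matrix
open scoped PeriodPair ComplexConjugate

namespace Pool.Agent.U725.CMA

open H667R3 Pool.Agent.W245.EB

noncomputable section

variable {L : PeriodPair}

/-- the quotient of the periods -/
def tau (L : PeriodPair) : ℂ := L.ω₂ / L.ω₁

/-- the number such that `η(ω) - κ ω` is a multiple of the complex conjugate of `ω` -/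
def kap (L : PeriodPair) : ℂ :=
  (eta L L.ω₂ - conj (tau L) * eta L L.ω₁) / (L.ω₂ - conj (tau L) * L.ω₁)

theorem om2_eq (L : PeriodPair) : L.ω₂ = tau L * L.ω₁ := by
  rw [tau, div_mul_cancel₀ _ (ω₁_ne_zero L)]

theorem tau_ne (L : PeriodPair) : conj (tau L) ≠ tau L := by
  intro h
  obtain ⟨r, hr⟩ := Complex.conj_eq_iff_real.1 h
  have h1 := LinearIndependent.pair_iff.1 L.indep r (-1) (by
    rw [Complex.real_smul, ← hr, ← om2_eq]
    simp)
  norm_num at h1

theorem tau_im (L : PeriodPair) : (tau L).im ≠ 0 := by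
  intro h
  exact tau_ne L (Complex.conj_eq_iff_im.2 h)

theorem den_ne (L : PeriodPair) : L.ω₂ - conj (tau L) * L.ω₁ ≠ 0 := by
  rw [om2_eq L, ← sub_mul]
  exact mul_ne_zero (sub_ne_zero.2 (tau_ne L).symm) (ω₁_ne_zero L)

/-- the conjugate differential -/
theorem eta2_eq (L : PeriodPair) : eta L L.ω₂ - kap L * L.ω₂ =
    conj (tau L) * (eta L L.ω₁ - kap L * L.ω₁) := by
  have h : kap L * (L.ω₂ - conj (tau L) * L.ω₁) = eta L L.ω₂ - conj (tau L) * eta L L.ω₁ := by
    rw [kap, div_mul_cancel₀ _ (den_ne L)]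
  linear_combination -h

theorem leg_eq (L : PeriodPair) : (conj (tau L) - tau L) * (L.ω₁ * (eta L L.ω₁ - kap L * L.ω₁)) =
    L.ω₁ * eta L L.ω₂ - L.ω₂ * eta L L.ω₁ := by
  have h := eta2_eq L
  have h2 := om2_eq L
  rw [h2] at h ⊢
  linear_combination (-L.ω₁) * h

/-- the relation between the quasi-periods -/
theorem eta_mult {α : ℂ} (h2 : IsAlgebraic ℚ L.g₂) (h3 : IsAlgebraic ℚ L.g₃) (hα : α ≠ 0)
    (hm : ∀ w ∈ L.lattice, α * w ∈ L.lattice) :
    ∃ (N : ℕ) (c : ℂ), 0 < N ∧ IsAlgebraic ℚ c ∧ ∀ w ∈ L.lattice,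
      α * eta L (α * w) = N * eta L w - c * w := by
  obtain ⟨c, hcQ, hc⟩ := wp_mul_alg h2 h3 hα hm
  obtain ⟨c₂, hc₂⟩ := zeta_mul hα hm hc
  refine ⟨(ker hα hm).card, c, Finset.card_pos.2 ⟨0, zero_mem_ker hα hm⟩,
    Pool.Agent.W245.EB.mem_QB.1 hcQ, fun w hw => ?_⟩
  obtain ⟨z, _, hz, _⟩ := exists_generic_mul h2 h3 hα hm
  have hzw : α * (z + w) ∉ L.lattice := by
    intro h
    apply hz
    have := sub_mem h (hm w hw)
    rwa [show α * (z + w) - α * w = α * z by ring] at this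
  have e1 := hc₂ z hz
  have e2 := hc₂ (z + w) hzw
  have e3 : zeta L (α * (z + w)) = zeta L (α * z) + eta L (α * w) := by
    rw [mul_add]
    exact zeta_add_coe L hz (hm w hw)
  have e4 : ∑ x ∈ ker hα hm, zeta L (z + w - x.out) =
      ∑ x ∈ ker hα hm, zeta L (z - x.out) + (ker hα hm).card * eta L w := by
    rw [← nsmul_eq_mul, ← Finset.sum_const, ← Finset.sum_add_distrib]
    refine Finset.sum_congr rfl fun x hx => ?_
    rw [show z + w - x.out = z - x.out + w by ring]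
    exact zeta_add_coe L (sub_out_notMem hz hx) hw
  rw [e3, e4] at e2
  linear_combination e2 - e1

theorem eta_lin (a b : ℤ) : eta L ((a : ℂ) * L.ω₁ + b * L.ω₂) = a * eta L L.ω₁ + b * eta L L.ω₂ := by
  have h1 : (a : ℂ) * L.ω₁ ∈ L.lattice := intCast_mul_mem L L.ω₁_mem_lattice a
  have h2 : (b : ℂ) * L.ω₂ ∈ L.lattice := intCast_mul_mem L L.ω₂_mem_lattice b
  rw [eta_add L h1 h2, eta_zsmul L L.ω₁_mem_lattice, eta_zsmul L L.ω₂_mem_lattice]

/-- a multiplication is a combination of `1` and `τ` -/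
theorem mult_coord {α : ℂ} (hm : ∀ w ∈ L.lattice, α * w ∈ L.lattice) :
    ∃ a b : ℤ, α = a + b * tau L := by
  obtain ⟨a, b, h1⟩ := PeriodPair.mem_lattice.1 (hm _ L.ω₁_mem_lattice)
  refine ⟨a, b, ?_⟩
  have h0 := ω₁_ne_zero L
  apply mul_right_cancel₀ h0
  rw [← h1, add_mul, mul_assoc, ← om2_eq]

theorem tau_alg {α : ℂ} (hm : ∀ w ∈ L.lattice, α * w ∈ L.lattice) (hα : α.im ≠ 0) :
    IsAlgebraic ℚ (tau L) ∧ tau L ∈ Pool.Agent.TH813.Ell.kL L := by
  obtain ⟨a, b, hab⟩ := mult_coord hm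
  have hb : (b : ℂ) ≠ 0 := by
    intro h0
    apply hα
    rw [hab, h0, zero_mul, add_zero]
    simp
  have e1 : tau L = (α - a) / b := by
    rw [hab]
    field_simp
    ring
  have hk := Pool.Agent.TH813.Ell.mult_mem_kL hm
  have hi : ∀ n : ℤ, (n : ℂ) ∈ Pool.Agent.TH813.Ell.kL L := fun n => intCast_mem _ n
  refine ⟨?_, ?_⟩
  · rw [e1, div_eq_mul_inv]
    exact ((alg_of_mul hm).sub (isAlgebraic_intCast a)).mul (isAlgebraic_intCast b).inv
  · rw [e1]
    exact div_mem (sub_mem hk (hi a)) (hi b)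

theorem conj_alg {x : ℂ} (h : IsAlgebraic ℚ x) : IsAlgebraic ℚ (conj x) := by
  have h1 := h.algHom (Complex.conjAe.toAlgHom.restrictScalars ℚ)
  exact h1

/-- the number `κ` is algebraic -/
theorem kap_alg (h2 : IsAlgebraic ℚ L.g₂) (h3 : IsAlgebraic ℚ L.g₃) {α : ℂ}
    (hm : ∀ w ∈ L.lattice, α * w ∈ L.lattice) (hα : α.im ≠ 0) : IsAlgebraic ℚ (kap L) := by
  have hα0 : α ≠ 0 := by
    rintro rfl
    exact hα (by simp)
  obtain ⟨N, c, hN, hc, hrel⟩ := eta_mult h2 h3 hα0 hm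
  have hne := ne_conj hα hN
  set x := eta L L.ω₁ - kap L * L.ω₁ with hx
  set θ := conj (tau L) with hθ
  -- the values of `η`
  have hη : ∀ a b : ℤ, eta L ((a : ℂ) * L.ω₁ + b * L.ω₂) =
      kap L * ((a : ℂ) * L.ω₁ + b * L.ω₂) + (a + b * θ) * x := by
    intro a b
    rw [eta_lin]
    have h := eta2_eq L
    rw [← hx, ← hθ] at h
    linear_combination (b : ℂ) * h + (a : ℂ) * hx
  have hαc : ∀ a b : ℤ, α * ((a : ℂ) * L.ω₁ + b * L.ω₂) ∈ L.lattice := fun a b =>
    hm _ (PeriodPair.mem_lattice.2 ⟨a, b, rfl⟩)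
  -- the two relations
  have key : ∀ a b : ℤ, (kap L * (α ^ 2 - N) + c) * ((a : ℂ) * L.ω₁ + b * L.ω₂) +
      x * (α * conj α - N) * (a + b * θ) = 0 := by
    intro a b
    obtain ⟨a', b', h'⟩ := PeriodPair.mem_lattice.1 (hαc a b)
    have e1 := hrel _ (PeriodPair.mem_lattice.2 ⟨a, b, rfl⟩ :
      (a : ℂ) * L.ω₁ + b * L.ω₂ ∈ L.lattice)
    rw [← h', hη, hη] at e1
    -- conjugate
    have e2 : (a' : ℂ) + b' * tau L = α * (a + b * tau L) := by
      apply mul_right_cancel₀ (ω₁_ne_zero L)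
      have h5 := om2_eq L
      linear_combination h' - (b' : ℂ) * h5 + α * b * h5
    have e3 := congrArg conj e2
    rw [map_add, map_mul, map_mul, map_add, map_mul, map_intCast, map_intCast, map_intCast,
      map_intCast, ← hθ] at e3
    linear_combination e1 - α * x * e3 - α * kap L * h'
  have k1 := key 1 0
  have k2 := key 0 1
  push_cast at k1 k2
  have e5 : (kap L * (α ^ 2 - N) + c) * (L.ω₂ - θ * L.ω₁) = 0 := by
    linear_combination k2 - θ * k1
  have e6 := (mul_eq_zero.1 e5).resolve_right (den_ne L)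
  have e7 : α ^ 2 - N ≠ 0 := by
    intro h0
    apply hne
    field_simp
    linear_combination -h0
  have e8 : kap L = -c / (α ^ 2 - N) := by
    field_simp
    linear_combination e6
  rw [e8, div_eq_mul_inv]
  exact hc.neg.mul (((alg_of_mul hm).pow 2).sub (isAlgebraic_natCast N)).inv

end

end Pool.Agent.U725.CMA
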