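import Pool.Agent.U725.MG.CMMain

/-!
# The criterion for the group, in terms of linear forms
-/

set_option autoImplicit false
set_option linter.unusedSectionVars false

open Matrix

namespace Pool.Agent.U725.CMG

open Pool.Agent.TH127.PT Pool.Agent.TH119.MX Pool.Agent.TH119.DR Pool.Agent.Y123.ST
  Pool.Agent.U725.OM Pool.Agent.U725.MT Pool.Agent.U725.MG

variable {ρ m : ℕ} {I : Type} [Fintype I] [DecidableEq I] (P Q : I → Fin ρ) (ε ε' : I → ℂ)

section Form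

variable (f : BB ρ I m × BB ρ I m → ℂ)

/-- the value of a form at the elements of the character `(-1, 0)` -/
noncomputable def F0 : (Fin ρ → ℂ) →ₗ[ℂ] ℂ where
  toFun a := prf f (fl (lmat P Q ε ε' (fun j => ![a j, 0]) 0 (0 : Fin m → ℂ)))
  map_add' a b := by
    have h1 : (fun j => ![(a + b) j, (0 : ℂ)]) = (fun j => ![a j, 0]) + fun j => ![b j, 0] := by
      funext j c
      fin_cases c <;> simp
    have h2 := lmat_add P Q ε ε' (fun j => ![a j, 0]) (fun j => ![b j, 0]) 0 0 0 (0 : Fin m → ℂ)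
    rw [add_zero, add_zero] at h2
    rw [h1, ← h2, fl_add, map_add]
  map_smul' c a := by
    have h1 : (fun j => ![(c • a) j, (0 : ℂ)]) = c • fun j => ![a j, 0] := by
      funext j c
      fin_cases c <;> simp
    have h2 := lmat_smul P Q ε ε' c (fun j => ![a j, 0]) 0 (0 : Fin m → ℂ)
    rw [smul_zero, smul_zero] at h2
    rw [h1, ← h2, fl_smul, map_smul]
    rfl

/-- the value of a form at the elements of the character `(0, -1)` -/
noncomputable def F1 : (Fin ρ → ℂ) →ₗ[ℂ] ℂ where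
  toFun a := prf f (fl (lmat P Q ε ε' (fun j => ![0, a j]) 0 (0 : Fin m → ℂ)))
  map_add' a b := by
    have h1 : (fun j => ![(0 : ℂ), (a + b) j]) = (fun j => ![0, a j]) + fun j => ![0, b j] := by
      funext j c
      fin_cases c <;> simp
    have h2 := lmat_add P Q ε ε' (fun j => ![0, a j]) (fun j => ![0, b j]) 0 0 0 (0 : Fin m → ℂ)
    rw [add_zero, add_zero] at h2
    rw [h1, ← h2, fl_add, map_add]
  map_smul' c a := by
    have h1 : (fun j => ![(0 : ℂ), (c • a) j]) = c • fun j => ![0, a j] := by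
      funext j c
      fin_cases c <;> simp
    have h2 := lmat_smul P Q ε ε' c (fun j => ![0, a j]) 0 (0 : Fin m → ℂ)
    rw [smul_zero, smul_zero] at h2
    rw [h1, ← h2, fl_smul, map_smul]
    rfl

/-- the value of a form at the elements of the character `(-1, -1)`, first part -/
noncomputable def Fs : (I → ℂ) →ₗ[ℂ] ℂ where
  toFun s := prf f (fl (lmat P Q ε ε' 0 s (0 : Fin m → ℂ)))
  map_add' a b := by
    have h2 := lmat_add P Q ε ε' 0 0 a b 0 (0 : Fin m → ℂ)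
    rw [add_zero, add_zero] at h2
    rw [← h2, fl_add, map_add]
  map_smul' c a := by
    have h2 := lmat_smul P Q ε ε' c 0 a (0 : Fin m → ℂ)
    rw [smul_zero, smul_zero] at h2
    rw [← h2, fl_smul, map_smul]
    rfl

/-- the value of a form at the elements of the character `(-1, -1)`, second part -/
noncomputable def Fr : (Fin m → ℂ) →ₗ[ℂ] ℂ where
  toFun r := prf f (fl (lmat P Q ε ε' 0 0 r))
  map_add' a b := by
    have h2 := lmat_add P Q ε ε' 0 0 0 0 a b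
    rw [add_zero, add_zero] at h2
    rw [← h2, fl_add, map_add]
  map_smul' c a := by
    have h2 := lmat_smul P Q ε ε' c 0 0 a
    rw [smul_zero, smul_zero] at h2
    rw [← h2, fl_smul, map_smul]
    rfl

theorem prf_lmat (v : Fin ρ → Fin 2 → ℂ) (s : I → ℂ) (r : Fin m → ℂ) :
    prf f (fl (lmat P Q ε ε' v s r)) = F0 P Q ε ε' f (fun j => v j 0) +
      F1 P Q ε ε' f (fun j => v j 1) + Fs P Q ε ε' f s + Fr P Q ε ε' f r := by
  have h1 : lmat P Q ε ε' v s r = lmat P Q ε ε' (fun j => ![v j 0, 0]) 0 0 +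
      lmat P Q ε ε' (fun j => ![0, v j 1]) 0 0 + lmat P Q ε ε' 0 s 0 + lmat P Q ε ε' 0 0 r := by
    rw [lmat_add, lmat_add, lmat_add]
    congr 1
    · funext j c
      fin_cases c <;> simp
    · simp
    · simp
  rw [h1, fl_add, fl_add, fl_add, map_add, map_add, map_add]
  rfl

end Form

theorem ch0 {a : Fin ρ → ℂ} {b b' : BB ρ I m}
    (h : lmat P Q ε ε' (fun j => ![a j, 0]) 0 (0 : Fin m → ℂ) b b' ≠ 0) :
    eC b - eC b' = ![-1, 0] := by
  obtain ⟨_, h1 | ⟨_, h2⟩ | ⟨_, h2 | h2⟩⟩ := lmat_entry P Q ε ε' h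
  · exact h1.1
  · exfalso
    apply h2
    have h3 : (fun j : Fin ρ => ![(0 : ℂ), (![a j, 0] : Fin 2 → ℂ) 1]) = 0 := by
      funext j c
      fin_cases c <;> rfl
    rw [h3, lmat_zero]
    rfl
  · exfalso
    apply h2
    rw [lmat_zero]
    rfl
  · exfalso
    apply h2
    rw [lmat_zero]
    rfl

theorem ch1 {a : Fin ρ → ℂ} {b b' : BB ρ I m}
    (h : lmat P Q ε ε' (fun j => ![0, a j]) 0 (0 : Fin m → ℂ) b b' ≠ 0) :
    eC b - eC b' = ![0, -1] := by
  obtain ⟨_, ⟨_, h2⟩ | h1 | ⟨_, h2 | h2⟩⟩ := lmat_entry P Q ε ε' h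
  · exfalso
    apply h2
    have h3 : (fun j : Fin ρ => ![(![0, a j] : Fin 2 → ℂ) 0, (0 : ℂ)]) = 0 := by
      funext j c
      fin_cases c <;> rfl
    rw [h3, lmat_zero]
    rfl
  · exact h1.1
  · exfalso
    apply h2
    rw [lmat_zero]
    rfl
  · exfalso
    apply h2
    rw [lmat_zero]
    rfl

theorem ch2 {s : I → ℂ} {r : Fin m → ℂ} {b b' : BB ρ I m}
    (h : lmat P Q ε ε' 0 s r b b' ≠ 0) : eC b - eC b' = ![-1, -1] := by
  obtain ⟨_, ⟨_, h2⟩ | ⟨_, h2⟩ | h1⟩ := lmat_entry P Q ε ε' h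
  · exfalso
    apply h2
    have h3 : (fun j : Fin ρ => ![(0 : Fin ρ → Fin 2 → ℂ) j 0, (0 : ℂ)]) = 0 := by
      funext j c
      fin_cases c <;> rfl
    rw [h3, lmat_zero]
    rfl
  · exfalso
    apply h2
    have h3 : (fun j : Fin ρ => ![(0 : ℂ), (0 : Fin ρ → Fin 2 → ℂ) j 1]) = 0 := by
      funext j c
      fin_cases c <;> rfl
    rw [h3, lmat_zero]
    rfl
  · exact h1.1

theorem prf_van {f : BB ρ I m × BB ρ I m → ℂ} {χ ψ : Fin 2 → ℤ}
    (hf : ∀ b, f b ≠ 0 → eC b.1 - eC b.2 = χ) (hne : ψ ≠ χ) {X : Matrix (BB ρ I m) (BB ρ I m) ℂ}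
    (hX : ∀ b b', X b b' ≠ 0 → eC b - eC b' = ψ) : prf f (fl X) = 0 := by
  rw [prf_apply]
  refine Finset.sum_eq_zero fun b _ => ?_
  by_cases h0 : f b = 0
  · rw [h0, zero_mul]
  · by_cases h1 : X b.1 b.2 = 0
    · rw [fl, h1, mul_zero]
    · exact absurd ((hX _ _ h1).symm.trans (hf b h0)) hne

variable {P Q ε ε'}

theorem lmat_QB (hε : ∀ e, ε e ∈ QB) (hε' : ∀ e, ε' e ∈ QB) {v : Fin ρ → Fin 2 → ℂ} {s : I → ℂ}
    {r : Fin m → ℂ} (hv : ∀ j c, v j c ∈ QB) (hs : ∀ e, s e ∈ QB) (hr : ∀ i, r i ∈ QB)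
    (b b' : BB ρ I m) : lmat P Q ε ε' v s r b b' ∈ QB := by
  have h0 : (0 : ℂ) ∈ QB := QB.zero_mem
  rcases b with a | ⟨a, j⟩ | ⟨a, i⟩ | ⟨a, i⟩ <;> rcases b' with a' | ⟨a', j'⟩ | ⟨a', i'⟩ | ⟨a', i'⟩
  all_goals
    try (simp [lmat, bd]; done)
  · simp only [lmat, bd, fromBlocks_apply₂₂, fromBlocks_apply₁₁, blockDiagonal_apply, b3]
    split_ifs
    · fin_cases a <;> fin_cases a' <;> simp <;> first | exact h0 | exact hv _ _
    · exact h0
  · simp only [lmat, bd, fromBlocks_apply₂₂, fromBlocks_apply₁₁, blockDiagonal_apply, b4]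
    split_ifs
    · fin_cases a <;> fin_cases a' <;> simp
      · exact hv _ _
      · exact hv _ _
      · exact hs _
      · exact QB.mul_mem (hε _) (hv _ _)
      · exact QB.mul_mem (hε' _) (hv _ _)
    · exact h0
  · simp only [lmat, bd, fromBlocks_apply₂₂, blockDiagonal_apply, b2]
    split_ifs
    · fin_cases a <;> fin_cases a' <;> simp <;> first | exact h0 | exact hr _
    · exact h0

theorem prf_QB (hε : ∀ e, ε e ∈ QB) (hε' : ∀ e, ε' e ∈ QB) {f : BB ρ I m × BB ρ I m → ℂ}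
    (hf : ∀ b, f b ∈ QB) {v : Fin ρ → Fin 2 → ℂ} {s : I → ℂ}
    {r : Fin m → ℂ} (hv : ∀ j c, v j c ∈ QB) (hs : ∀ e, s e ∈ QB) (hr : ∀ i, r i ∈ QB) :
    prf f (fl (lmat P Q ε ε' v s r)) ∈ QB := by
  rw [prf_apply]
  exact sum_mem fun b _ => QB.mul_mem (hf b) (lmat_QB hε hε' hv hs hr b.1 b.2)

theorem mem_sum (Φ : (Fin ρ → ℂ) →ₗ[ℂ] ℂ) (a : Fin ρ → ℂ) :
    Φ a = ∑ j, Φ (Pi.single j 1) * a j := by
  rw [LinearMap.pi_apply_eq_sum_univ Φ a]
  refine Finset.sum_congr rfl fun j _ => ?_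
  rw [smul_eq_mul, mul_comm]
  congr 2
  funext i
  rw [Pi.single_apply]
  simp only [eq_comm]

theorem mem_sum' (Φ : (I → ℂ) →ₗ[ℂ] ℂ) (a : I → ℂ) : Φ a = ∑ j, Φ (Pi.single j 1) * a j := by
  rw [LinearMap.pi_apply_eq_sum_univ Φ a]
  refine Finset.sum_congr rfl fun j _ => ?_
  rw [smul_eq_mul, mul_comm]
  congr 2
  funext i
  rw [Pi.single_apply]
  simp only [eq_comm]

end Pool.Agent.U725.CMG
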