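import Pool.Agent.U725.MG.CMCrit

/-!
# The criterion for the group: the main theorem
-/

set_option autoImplicit false
set_option linter.unusedSectionVars false

open Matrix

namespace Pool.Agent.U725.CMG

open Pool.Agent.TH127.PT Pool.Agent.TH119.MX Pool.Agent.TH119.DR Pool.Agent.Y123.ST
  Pool.Agent.U725.OM Pool.Agent.U725.MT Pool.Agent.U725.MG

variable {ρ m : ℕ} {I : Type} [Fintype I] [DecidableEq I] {P Q : I → Fin ρ} {ε ε' : I → ℂ}

theorem fin2_ne {a b c d : ℤ} (h : a ≠ c ∨ b ≠ d) : (![a, b] : Fin 2 → ℤ) ≠ ![c, d] := by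
  intro h1
  have e0 := congrFun h1 0
  have e1 := congrFun h1 1
  simp only [Matrix.cons_val_zero, Matrix.cons_val_one] at e0 e1
  rcases h with h | h
  · exact h e0
  · exact h e1

theorem tr_inv {x : ℂ} (h : Transcendental ℚ x) : Transcendental ℚ x⁻¹ := by
  intro h1
  apply h
  have := h1.inv
  rwa [inv_inv] at this

/-- the characters -/
noncomputable def Xi3 : Finset (Fin 2 → ℤ) := {![-1, 0], ![0, -1], ![-1, -1]}

theorem mem_Xi3 {χ : Fin 2 → ℤ} : χ ∈ Xi3 ↔ χ = ![-1, 0] ∨ χ = ![0, -1] ∨ χ = ![-1, -1] := by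
  simp [Xi3]

section Vals

variable {x₁ x₂ : ℂ}

theorem mon_0 : mon ![x₁, x₂] ![-1, 0] = x₁⁻¹ := by
  rw [mon_two]
  simp

theorem mon_1 : mon ![x₁, x₂] ![0, -1] = x₂⁻¹ := by
  rw [mon_two]
  simp

theorem mon_2 : mon ![x₁, x₂] ![-1, -1] = (x₁ * x₂)⁻¹ := by
  rw [mon_two]
  simp [mul_comm]

theorem tr_all (h1 : Transcendental ℚ x₁) (h2 : Transcendental ℚ x₂)
    (h12 : Transcendental ℚ (x₁ * x₂)) {χ : Fin 2 → ℤ} (hχ : χ ∈ Xi3) :
    Transcendental ℚ (mon ![x₁, x₂] χ) := by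
  rcases mem_Xi3.1 hχ with rfl | rfl | rfl
  · rw [mon_0]
    exact tr_inv h1
  · rw [mon_1]
    exact tr_inv h2
  · rw [mon_2]
    exact tr_inv h12

theorem tr_all2 (h1 : Transcendental ℚ x₁) (h2 : Transcendental ℚ x₂)
    (h3 : Transcendental ℚ (x₁ / x₂)) {χ χ' : Fin 2 → ℤ} (hχ : χ ∈ Xi3) (hχ' : χ' ∈ Xi3)
    (hne : χ ≠ χ') : Transcendental ℚ (mon ![x₁, x₂] (χ - χ')) := by
  have h3' : Transcendental ℚ (x₂ / x₁) := by
    have := tr_inv h3
    rwa [inv_div] at this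
  rcases mem_Xi3.1 hχ with rfl | rfl | rfl <;> rcases mem_Xi3.1 hχ' with rfl | rfl | rfl
  · exact absurd rfl hne
  · rw [mon_two]
    simpa [div_eq_inv_mul] using h3'
  · rw [mon_two]
    simpa using h2
  · rw [mon_two]
    simpa [div_eq_mul_inv] using h3
  · exact absurd rfl hne
  · rw [mon_two]
    simpa using h1
  · rw [mon_two]
    simpa using tr_inv h2
  · rw [mon_two]
    simpa using tr_inv h1
  · exact absurd rfl hne

end Vals

/-- the sum of the parts -/
theorem sum_part (v : Fin ρ → Fin 2 → ℂ) (s : I → ℂ) (r : Fin m → ℂ) (Ξ : Finset (Fin 2 → ℤ))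
    (hΞ : ∀ χ ∈ Xi3, (∃ b b' : BB ρ I m, eC b - eC b' = χ) → χ ∈ Ξ) :
    fl (lmat P Q ε ε' v s r) - ∑ χ ∈ Ξ, part eC χ (fl (lmat P Q ε ε' v s r)) = 0 := by
  funext b
  rw [Pi.sub_apply, Finset.sum_apply]
  simp only [part]
  rw [Finset.sum_ite_eq, Pi.zero_apply]
  by_cases h0 : lmat P Q ε ε' v s r b.1 b.2 = 0
  · rw [fl, h0]
    simp
  · have h1 : eC b.1 - eC b.2 ∈ Ξ := by
      refine hΞ _ ?_ ⟨_, _, rfl⟩
      rw [mem_Xi3]
      obtain ⟨_, h | h | h⟩ := lmat_entry P Q ε ε' h0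
      · exact Or.inl h.1
      · exact Or.inr (Or.inl h.1)
      · exact Or.inr (Or.inr h.1)
    rw [if_pos h1, sub_self]

/-- commutators -/
theorem comm_eq (i j : Fin ρ) :
    lmat P Q ε ε' (fun k => ![(Pi.single i (1 : ℂ) : Fin ρ → ℂ) k, 0]) 0 (0 : Fin m → ℂ) *
      lmat P Q ε ε' (fun k => ![0, (Pi.single j (1 : ℂ) : Fin ρ → ℂ) k]) 0 0 -
      lmat P Q ε ε' (fun k => ![0, (Pi.single j (1 : ℂ) : Fin ρ → ℂ) k]) 0 0 *
      lmat P Q ε ε' (fun k => ![(Pi.single i (1 : ℂ) : Fin ρ → ℂ) k, 0]) 0 0 =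
      lmat P Q ε ε' 0 (fun e => -((if P e = i ∧ Q e = j then ε e else 0) +
        (if P e = j ∧ Q e = i then ε' e else 0))) 0 := by
  rw [lmat_mul, lmat_mul, sub_eq_add_neg, ← neg_one_smul ℂ, lmat_smul, lmat_add, smul_zero,
    smul_zero, add_zero, add_zero]
  congr 1
  funext e
  simp only [Pi.single_apply, Matrix.cons_val_zero, Matrix.cons_val_one, Pi.add_apply,
    Pi.smul_apply, smul_eq_mul]
  have key : ∀ (p q : Prop) [Decidable p] [Decidable q] (x : ℂ),
      (if p ∧ q then x else 0) = x * (if p then 1 else 0) * (if q then 1 else 0) := by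
    intro p q _ _ x
    by_cases hp : p <;> by_cases hq : q <;> simp [hp, hq]
  rw [key, key]
  ring

variable (hε : ∀ e, ε e ∈ QB) (hε' : ∀ e, ε' e ∈ QB)

include hε hε' in
/-- **The criterion.** -/
theorem cm_crit
    (hI : ∀ c : I → ℂ, (∀ i j, ∑ e, c e * ((if P e = i ∧ Q e = j then ε e else 0) +
      (if P e = j ∧ Q e = i then ε' e else 0)) = 0) → c = 0)
    {x₁ x₂ : ℂ} (h1 : Transcendental ℚ x₁) (h2 : Transcendental ℚ x₂)
    (h12 : Transcendental ℚ (x₁ * x₂)) (h3 : Transcendental ℚ (x₁ / x₂))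
    {Y : Fin ρ → Fin 2 → ℂ} {t : I → ℂ} {z : Fin m → ℂ}
    (hY0 : ∀ u : Fin ρ → ℂ, (∀ j, u j ∈ QB) → ∀ a ∈ QB, ∀ β ∈ QB,
      ∑ j, u j * Y j 0 = a * x₁ + β → u = 0)
    (hY1 : ∀ u : Fin ρ → ℂ, (∀ j, u j ∈ QB) → ∀ a ∈ QB, ∀ β ∈ QB,
      ∑ j, u j * Y j 1 = a * x₂ + β → u = 0)
    (hz : ∀ u : Fin m → ℂ, (∀ j, u j ∈ QB) → ∀ a ∈ QB, ∀ β ∈ QB,
      ∑ j, u j * z j = a * (x₁ * x₂) + β → u = 0)
    {T : Set (Matrix (BB ρ I m) (BB ρ I m) ℂ)} (hT : IsSubtorsor QB T)
    (hc : gs P Q ε ε' x₁ x₂ Y t z ∈ T) : UU wtC (GC ρ m I P Q ε ε') ≤ LL T := by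
  classical
  have h10 : x₁ ≠ 0 := by
    rintro rfl
    exact h1 isAlgebraic_zero
  have h20 : x₂ ≠ 0 := by
    rintro rfl
    exact h2 isAlgebraic_zero
  have hM := cmMg (m := m) (P := P) (Q := Q) hε hε'
  obtain ⟨v, s, r, hv, hr, hL⟩ : ∃ (v : Fin ρ → Fin 2 → ℂ) (s : I → ℂ) (r : Fin m → ℂ),
      v = (fun j => ![Y j 0 / x₁, Y j 1 / x₂]) ∧ r = (fun i => z i / (x₁ * x₂)) ∧
      IsNilpotent.exp (lmat P Q ε ε' v s r) * dt eC ![x₁, x₂] = gs P Q ε ε' x₁ x₂ Y t z := by
    obtain ⟨s, hs⟩ : ∃ s, IsNilpotent.exp (lmat P Q ε ε' (fun j => ![Y j 0 / x₁, Y j 1 / x₂]) s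
        (fun i => z i / (x₁ * x₂))) = gs P Q ε ε' 1 1 (fun j => ![Y j 0 / x₁, Y j 1 / x₂])
        (fun e => t e / (x₁ * x₂)) (fun i => z i / (x₁ * x₂)) :=
      ⟨_, (gs_eq_exp P Q ε ε' _ _ _).symm⟩
    refine ⟨_, s, _, rfl, rfl, ?_⟩
    rw [gs_factor h10 h20 Y t z, hs, dt_eC P Q ε ε']
    rfl
  rw [← hL] at hc
  set Ξ : Finset (Fin 2 → ℤ) := Xi3.filter fun χ => ∃ b b' : BB ρ I m, eC b - eC b' = χ with hΞd
  refine MG.crit hM (τ := ![x₁, x₂]) (fun k => ?_) (lmat_mem hε hε' v s r) Ξ (fun χ hχ => ?_)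
    (fun w hw => ?_) (fun χ hχ => ?_) (fun χ hχ χ' hχ' hne => ?_) (fun χ hχ f hf hfC hrel => ?_)
    hT hc
  · fin_cases k
    · exact h10
    · exact h20
  · exact (Finset.mem_filter.1 hχ).2
  · obtain ⟨v', s', r', h5⟩ := eq_lmat hε hε' (X := um w) hw
    have h6 : w = fl (lmat P Q ε ε' v' s' r') := by
      rw [← h5, fl_um]
    rw [h6, sum_part v' s' r' Ξ fun χ hχ h7 => Finset.mem_filter.2 ⟨hχ, h7⟩]
    exact Submodule.zero_mem _
  · exact tr_all h1 h2 h12 (Finset.mem_filter.1 hχ).1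
  · exact tr_all2 h1 h2 h3 (Finset.mem_filter.1 hχ).1 (Finset.mem_filter.1 hχ').1 hne
  · obtain ⟨a, ha, β, hβ, hab⟩ := hrel
    have hQ0 : (0 : ℂ) ∈ QB := QB.zero_mem
    have hQ1 : (1 : ℂ) ∈ QB := QB.one_mem
    have hsing : ∀ j k : Fin ρ, (Pi.single j (1 : ℂ) : Fin ρ → ℂ) k ∈ QB := by
      intro j k
      rw [Pi.single_apply]
      split_ifs
      · exact hQ1
      · exact hQ0
    rw [prf_lmat] at hab
    suffices hzero : F0 P Q ε ε' f = 0 ∧ F1 P Q ε ε' f = 0 ∧ Fs P Q ε ε' f = 0 ∧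
        Fr P Q ε ε' f = 0 by
      intro w hw
      obtain ⟨v', s', r', h5⟩ := eq_lmat hε hε' (X := um w) hw
      have h6 : w = fl (lmat P Q ε ε' v' s' r') := by
        rw [← h5, fl_um]
      rw [h6, prf_lmat, hzero.1, hzero.2.1, hzero.2.2.1, hzero.2.2.2]
      simp
    rcases mem_Xi3.1 (Finset.mem_filter.1 hχ).1 with rfl | rfl | rfl
    · have e1 : F1 P Q ε ε' f = 0 := by
        ext1 k
        ext1
        exact prf_van hf.2 (fin2_ne (by decide)) fun b b' hb => ch1 P Q ε ε' hb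
      have e2 : Fs P Q ε ε' f = 0 := by
        ext1 k
        ext1
        exact prf_van hf.2 (fin2_ne (by decide)) fun b b' hb => ch2 P Q ε ε' hb
      have e3 : Fr P Q ε ε' f = 0 := by
        ext1 k
        ext1
        exact prf_van hf.2 (fin2_ne (by decide)) fun b b' hb => ch2 P Q ε ε' hb
      refine ⟨?_, e1, e2, e3⟩
      rw [e1, e2, e3, mon_0] at hab
      simp only [LinearMap.zero_apply, add_zero] at hab
      rw [mem_sum] at hab
      have e4 := hY0 (fun j => F0 P Q ε ε' f (Pi.single j 1)) (fun j => ?_) a ha β hβ ?_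
      · apply LinearMap.ext
        intro k
        rw [mem_sum]
        refine Finset.sum_eq_zero fun j _ => ?_
        rw [congrFun e4 j, Pi.zero_apply, zero_mul]
      · refine prf_QB hε hε' hf.1 (fun k c => ?_) (fun _ => hQ0) (fun _ => hQ0)
        fin_cases c
        · exact hsing j k
        · exact hQ0
      · have e5 : ∑ j, F0 P Q ε ε' f (Pi.single j 1) * Y j 0 =
            x₁ * ∑ j, F0 P Q ε ε' f (Pi.single j 1) * v j 0 := by
          rw [Finset.mul_sum]
          refine Finset.sum_congr rfl fun j _ => ?_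
          have e6 : v j 0 = Y j 0 / x₁ := by
            rw [hv]
            rfl
          rw [e6]
          field_simp
        rw [e5, hab]
        field_simp
    · have e1 : F0 P Q ε ε' f = 0 := by
        ext1 k
        ext1
        exact prf_van hf.2 (fin2_ne (by decide)) fun b b' hb => ch0 P Q ε ε' hb
      have e2 : Fs P Q ε ε' f = 0 := by
        ext1 k
        ext1
        exact prf_van hf.2 (fin2_ne (by decide)) fun b b' hb => ch2 P Q ε ε' hb
      have e3 : Fr P Q ε ε' f = 0 := by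
        ext1 k
        ext1
        exact prf_van hf.2 (fin2_ne (by decide)) fun b b' hb => ch2 P Q ε ε' hb
      refine ⟨e1, ?_, e2, e3⟩
      rw [e1, e2, e3, mon_1] at hab
      simp only [LinearMap.zero_apply, add_zero, zero_add] at hab
      rw [mem_sum] at hab
      have e4 := hY1 (fun j => F1 P Q ε ε' f (Pi.single j 1)) (fun j => ?_) a ha β hβ ?_
      · apply LinearMap.ext
        intro k
        rw [mem_sum]
        refine Finset.sum_eq_zero fun j _ => ?_
        rw [congrFun e4 j, Pi.zero_apply, zero_mul]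
      · refine prf_QB hε hε' hf.1 (fun k c => ?_) (fun _ => hQ0) (fun _ => hQ0)
        fin_cases c
        · exact hQ0
        · exact hsing j k
      · have e5 : ∑ j, F1 P Q ε ε' f (Pi.single j 1) * Y j 1 =
            x₂ * ∑ j, F1 P Q ε ε' f (Pi.single j 1) * v j 1 := by
          rw [Finset.mul_sum]
          refine Finset.sum_congr rfl fun j _ => ?_
          have e6 : v j 1 = Y j 1 / x₂ := by
            rw [hv]
            rfl
          rw [e6]
          field_simp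
        rw [e5, hab]
        field_simp
    · have e1 : F0 P Q ε ε' f = 0 := by
        ext1 k
        ext1
        exact prf_van hf.2 (fin2_ne (by decide)) fun b b' hb => ch0 P Q ε ε' hb
      have e2 : F1 P Q ε ε' f = 0 := by
        ext1 k
        ext1
        exact prf_van hf.2 (fin2_ne (by decide)) fun b b' hb => ch1 P Q ε ε' hb
      have e3 : Fs P Q ε ε' f = 0 := by
        have e4 := hI (fun e => Fs P Q ε ε' f (Pi.single e 1)) fun i j => ?_
        · apply LinearMap.ext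
          intro k
          rw [mem_sum']
          refine Finset.sum_eq_zero fun e _ => ?_
          rw [congrFun e4 e, Pi.zero_apply, zero_mul]
        · have e5 := hfC _ (br_CC
            (lmat_mem (m := m) (P := P) (Q := Q) hε hε'
              (fun k => ![(Pi.single i (1 : ℂ) : Fin ρ → ℂ) k, 0]) 0 0)
            (lmat_mem (m := m) (P := P) (Q := Q) hε hε'
              (fun k => ![0, (Pi.single j (1 : ℂ) : Fin ρ → ℂ) k]) 0 0))
          rw [comm_eq] at e5
          have e6 : Fs P Q ε ε' f (fun e => -((if P e = i ∧ Q e = j then ε e else 0) +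
              (if P e = j ∧ Q e = i then ε' e else 0))) = 0 := e5
          rw [mem_sum'] at e6
          refine neg_eq_zero.1 (Eq.trans ?_ e6)
          rw [← Finset.sum_neg_distrib]
          refine Finset.sum_congr rfl fun e _ => ?_
          ring
      refine ⟨e1, e2, e3, ?_⟩
      rw [e1, e2, e3, mon_2] at hab
      simp only [LinearMap.zero_apply, zero_add] at hab
      rw [mem_sum'] at hab
      have e4 := hz (fun j => Fr P Q ε ε' f (Pi.single j 1)) (fun j => ?_) a ha β hβ ?_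
      · apply LinearMap.ext
        intro k
        rw [mem_sum']
        refine Finset.sum_eq_zero fun j _ => ?_
        rw [congrFun e4 j, Pi.zero_apply, zero_mul]
      · refine prf_QB hε hε' hf.1 (fun k c => hQ0) (fun _ => hQ0) (fun k => ?_)
        rw [Pi.single_apply]
        split_ifs
        · exact hQ1
        · exact hQ0
      · have e5 : ∑ j, Fr P Q ε ε' f (Pi.single j 1) * z j =
            (x₁ * x₂) * ∑ j, Fr P Q ε ε' f (Pi.single j 1) * r j := by
          rw [Finset.mul_sum]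
          refine Finset.sum_congr rfl fun j _ => ?_
          rw [hr]
          field_simp
        rw [e5, hab]
        field_simp

include hε hε' in
/-- all unipotent elements act -/
theorem cm_stable {T : Set (Matrix (BB ρ I m) (BB ρ I m) ℂ)} (hT : IsSubtorsor QB T)
    (hU : UU wtC (GC ρ m I P Q ε ε') ≤ LL T) {u₁ u₂ : ℂ} {v : Fin ρ → Fin 2 → ℂ} {s : I → ℂ}
    {r : Fin m → ℂ} (h : gs P Q ε ε' u₁ u₂ v s r ∈ T) (Y : Fin ρ → Fin 2 → ℂ) (t : I → ℂ)
    (z : Fin m → ℂ) : gs P Q ε ε' u₁ u₂ Y t z ∈ T := by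
  have hu : u₁ * u₂ ≠ 0 := by
    intro h0
    have h1 := hT.isUnit _ h
    have h2 : (gs P Q ε ε' u₁ u₂ v s r).det = 0 := by
      rw [← gsR_eq]
      unfold gsR
      rw [Matrix.det_fromBlocks_zero₁₂, Matrix.det_fin_two_of, h0]
      ring
    rw [Matrix.isUnit_iff_isUnit_det, h2] at h1
    exact not_isUnit_zero h1
  have hu1 := left_ne_zero_of_mul hu
  have hu2 := right_ne_zero_of_mul hu
  set y : Fin ρ → Fin 2 → ℂ := fun j => ![(Y j 0 - v j 0) / u₁, (Y j 1 - v j 1) / u₂] with hy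
  set t0 : I → ℂ := fun e => (t e - s e - (-(ε e * y (P e) 0 * (u₁ * v (Q e) 1)) +
    ε' e * y (P e) 1 * (u₂ * v (Q e) 0))) / (u₁ * u₂) with ht0
  set z0 : Fin m → ℂ := fun i => (z i - r i) / (u₁ * u₂) with hz0
  have h1 := gs_eq_exp P Q ε ε' y t0 z0
  have h2 := MT.exp_mem hT (Fk_lmat P Q ε ε' y (fun e => t0 e - (1 / 2) *
        (-(ε e * y (P e) 0 * y (Q e) 1) + ε' e * y (P e) 1 * y (Q e) 0)) z0).nil
    (hU (lmat_mem hε hε' _ _ _)) h 1
  rw [one_smul, ← h1, gs_mul] at h2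
  convert h2 using 1
  congr 1
  · rw [one_mul]
  · rw [one_mul]
  · funext j c
    fin_cases c
    · change Y j 0 = (Y j 0 - v j 0) / u₁ * u₁ + v j 0
      rw [div_mul_cancel₀ _ hu1]
      ring
    · change Y j 1 = (Y j 1 - v j 1) / u₂ * u₂ + v j 1
      rw [div_mul_cancel₀ _ hu2]
      ring
  · funext e
    simp only [ht0]
    rw [div_mul_cancel₀ _ hu]
    ring
  · funext i
    simp only [hz0]
    rw [div_mul_cancel₀ _ hu]
    ring

end Pool.Agent.U725.CMG
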