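import Pool.Agent.U725.MG.CMArith

/-!
# Complex multiplication: the theorem
-/

set_option autoImplicit false
set_option linter.unusedSectionVars false

open Matrix
open scoped PeriodPair ComplexConjugate

namespace Pool.Agent.U725.CMA

open H667R3 Pool.Agent.W245.EB Pool.Agent.U725.OM Pool.Agent.U725.MG Pool.Agent.U725.CMG
  Pool.Agent.TH127.PT

noncomputable section

variable {L : PeriodPair} {ρ m : ℕ} {I : Type} [Fintype I] [DecidableEq I] {K : Subfield ℂ}

/-- independence of the points modulo the periods -/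
def Indep (L : PeriodPair) {ρ : ℕ} (w : Fin ρ → ℂ) : Prop :=
  ∀ β : Fin ρ → ℂ, (∀ j, β j ∈ Pool.Agent.TH813.Ell.kL L) →
    (∃ n : ℕ, 0 < n ∧ (n : ℂ) * ∑ j, β j * w j ∈ L.lattice) → β = 0

theorem Indep.notMem {w : Fin ρ → ℂ} (hi : Indep L w) (j : Fin ρ) : w j ∉ L.lattice := by
  intro h
  have h1 := hi (Pi.single j 1) (fun i => by
    rw [Pi.single_apply]
    split_ifs
    · exact one_mem _
    · exact zero_mem _) ⟨1, one_pos, by
      rw [Nat.cast_one, one_mul, Finset.sum_eq_single j]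
      · rw [Pi.single_eq_same, one_mul]
        exact h
      · intro i _ hij
        rw [Pi.single_eq_of_ne hij, zero_mul]
      · exact fun h5 => absurd (Finset.mem_univ j) h5⟩
  have h2 := congrFun h1 j
  rw [Pi.single_eq_same] at h2
  exact one_ne_zero h2

/-- linear forms in integrals of the second kind and periods -/
theorem sk_of (h2 : IsAlgebraic ℚ L.g₂) (h3 : IsAlgebraic ℚ L.g₃) {w : Fin ρ → ℂ}
    (hw : ∀ j, IsAlgebraic ℚ (℘[L] (w j))) (hi : Indep L w) {s r : ℂ} (hs : IsAlgebraic ℚ s)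
    (hr : IsAlgebraic ℚ r) (hsr : s ≠ 0 ∨ r ≠ 0) (u : Fin ρ → ℂ) (a : ℂ)
    (hu : ∀ j, IsAlgebraic ℚ (u j)) (ha : IsAlgebraic ℚ a)
    (h0 : IsAlgebraic ℚ (∑ j, u j * (s * zeta L (w j) + r * w j) +
      a * (s * eta L L.ω₁ + r * L.ω₁))) : u = 0 ∧ a = 0 := by
  have key := second_kind h2 h3 (Fin.cons L.ω₁ w : Fin (ρ + 1) → ℂ) (by
      intro j
      refine Fin.cases ?_ (fun j => ?_) j
      · rw [Fin.cons_zero]
        exact Or.inl L.ω₁_mem_lattice
      · rw [Fin.cons_succ]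
        exact Or.inr (hw j)) (by
      intro α hα hsum
      rw [Fin.sum_univ_succ] at hsum
      simp only [Fin.cons_zero, Fin.cons_succ] at hsum
      obtain ⟨n, hn, h4⟩ := hα 0
      have h5 : (fun j : Fin ρ => α j.succ) = 0 := hi _ (fun j => by
        obtain ⟨n, hn, h4⟩ := hα j.succ
        exact ⟨n, hn, h4⟩) ⟨n, hn, by
          have h6 := neg_mem (h4 _ L.ω₁_mem_lattice)
          convert h6 using 1
          linear_combination (n : ℂ) * hsum⟩
      have h6 : ∑ j : Fin ρ, α j.succ * w j = 0 := by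
        refine Finset.sum_eq_zero fun j _ => ?_
        have := congrFun h5 j
        change α j.succ = 0 at this
        rw [this, zero_mul]
      rw [h6, add_zero] at hsum
      have h7 := (mul_eq_zero.1 hsum).resolve_right (ω₁_ne_zero L)
      funext j
      refine Fin.cases ?_ (fun j => ?_) j
      · exact h7
      · exact congrFun h5 j) s r hs hr hsr (Fin.cons a u : Fin (ρ + 1) → ℂ) (by
      intro j
      refine Fin.cases ?_ (fun j => ?_) j
      · exact ha
      · exact hu j) (by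
      rw [Fin.sum_univ_succ]
      simp only [Fin.cons_zero, Fin.cons_succ]
      have h6 : ∀ j, zt L (w j) = zeta L (w j) := fun j => zt_of_notMem (hi.notMem j)
      simp only [h6, zt_of_mem L.ω₁_mem_lattice]
      rw [add_comm]
      exact h0)
  constructor
  · funext j
    have := congrFun key j.succ
    rwa [Fin.cons_succ] at this
  · have := congrFun key 0
    rwa [Fin.cons_zero] at this

/-- the period matrix of the curve -/
def X0 (L : PeriodPair) : M2 :=
  !![L.ω₁, 2 * zeta L (L.ω₁ / 2); L.ω₂, 2 * zeta L (L.ω₂ / 2)]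

theorem X0_eq (L : PeriodPair) : X0 L = Xc (tau L) (conj (tau L)) (kap L) L.ω₁
    (eta L L.ω₁ - kap L * L.ω₁) := by
  have e1 := eta2_eq L
  have e2 := om2_eq L
  have e3 := Pool.Agent.U725.OM.eta_half L.ω₁_mem_lattice (half_notMem_one L)
  have e4 := Pool.Agent.U725.OM.eta_half L.ω₂_mem_lattice (half_notMem_two L)
  ext a b
  fin_cases a <;> fin_cases b
  · rfl
  · change 2 * zeta L (L.ω₁ / 2) = kap L * L.ω₁ + (eta L L.ω₁ - kap L * L.ω₁)
    rw [← e3]
    ring
  · exact e2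
  · change 2 * zeta L (L.ω₂ / 2) = tau L * kap L * L.ω₁ + conj (tau L) *
      (eta L L.ω₁ - kap L * L.ω₁)
    rw [← e4]
    linear_combination e1 + kap L * e2

/-- independence of Hermitian matrices -/
theorem herm_indep {P Q : I → Fin ρ} {ε : I → ℂ}
    (hH : LinearIndependent ℝ fun e : I => (Matrix.single (P e) (Q e) (ε e) +
      Matrix.single (Q e) (P e) (conj (ε e)) : Matrix (Fin ρ) (Fin ρ) ℂ))
    (c : I → ℂ) (hc : ∀ i j, ∑ e, c e * ((if P e = i ∧ Q e = j then ε e else 0) +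
      (if P e = j ∧ Q e = i then conj (ε e) else 0)) = 0) : c = 0 := by
  set H : I → Fin ρ → Fin ρ → ℂ := fun e i j => (if P e = i ∧ Q e = j then ε e else 0) +
      (if P e = j ∧ Q e = i then conj (ε e) else 0) with hHd
  have hent : ∀ e i j, (Matrix.single (P e) (Q e) (ε e) +
      Matrix.single (Q e) (P e) (conj (ε e)) : Matrix (Fin ρ) (Fin ρ) ℂ) i j = H e i j := by
    intro e i j
    rw [Matrix.add_apply, Matrix.single_apply, Matrix.single_apply, hHd]
    simp only [and_comm (a := Q e = i)]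
  have hconj : ∀ e i j, conj (H e j i) = H e i j := by
    intro e i j
    simp only [hHd, map_add]
    rw [apply_ite conj, apply_ite conj, map_zero, Complex.conj_conj, add_comm]
  have h2 : ∀ i j, ∑ e, conj (c e) * H e i j = 0 := by
    intro i j
    have h3 := congrArg conj (hc j i)
    rw [map_sum, map_zero] at h3
    rw [← h3]
    refine Finset.sum_congr rfl fun e _ => ?_
    rw [map_mul, ← hconj e i j]
  have hre : ∀ i j, ∑ e, ((c e).re : ℂ) * H e i j = 0 := by
    intro i j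
    have h3 : ∑ e, ((c e).re : ℂ) * H e i j = (1 / 2) * (∑ e, c e * H e i j +
        ∑ e, conj (c e) * H e i j) := by
      rw [← Finset.sum_add_distrib, Finset.mul_sum]
      refine Finset.sum_congr rfl fun e _ => ?_
      rw [Complex.re_eq_add_conj]
      ring
    rw [h3, h2 i j, hc i j]
    ring
  have him : ∀ i j, ∑ e, ((c e).im : ℂ) * H e i j = 0 := by
    intro i j
    have h3 : ∑ e, ((c e).im : ℂ) * H e i j = (1 / (2 * Complex.I)) * (∑ e, c e * H e i j -
        ∑ e, conj (c e) * H e i j) := by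
      rw [← Finset.sum_sub_distrib, Finset.mul_sum]
      refine Finset.sum_congr rfl fun e _ => ?_
      rw [Complex.im_eq_sub_conj]
      ring
    rw [h3, h2 i j, hc i j]
    ring
  have hz : ∀ r : I → ℝ, (∀ i j, ∑ e, (r e : ℂ) * H e i j = 0) → ∀ e, r e = 0 := by
    intro r hr
    refine Fintype.linearIndependent_iff.1 hH r ?_
    ext i j
    rw [Matrix.sum_apply, Matrix.zero_apply, ← hr i j]
    refine Finset.sum_congr rfl fun e _ => ?_
    rw [Matrix.smul_apply, hent, Complex.real_smul]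
  funext e
  exact Complex.ext (hz _ hre e) (hz _ him e)

theorem leg_X0 {n : ℤ} (hleg : L.ω₁ * (2 * zeta L (L.ω₂ / 2)) - 2 * zeta L (L.ω₁ / 2) * L.ω₂ =
    n * (2 * Real.pi * Complex.I)) : (conj (tau L) - tau L) * (L.ω₁ *
      (eta L L.ω₁ - kap L * L.ω₁)) = n * (2 * Real.pi * Complex.I) := by
  have e3 := Pool.Agent.U725.OM.eta_half L.ω₁_mem_lattice (half_notMem_one L)
  have e4 := Pool.Agent.U725.OM.eta_half L.ω₂_mem_lattice (half_notMem_two L)
  rw [leg_eq, ← hleg, ← e3, ← e4]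
  ring

/-- **Curves with complex multiplication.** -/
theorem cm_final (h2 : IsAlgebraic ℚ L.g₂) (h3 : IsAlgebraic ℚ L.g₃) {α : ℂ}
    (hm : ∀ w ∈ L.lattice, α * w ∈ L.lattice) (hα : α.im ≠ 0) {w : Fin ρ → ℂ}
    (hw : ∀ j, IsAlgebraic ℚ (℘[L] (w j))) (hi : Indep L w) {b : Fin m → ℂ}
    (hb : ∀ i, IsAlgebraic ℚ (Complex.exp (b i)))
    (hbi : LinearIndependent ℚ (Fin.cons (2 * Real.pi * Complex.I) b : Fin (m + 1) → ℂ))
    {P Q : I → Fin ρ} {ε : I → ℂ} (hε : ∀ e, ε e ∈ Pool.Agent.TH813.Ell.kL L)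
    (hH : LinearIndependent ℝ fun e : I => (Matrix.single (P e) (Q e) (ε e) +
      Matrix.single (Q e) (P e) (conj (ε e)) : Matrix (Fin ρ) (Fin ρ) ℂ))
    (s : I → ℂ) {n : ℤ} (hn : n ≠ 0)
    (hleg : L.ω₁ * (2 * zeta L (L.ω₂ / 2)) - 2 * zeta L (L.ω₁ / 2) * L.ω₂ =
      n * (2 * Real.pi * Complex.I)) (hK : K ≤ OM.QB)
    (hKL : ∀ β ∈ Pool.Agent.TH813.Ell.kL L, β ∈ K)
    (hKκ : ∀ β ∈ Pool.Agent.TH813.Ell.kL L, kap L * (β - conj β) ∈ K) :
    Om K (shp P Q ε (fun e => conj (ε e)) (fun e => kap L * (ε e - conj (ε e))) (X0 L)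
      (2 * Real.pi * Complex.I) (fun j => ![w j, zeta L (w j)]) s b) =
    {x | ∃ X ∈ Om K (X0 L), ∃ l Y t z, X.det = (n : ℂ) * l ∧
      x = shp P Q ε (fun e => conj (ε e)) (fun e => kap L * (ε e - conj (ε e))) X l Y t z} := by
  obtain ⟨hτa, hτk⟩ := tau_alg hm hα
  have hθk := Pool.Agent.TH813.Ell.conj_mem_kL hτk
  have hκa := kap_alg h2 h3 hm hα
  have hne := tau_ne L
  have hdiff : tau L - conj (tau L) ≠ 0 := sub_ne_zero.2 hne.symm
  have hτK : tau L ∈ K := hKL _ hτk
  have hθK : conj (tau L) ∈ K := hKL _ hθk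
  have hκK : kap L ∈ K := by
    have h4 := K.div_mem (hKκ _ hτk) (K.sub_mem hτK hθK)
    rwa [mul_div_cancel_right₀ _ hdiff] at h4
  have hεK : ∀ e, ε e ∈ K := fun e => hKL _ (hε e)
  have hε'K : ∀ e, conj (ε e) ∈ K := fun e => hKL _ (Pool.Agent.TH813.Ell.conj_mem_kL (hε e))
  have hn0 : (n : ℂ) ≠ 0 := by exact_mod_cast hn
  have hnK : (n : ℂ) ∈ K := intCast_mem K n
  have hpi : (2 * Real.pi * Complex.I : ℂ) ≠ 0 := Complex.two_pi_I_ne_zero
  have hX0 := X0_eq L
  have hleg' := leg_X0 hleg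
  set θ := conj (tau L) with hθ
  set x₂ := eta L L.ω₁ - kap L * L.ω₁ with hx₂
  have hprod : (θ - tau L) * (L.ω₁ * x₂) ≠ 0 := by
    rw [hleg']
    exact mul_ne_zero hn0 hpi
  have hx10 : L.ω₁ ≠ 0 := ω₁_ne_zero L
  have hx20 : x₂ ≠ 0 := right_ne_zero_of_mul (right_ne_zero_of_mul hprod)
  have hsub : θ - tau L ≠ 0 := left_ne_zero_of_mul hprod
  have hA : ∀ {x : ℂ}, x ∈ K → IsAlgebraic ℚ x := fun hx => OM.mem_QB.1 (hK hx)
  have hx12 : L.ω₁ * x₂ = (n : ℂ) / (θ - tau L) * (2 * Real.pi * Complex.I) := by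
    field_simp
    linear_combination hleg'
  have hcoef : IsAlgebraic ℚ ((n : ℂ) / (θ - tau L)) :=
    hA (K.div_mem hnK (K.sub_mem hθK hτK))
  rw [hX0]
  refine main_eq hn0 hnK (M₂ := MC (tau L) θ (kap L)) (MC_sub hne hτK hθK hκK)
    (MM_sub hne hn0 (fun e => rfl) hτK hθK hκK hnK hεK hε'K) ⟨L.ω₁, x₂, hx10, hx20, rfl⟩
    (by rw [Xc_det]; exact hleg') ?_
  refine cm_stab hK hne hn0 (fun e => rfl) (OM.mem_QB.2 hτa) (hK hθK) (OM.mem_QB.2 hκa) (hK hnK)
    (fun e => hK (hεK e)) (fun e => hK (hε'K e)) (herm_indep hH) hleg' ?_ ?_ ?_ ?_ ?_ ?_ ?_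
  · intro h
    have h4 := (sk_of h2 h3 hw hi isAlgebraic_zero isAlgebraic_one (Or.inr one_ne_zero) 0 1
      (fun _ => isAlgebraic_zero) isAlgebraic_one (by simpa using h)).2
    exact one_ne_zero h4
  · intro h
    have h4 := (sk_of h2 h3 hw hi isAlgebraic_one hκa.neg (Or.inl one_ne_zero) 0 1
      (fun _ => isAlgebraic_zero) isAlgebraic_one (by
        convert h using 1
        simp [hx₂]
        ring)).2
    exact one_ne_zero h4
  · intro h
    rw [hx12] at h
    have h4 := h.mul hcoef.inv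
    have h5 : (n : ℂ) / (θ - tau L) * (2 * Real.pi * Complex.I) * ((n : ℂ) / (θ - tau L))⁻¹ =
        2 * Real.pi * Complex.I := by
      field_simp
    rw [h5] at h4
    exact Pool.Agent.U725.MT.transc h4
  · intro h
    set r := L.ω₁ / x₂ with hr
    have h4 := (sk_of h2 h3 hw hi (s := -r) (r := 1 + r * kap L) h.neg
      (isAlgebraic_one.add (h.mul hκa)) (by
        by_cases h5 : r = 0
        · right
          rw [h5]
          simp
        · left
          exact neg_ne_zero.2 h5) 0 1 (fun _ => isAlgebraic_zero) isAlgebraic_one (by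
        have h6 : ∑ j, (0 : Fin ρ → ℂ) j * (-r * zeta L (w j) + (1 + r * kap L) * w j) +
            1 * (-r * eta L L.ω₁ + (1 + r * kap L) * L.ω₁) = 0 := by
          have h7 : r * x₂ = L.ω₁ := div_mul_cancel₀ _ hx20
          have h8 : ∑ j, (0 : Fin ρ → ℂ) j * (-r * zeta L (w j) + (1 + r * kap L) * w j) = 0 :=
            Finset.sum_eq_zero fun j _ => by simp
          rw [h8]
          linear_combination -h7 + r * hx₂
        rw [h6]
        exact isAlgebraic_zero)).2
    exact one_ne_zero h4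
  · intro u hu a ha β hβ h
    refine (sk_of h2 h3 hw hi isAlgebraic_zero isAlgebraic_one (Or.inr one_ne_zero) u (-a)
      (fun j => OM.mem_QB.1 (hu j)) (OM.mem_QB.1 ha).neg ?_).1
    have h4 : ∑ j, u j * (0 * zeta L (w j) + 1 * w j) + -a * (0 * eta L L.ω₁ + 1 * L.ω₁) = β := by
      have h5 : ∑ j, u j * (0 * zeta L (w j) + 1 * w j) = ∑ j, u j * (![w j, zeta L (w j)] : Fin 2 → ℂ) 0 :=
        Finset.sum_congr rfl fun j _ => by simp
      rw [h5, h]
      ring
    rw [h4]
    exact OM.mem_QB.1 hβ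
  · intro u hu a ha β hβ h
    refine (sk_of h2 h3 hw hi isAlgebraic_one hκa.neg (Or.inl one_ne_zero) u (-a)
      (fun j => OM.mem_QB.1 (hu j)) (OM.mem_QB.1 ha).neg ?_).1
    have h4 : ∑ j, u j * (1 * zeta L (w j) + -kap L * w j) +
        -a * (1 * eta L L.ω₁ + -kap L * L.ω₁) = β := by
      have h5 : ∑ j, u j * (1 * zeta L (w j) + -kap L * w j) =
          ∑ j, u j * ((![w j, zeta L (w j)] : Fin 2 → ℂ) 1 -
            kap L * (![w j, zeta L (w j)] : Fin 2 → ℂ) 0) :=
        Finset.sum_congr rfl fun j _ => by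
          simp only [Matrix.cons_val_zero, Matrix.cons_val_one]
          ring
      rw [h5, h, hx₂]
      ring
    rw [h4]
    exact OM.mem_QB.1 hβ
  · intro u hu a ha β hβ h
    refine (bak_of hb hbi u (-(a * ((n : ℂ) / (θ - tau L)))) (fun j => OM.mem_QB.1 (hu j))
      ((OM.mem_QB.1 ha).mul hcoef).neg ?_).1
    rw [h, hx12]
    have h4 : a * ((n : ℂ) / (θ - tau L) * (2 * Real.pi * Complex.I)) + β +
        -(a * ((n : ℂ) / (θ - tau L))) * (2 * Real.pi * Complex.I) = β := by ring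
    rw [h4]
    exact OM.mem_QB.1 hβ

end

end Pool.Agent.U725.CMA
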