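import Pool.Agent.U725.MG.Crit
import Pool.Agent.U725.OM.Tors

/-!
# The group for 1-motives over a power of an elliptic curve with complex multiplication
-/

set_option autoImplicit false
set_option linter.unusedSectionVars false

open Matrix

namespace Pool.Agent.U725.CMG

open Pool.Agent.TH127.PT Pool.Agent.Y123.ST Pool.Agent.U725.OM Pool.Agent.U725.MT Pool.Agent.U725.MG

variable {ρ m : ℕ} {I : Type} [Fintype I] [DecidableEq I]

/-- the matrices of the group, over any ring -/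
def gsR {R : Type} [CommRing R] (P Q : I → Fin ρ) (ε ε' : I → R) (x₁ x₂ : R)
    (y : Fin ρ → Fin 2 → R) (t : I → R) (z : Fin m → R) :
    Matrix (BB ρ I m) (BB ρ I m) R :=
  fromBlocks !![x₁, 0; 0, x₂] 0 0 (fromBlocks
    (blockDiagonal fun j => !![x₁, 0, 0; 0, x₂, 0; y j 0, y j 1, 1]) 0 0
    (fromBlocks (blockDiagonal fun e => !![x₁ * x₂, 0, 0, 0;
      -(x₁ * y (Q e) 1), x₁, 0, 0;
      x₂ * y (Q e) 0, 0, x₂, 0;
      t e, ε e * y (P e) 0, ε' e * y (P e) 1, 1]) 0 0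
    (blockDiagonal fun i => !![x₁ * x₂, 0; z i, 1])))

theorem gsR_map {R S : Type} [CommRing R] [CommRing S] (f : R →+* S) (P Q : I → Fin ρ)
    (ε ε' : I → R) (x₁ x₂ : R) (y : Fin ρ → Fin 2 → R) (t : I → R) (z : Fin m → R) :
    (gsR P Q ε ε' x₁ x₂ y t z).map f = gsR P Q (fun e => f (ε e)) (fun e => f (ε' e)) (f x₁) (f x₂)
      (fun j c => f (y j c)) (fun e => f (t e)) (fun i => f (z i)) := by
  have h0 : (!![x₁, 0; 0, x₂] : Matrix (Fin 2) (Fin 2) R).map f = !![f x₁, 0; 0, f x₂] := by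
    ext a b
    fin_cases a <;> fin_cases b <;> simp
  have h1 : (blockDiagonal fun j => !![x₁, 0, 0; 0, x₂, 0; y j 0, y j 1, 1]).map f =
      blockDiagonal fun j => !![f x₁, 0, 0; 0, f x₂, 0; f (y j 0), f (y j 1), 1] := by
    rw [blockDiagonal_map _ _ (map_zero f)]
    congr 1
    funext j
    ext a b
    fin_cases a <;> fin_cases b <;> simp
  have h2 : (blockDiagonal fun e => !![x₁ * x₂, 0, 0, 0;
      -(x₁ * y (Q e) 1), x₁, 0, 0;
      x₂ * y (Q e) 0, 0, x₂, 0;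
      t e, ε e * y (P e) 0, ε' e * y (P e) 1, 1]).map f = blockDiagonal fun e => !![f x₁ * f x₂, 0, 0, 0;
      -(f x₁ * f (y (Q e) 1)), f x₁, 0, 0;
      f x₂ * f (y (Q e) 0), 0, f x₂, 0;
      f (t e), f (ε e) * f (y (P e) 0), f (ε' e) * f (y (P e) 1), 1] := by
    rw [blockDiagonal_map _ _ (map_zero f)]
    congr 1
    funext j
    ext a b
    fin_cases a <;> fin_cases b <;> simp
  have h3 : (blockDiagonal fun i => !![x₁ * x₂, 0; z i, 1]).map f =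
      blockDiagonal fun i => !![f x₁ * f x₂, 0; f (z i), 1] := by
    rw [blockDiagonal_map _ _ (map_zero f)]
    congr 1
    funext j
    ext a b
    fin_cases a <;> fin_cases b <;> simp
  unfold gsR
  simp only [fromBlocks_map, Matrix.map_zero f (map_zero f), h0, h1, h2, h3]

variable (P Q : I → Fin ρ) (ε ε' : I → ℂ)

/-- the matrices of the group -/
def gs (x₁ x₂ : ℂ) (y : Fin ρ → Fin 2 → ℂ) (t : I → ℂ) (z : Fin m → ℂ) :
    Matrix (BB ρ I m) (BB ρ I m) ℂ :=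
  bd !![x₁, 0; 0, x₂]
    (fun j => b3 x₁ 0 0 x₂ (y j 0) (y j 1) 1)
    (fun e => b4 (x₁ * x₂) (-(x₁ * y (Q e) 1)) (x₂ * y (Q e) 0) x₁ 0 0 x₂ (t e)
      (ε e * y (P e) 0) (ε' e * y (P e) 1) 1)
    (fun i => b2 (x₁ * x₂) (z i) 1)

theorem gsR_eq (x₁ x₂ : ℂ) (y : Fin ρ → Fin 2 → ℂ) (t : I → ℂ) (z : Fin m → ℂ) :
    gsR P Q ε ε' x₁ x₂ y t z = gs P Q ε ε' x₁ x₂ y t z := rfl

theorem gs_mul (x₁ x₂ u₁ u₂ : ℂ) (y v : Fin ρ → Fin 2 → ℂ) (t s : I → ℂ) (z r : Fin m → ℂ) :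
    gs P Q ε ε' x₁ x₂ y t z * gs P Q ε ε' u₁ u₂ v s r =
      gs P Q ε ε' (x₁ * u₁) (x₂ * u₂) (fun j => ![y j 0 * u₁ + v j 0, y j 1 * u₂ + v j 1])
        (fun e => t e * (u₁ * u₂) + (-(ε e * y (P e) 0 * (u₁ * v (Q e) 1)) +
          ε' e * y (P e) 1 * (u₂ * v (Q e) 0)) + s e)
        (fun i => z i * (u₁ * u₂) + r i) := by
  unfold gs
  rw [bd_mul]
  simp only [b3_mul, b4_mul, b2_mul]
  have h0 : (!![x₁, 0; 0, x₂] : M2) * !![u₁, 0; 0, u₂] = !![x₁ * u₁, 0; 0, x₂ * u₂] := by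
    ext a b
    fin_cases a <;> fin_cases b <;> simp [Matrix.mul_apply, Fin.sum_univ_two]
  rw [h0]
  congr 1
  · funext j
    congr 1 <;> simp
  · funext e
    congr 1 <;> (try simp) <;> (try ring)
  · funext i
    congr 1 <;> ring

theorem gs_one : gs P Q ε ε' 1 1 0 0 (0 : Fin m → ℂ) = 1 := by
  rw [← bd_one]
  unfold gs
  congr 1
  · ext a b
    fin_cases a <;> fin_cases b <;> simp
  · funext j
    rw [← b3_one]
    congr 1
  · funext e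
    rw [← b4_one]
    congr 1 <;> simp
  · funext i
    rw [← b2_one]
    congr 1
    simp

/-- the group -/
def GC (ρ m : ℕ) (I : Type) [Fintype I] [DecidableEq I] (P Q : I → Fin ρ) (ε ε' : I → ℂ) :
    Set (Matrix (BB ρ I m) (BB ρ I m) ℂ) :=
  {x | ∃ x₁ x₂ y t z, x₁ ≠ 0 ∧ x₂ ≠ 0 ∧ x = gs P Q ε ε' x₁ x₂ y t z}

theorem GC_mul {x x' : Matrix (BB ρ I m) (BB ρ I m) ℂ} (h : x ∈ GC ρ m I P Q ε ε')
    (h' : x' ∈ GC ρ m I P Q ε ε') : x * x' ∈ GC ρ m I P Q ε ε' := by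
  obtain ⟨x₁, x₂, y, t, z, h1, h2, rfl⟩ := h
  obtain ⟨u₁, u₂, v, s, r, h1', h2', rfl⟩ := h'
  exact ⟨_, _, _, _, _, mul_ne_zero h1 h1', mul_ne_zero h2 h2', gs_mul P Q ε ε' _ _ _ _ _ _ _ _ _ _⟩

/-- the inverse -/
theorem gs_inv {x₁ x₂ : ℂ} (h1 : x₁ ≠ 0) (h2 : x₂ ≠ 0) (y : Fin ρ → Fin 2 → ℂ) (t : I → ℂ)
    (z : Fin m → ℂ) : ∃ v s r, gs P Q ε ε' x₁ x₂ y t z * gs P Q ε ε' x₁⁻¹ x₂⁻¹ v s r = 1 := by
  set v : Fin ρ → Fin 2 → ℂ := fun j => ![-(y j 0 * x₁⁻¹), -(y j 1 * x₂⁻¹)] with hv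
  refine ⟨v, fun e => -(t e * (x₁⁻¹ * x₂⁻¹) + (-(ε e * y (P e) 0 * (x₁⁻¹ * v (Q e) 1)) +
          ε' e * y (P e) 1 * (x₂⁻¹ * v (Q e) 0))), fun i => -(z i * (x₁⁻¹ * x₂⁻¹)), ?_⟩
  rw [gs_mul, ← gs_one P Q ε ε', mul_inv_cancel₀ h1, mul_inv_cancel₀ h2]
  congr 1
  · funext j c
    fin_cases c <;> simp [hv]
  · funext e
    simp only [Pi.zero_apply]
    ring
  · funext i
    simp

theorem GC_inv {x : Matrix (BB ρ I m) (BB ρ I m) ℂ} (h : x ∈ GC ρ m I P Q ε ε') :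
    IsUnit x ∧ x⁻¹ ∈ GC ρ m I P Q ε ε' := by
  obtain ⟨x₁, x₂, y, t, z, h1, h2, rfl⟩ := h
  obtain ⟨v, s, r, h3⟩ := gs_inv P Q ε ε' h1 h2 y t z
  refine ⟨IsUnit.of_mul_eq_one _ h3, ?_⟩
  rw [Matrix.inv_eq_right_inv h3]
  exact ⟨_, _, _, _, _, inv_ne_zero h1, inv_ne_zero h2, rfl⟩

/-- the coordinates of a matrix -/
def hatG {R : Type} [CommRing R] (P Q : I → Fin ρ) (ε ε' : I → R)
    (x : Matrix (BB ρ I m) (BB ρ I m) R) : Matrix (BB ρ I m) (BB ρ I m) R :=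
  gsR P Q ε ε' (x (Sum.inl 0) (Sum.inl 0)) (x (Sum.inl 1) (Sum.inl 1))
    (fun j => ![x (Sum.inr (Sum.inl (2, j))) (Sum.inr (Sum.inl (0, j))),
      x (Sum.inr (Sum.inl (2, j))) (Sum.inr (Sum.inl (1, j)))])
    (fun e => x (Sum.inr (Sum.inr (Sum.inl (3, e)))) (Sum.inr (Sum.inr (Sum.inl (0, e)))))
    (fun i => x (Sum.inr (Sum.inr (Sum.inr (1, i)))) (Sum.inr (Sum.inr (Sum.inr (0, i)))))

theorem hatG_map {R S : Type} [CommRing R] [CommRing S] (f : R →+* S) (ε ε' : I → R)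
    (x : Matrix (BB ρ I m) (BB ρ I m) R) :
    (hatG P Q ε ε' x).map f = hatG P Q (fun e => f (ε e)) (fun e => f (ε' e)) (x.map f) := by
  unfold hatG
  rw [gsR_map]
  congr 1
  funext j c
  fin_cases c <;> simp

theorem hatG_gs (x₁ x₂ : ℂ) (y : Fin ρ → Fin 2 → ℂ) (t : I → ℂ) (z : Fin m → ℂ) :
    hatG P Q ε ε' (gs P Q ε ε' x₁ x₂ y t z) = gs P Q ε ε' x₁ x₂ y t z := by
  rw [← gsR_eq]
  unfold hatG
  have e0 : gsR P Q ε ε' x₁ x₂ y t z (Sum.inl 0) (Sum.inl 0) = x₁ := by simp [gsR]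
  have e1 : gsR P Q ε ε' x₁ x₂ y t z (Sum.inl 1) (Sum.inl 1) = x₂ := by simp [gsR]
  have e2 : (fun j => ![gsR P Q ε ε' x₁ x₂ y t z (Sum.inr (Sum.inl (2, j))) (Sum.inr (Sum.inl (0, j))),
      gsR P Q ε ε' x₁ x₂ y t z (Sum.inr (Sum.inl (2, j))) (Sum.inr (Sum.inl (1, j)))]) = y := by
    funext j c
    fin_cases c <;> simp [gsR]
  have e3 : (fun e => gsR P Q ε ε' x₁ x₂ y t z (Sum.inr (Sum.inr (Sum.inl (3, e))))
      (Sum.inr (Sum.inr (Sum.inl (0, e))))) = t := by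
    funext e
    simp [gsR]
  have e4 : (fun i => gsR P Q ε ε' x₁ x₂ y t z (Sum.inr (Sum.inr (Sum.inr (1, i))))
      (Sum.inr (Sum.inr (Sum.inr (0, i))))) = z := by
    funext e
    simp [gsR]
  rw [e0, e1, e2, e3, e4]

theorem mem_GC {x : Matrix (BB ρ I m) (BB ρ I m) ℂ} (hu : IsUnit x)
    (hx : hatG P Q ε ε' x = x) : x ∈ GC ρ m I P Q ε ε' := by
  have h1 := hx
  unfold hatG at h1
  have h3 : x (Sum.inl 0) (Sum.inl 0) * x (Sum.inl 1) (Sum.inl 1) ≠ 0 := by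
    intro h0
    have h2 : x.det = 0 := by
      rw [← h1]
      unfold gsR
      rw [Matrix.det_fromBlocks_zero₁₂, Matrix.det_fin_two_of, h0]
      ring
    rw [Matrix.isUnit_iff_isUnit_det, h2] at hu
    exact not_isUnit_zero hu
  exact ⟨_, _, _, _, _, left_ne_zero_of_mul h3, right_ne_zero_of_mul h3, h1.symm⟩

/-- the group is algebraic -/
theorem GC_algebraic {K : Subfield ℂ} (hε : ∀ e, ε e ∈ K) (hε' : ∀ e, ε' e ∈ K) :
    ∃ J : Set (MvPolynomial (BB ρ I m × BB ρ I m) K), ∀ x : Matrix (BB ρ I m) (BB ρ I m) ℂ,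
      x ∈ GC ρ m I P Q ε ε' ↔ IsUnit x ∧
        ∀ p ∈ J, MvPolynomial.eval (fun b => x b.1 b.2) (MvPolynomial.map (algebraMap K ℂ) p) = 0 := by
  set gen : Matrix (BB ρ I m) (BB ρ I m) (MvPolynomial (BB ρ I m × BB ρ I m) K) :=
    Matrix.of fun b b' => MvPolynomial.X (b, b') with hgen
  set ek : I → MvPolynomial (BB ρ I m × BB ρ I m) K := fun e => MvPolynomial.C (⟨ε e, hε e⟩ : K)
    with hek
  set ek' : I → MvPolynomial (BB ρ I m × BB ρ I m) K := fun e => MvPolynomial.C (⟨ε' e, hε' e⟩ : K)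
    with hek'
  refine ⟨Set.range fun b : BB ρ I m × BB ρ I m => gen b.1 b.2 - hatG P Q ek ek' gen b.1 b.2,
    fun x => ?_⟩
  set f : MvPolynomial (BB ρ I m × BB ρ I m) K →+* ℂ :=
    (MvPolynomial.eval (fun b : BB ρ I m × BB ρ I m => x b.1 b.2)).comp
      (MvPolynomial.map (algebraMap K ℂ)) with hf
  have hfx : gen.map f = x := by
    ext b b'
    simp [hgen, hf]
  have hfk : (fun e => f (ek e)) = ε := by
    funext e
    simp only [hf, hek, RingHom.comp_apply, MvPolynomial.map_C, MvPolynomial.eval_C]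
    rfl
  have hfk' : (fun e => f (ek' e)) = ε' := by
    funext e
    simp only [hf, hek', RingHom.comp_apply, MvPolynomial.map_C, MvPolynomial.eval_C]
    rfl
  have hhat : (hatG P Q ek ek' gen).map f = hatG P Q ε ε' x := by
    rw [hatG_map, hfx, hfk, hfk']
  have key : (∀ p ∈ Set.range fun b : BB ρ I m × BB ρ I m =>
        gen b.1 b.2 - hatG P Q ek ek' gen b.1 b.2,
      MvPolynomial.eval (fun b => x b.1 b.2) (MvPolynomial.map (algebraMap K ℂ) p) = 0) ↔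
      hatG P Q ε ε' x = x := by
    rw [← hhat]
    constructor
    · intro h
      ext b b'
      have h1 := h _ ⟨(b, b'), rfl⟩
      have h2 : f (gen b b' - hatG P Q ek ek' gen b b') = 0 := h1
      rw [map_sub, sub_eq_zero] at h2
      rw [Matrix.map_apply, ← h2, ← Matrix.map_apply (f := f), hfx]
    · rintro h _ ⟨⟨b, b'⟩, rfl⟩
      change f (gen b b' - hatG P Q ek ek' gen b b') = 0
      rw [map_sub, sub_eq_zero, ← Matrix.map_apply (f := f), ← Matrix.map_apply (f := f), hfx, h]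
  rw [key]
  constructor
  · intro h
    refine ⟨(GC_inv P Q ε ε' h).1, ?_⟩
    obtain ⟨x₁, x₂, y, t, z, _, _, rfl⟩ := h
    exact hatG_gs P Q ε ε' _ _ _ _ _
  · exact fun h => mem_GC P Q ε ε' h.1 h.2

theorem GC_sub {K : Subfield ℂ} (hε : ∀ e, ε e ∈ K) (hε' : ∀ e, ε' e ∈ K) :
    IsSubtorsor K (GC ρ m I P Q ε ε') := by
  rw [← subT_iff]
  exact ⟨fun x hx y hy z hz => GC_mul P Q ε ε' (GC_mul P Q ε ε' hx (GC_inv P Q ε ε' hy).2) hz,
    GC_algebraic P Q ε ε' hε hε'⟩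

end Pool.Agent.U725.CMG
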