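import Pool.Agent.U725.MG.CMGrp

/-!
# The Lie algebra of the group
-/

set_option autoImplicit false
set_option linter.unusedSectionVars false

open Matrix

namespace Pool.Agent.U725.CMG

open Pool.Agent.TH127.PT Pool.Agent.TH119.MX Pool.Agent.TH119.DR Pool.Agent.Y123.ST
  Pool.Agent.U725.OM Pool.Agent.U725.MT Pool.Agent.U725.MG

variable {ρ m : ℕ} {I : Type} [Fintype I] [DecidableEq I]

/-- the filtration -/
def wtC : BB ρ I m → ℕ := Sum.elim (fun _ => 1) (Sum.elim (fun p => ![1, 1, 2] p.1)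
  (Sum.elim (fun p => ![0, 1, 1, 2] p.1) (fun p => ![0, 2] p.1)))

/-- the weights -/
def eC : BB ρ I m → Fin 2 → ℤ := Sum.elim (fun a => ![![1, 0], ![0, 1]] a)
  (Sum.elim (fun p => ![![1, 0], ![0, 1], ![0, 0]] p.1)
    (Sum.elim (fun p => ![![1, 1], ![1, 0], ![0, 1], ![0, 0]] p.1)
      (fun p => ![![1, 1], ![0, 0]] p.1)))

variable (P Q : I → Fin ρ) (ε ε' : I → ℂ)

/-- the matrices of the Lie algebra -/
def lmat (v : Fin ρ → Fin 2 → ℂ) (s : I → ℂ) (r : Fin m → ℂ) :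
    Matrix (BB ρ I m) (BB ρ I m) ℂ :=
  bd 0 (fun j => b3 0 0 0 0 (v j 0) (v j 1) 0)
    (fun e => b4 0 (-(v (Q e) 1)) (v (Q e) 0) 0 0 0 0 (s e) (ε e * v (P e) 0) (ε' e * v (P e) 1) 0)
    (fun i => b2 0 (r i) 0)

theorem lmat_add (v v' : Fin ρ → Fin 2 → ℂ) (s s' : I → ℂ) (r r' : Fin m → ℂ) :
    lmat P Q ε ε' v s r + lmat P Q ε ε' v' s' r' = lmat P Q ε ε' (v + v') (s + s') (r + r') := by
  unfold lmat
  rw [bd_add]
  simp only [b3_add, b4_add, b2_add, Pi.add_apply, add_zero]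
  congr 1
  funext e
  congr 1 <;> ring

theorem lmat_smul (a : ℂ) (v : Fin ρ → Fin 2 → ℂ) (s : I → ℂ) (r : Fin m → ℂ) :
    a • lmat P Q ε ε' v s r = lmat P Q ε ε' (a • v) (a • s) (a • r) := by
  unfold lmat
  rw [bd_smul]
  simp only [b3_smul, b4_smul, b2_smul, Pi.smul_apply, smul_eq_mul, mul_zero, smul_zero]
  congr 1
  funext e
  congr 1 <;> ring

theorem lmat_mul (v v' : Fin ρ → Fin 2 → ℂ) (s s' : I → ℂ) (r r' : Fin m → ℂ) :
    lmat P Q ε ε' v s r * lmat P Q ε ε' v' s' r' = lmat P Q ε ε' 0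
      (fun e => -(ε e * v (P e) 0 * v' (Q e) 1) + ε' e * v (P e) 1 * v' (Q e) 0) 0 := by
  unfold lmat
  rw [bd_mul]
  simp only [b3_mul, b4_mul, b2_mul, Matrix.mul_zero]
  congr 1
  · funext j
    congr 1 <;> simp
  · funext e
    congr 1 <;> simp
  · funext i
    congr 1 <;> simp

theorem lmat_zero : lmat P Q ε ε' (0 : Fin ρ → Fin 2 → ℂ) 0 (0 : Fin m → ℂ) = 0 := by
  have := lmat_smul P Q ε ε' (0 : ℂ) 0 0 (0 : Fin m → ℂ)
  rw [zero_smul, smul_zero, smul_zero, smul_zero] at this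
  exact this.symm

theorem lmat_cube (v : Fin ρ → Fin 2 → ℂ) (s : I → ℂ) (r : Fin m → ℂ) :
    lmat P Q ε ε' v s r ^ 3 = 0 := by
  rw [pow_succ', sq, lmat_mul, lmat_mul, ← lmat_zero P Q ε ε']
  congr 1
  funext e
  simp

theorem exp_lmat (v : Fin ρ → Fin 2 → ℂ) (s : I → ℂ) (r : Fin m → ℂ) :
    IsNilpotent.exp (lmat P Q ε ε' v s r) = gs P Q ε ε' 1 1 v (fun e => s e + (1 / 2) *
      (-(ε e * v (P e) 0 * v (Q e) 1) + ε' e * v (P e) 1 * v (Q e) 0)) r := by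
  rw [IsNilpotent.exp_eq_sum (lmat_cube P Q ε ε' v s r), Finset.sum_range_succ,
    Finset.sum_range_succ, Finset.sum_range_one, pow_zero, pow_one, sq, lmat_mul]
  have h1 : ∀ (q : ℚ) (X : Matrix (BB ρ I m) (BB ρ I m) ℂ), q • X = (q : ℂ) • X := by
    intro q X
    ext i j
    simp [Rat.smul_def]
  simp only [h1, Nat.factorial]
  push_cast
  rw [inv_one, one_smul, one_smul, lmat_smul, add_assoc, lmat_add, ← gs_one P Q ε ε']
  unfold gs lmat
  rw [bd_add]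
  simp only [b3_add, b4_add, b2_add]
  congr 1
  · ext a b
    fin_cases a <;> fin_cases b <;> simp
  · funext j
    congr 1 <;> simp
  · funext e
    congr 1 <;> (try simp) <;> (try ring)
  · funext i
    congr 1 <;> simp

theorem gs_eq_exp (y : Fin ρ → Fin 2 → ℂ) (t : I → ℂ) (z : Fin m → ℂ) :
    gs P Q ε ε' 1 1 y t z = IsNilpotent.exp (lmat P Q ε ε' y (fun e => t e - (1 / 2) *
      (-(ε e * y (P e) 0 * y (Q e) 1) + ε' e * y (P e) 1 * y (Q e) 0)) z) := by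
  rw [exp_lmat]
  congr 1
  funext e
  ring

/-- strictly triangular, with the characters of the entries -/
theorem lmat_entry {v : Fin ρ → Fin 2 → ℂ} {s : I → ℂ} {r : Fin m → ℂ} {b b' : BB ρ I m}
    (h : lmat P Q ε ε' v s r b b' ≠ 0) : wtC b' + 1 ≤ wtC b ∧
    ((eC b - eC b' = ![-1, 0] ∧ lmat P Q ε ε' (fun j => ![v j 0, 0]) 0 0 b b' ≠ 0) ∨
      (eC b - eC b' = ![0, -1] ∧ lmat P Q ε ε' (fun j => ![0, v j 1]) 0 0 b b' ≠ 0) ∨
      (eC b - eC b' = ![-1, -1] ∧ (lmat P Q ε ε' 0 s 0 b b' ≠ 0 ∨ lmat P Q ε ε' 0 0 r b b' ≠ 0))) := by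
  rcases b with a | ⟨a, j⟩ | ⟨a, i⟩ | ⟨a, i⟩ <;> rcases b' with a' | ⟨a', j'⟩ | ⟨a', i'⟩ | ⟨a', i'⟩
  all_goals
    try (simp [lmat, bd] at h; done)
  · simp only [lmat, bd, fromBlocks_apply₂₂, fromBlocks_apply₁₁, blockDiagonal_apply, b3] at h ⊢
    split_ifs at h with hj
    · subst hj
      fin_cases a <;> fin_cases a' <;> simp at h <;> simp [wtC, eC, h] <;>
        (funext c; fin_cases c; rfl)
    · exact absurd rfl h
  · simp only [lmat, bd, fromBlocks_apply₂₂, fromBlocks_apply₁₁, blockDiagonal_apply, b4] at h ⊢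
    split_ifs at h with hj
    · subst hj
      fin_cases a <;> fin_cases a' <;> simp at h <;> simp [wtC, eC, h] <;>
        (funext c; fin_cases c; rfl)
    · exact absurd rfl h
  · simp only [lmat, bd, fromBlocks_apply₂₂, fromBlocks_apply₁₁, blockDiagonal_apply, b2] at h ⊢
    split_ifs at h with hj
    · subst hj
      fin_cases a <;> fin_cases a' <;> simp at h <;> simp [wtC, eC, h] <;>
        (funext c; fin_cases c; rfl)
    · exact absurd rfl h

end Pool.Agent.U725.CMG
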