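import Pool.Agent.U725.MG.CMLie

/-!
# The criterion for the group
-/

set_option autoImplicit false
set_option linter.unusedSectionVars false

open Matrix

namespace Pool.Agent.U725.CMG

open Pool.Agent.TH127.PT Pool.Agent.TH119.MX Pool.Agent.TH119.DR Pool.Agent.Y123.ST
  Pool.Agent.U725.OM Pool.Agent.U725.MT Pool.Agent.U725.MG

variable {ρ m : ℕ} {I : Type} [Fintype I] [DecidableEq I] (P Q : I → Fin ρ) (ε ε' : I → ℂ)

theorem Fk_lmat (v : Fin ρ → Fin 2 → ℂ) (s : I → ℂ) (r : Fin m → ℂ) :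
    Fk wtC 1 (lmat P Q ε ε' v s r) := fun _ _ h => (lmat_entry P Q ε ε' h).1

theorem mon_two (l : Fin 2 → ℂ) (χ : Fin 2 → ℤ) : mon l χ = l 0 ^ χ 0 * l 1 ^ χ 1 := by
  unfold mon
  rw [Fin.prod_univ_two]

theorem dt_eC (l : Fin 2 → ℂ) : dt eC l = gs P Q ε ε' (l 0) (l 1) 0 0 (0 : Fin m → ℂ) := by
  ext b b'
  rw [dt, Matrix.diagonal_apply, mon_two]
  rcases b with a | ⟨a, j⟩ | ⟨a, i⟩ | ⟨a, i⟩ <;> rcases b' with a' | ⟨a', j'⟩ | ⟨a', i'⟩ | ⟨a', i'⟩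
  all_goals
    try (simp [gs, bd]; done)
  · fin_cases a <;> fin_cases a' <;> simp [gs, bd, eC]
  · by_cases hj : j = j'
    · subst hj
      fin_cases a <;> fin_cases a' <;> simp [gs, bd, eC, b3]
    · simp [gs, bd, hj, blockDiagonal_apply]
  · by_cases hj : i = i'
    · subst hj
      fin_cases a <;> fin_cases a' <;> simp [gs, bd, eC, b4]
    · simp [gs, bd, hj, blockDiagonal_apply]
  · by_cases hj : i = i'
    · subst hj
      fin_cases a <;> fin_cases a' <;> simp [gs, bd, eC, b2]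
    · simp [gs, bd, hj, blockDiagonal_apply]

variable {P Q ε ε'} (hε : ∀ e, ε e ∈ QB) (hε' : ∀ e, ε' e ∈ QB)

theorem gs_factor {x₁ x₂ : ℂ} (h1 : x₁ ≠ 0) (h2 : x₂ ≠ 0) (y : Fin ρ → Fin 2 → ℂ) (t : I → ℂ)
    (z : Fin m → ℂ) : gs P Q ε ε' x₁ x₂ y t z =
      gs P Q ε ε' 1 1 (fun j => ![y j 0 / x₁, y j 1 / x₂]) (fun e => t e / (x₁ * x₂))
        (fun i => z i / (x₁ * x₂)) * gs P Q ε ε' x₁ x₂ 0 0 0 := by
  rw [gs_mul]
  congr 1
  · rw [one_mul]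
  · rw [one_mul]
  · funext j c
    fin_cases c
    · simp [h1]
    · simp [h2]
  · funext e
    simp only [Pi.zero_apply]
    field_simp
    ring
  · funext i
    simp only [Pi.zero_apply]
    field_simp
    ring

include hε hε' in
theorem cmMg : Mg QB (wtC : BB ρ I m → ℕ) eC (GC ρ m I P Q ε ε') where
  hK := fun x hx => mem_QB.1 hx
  hG := GC_sub P Q ε ε' hε hε'
  weight := fun l hl => ⟨l 0, l 1, 0, 0, 0, hl 0, hl 1, dt_eC P Q ε ε' l⟩
  tri := by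
    rintro x ⟨x₁, x₂, y, t, z, h1, h2, rfl⟩
    obtain ⟨M, hM, hM2⟩ : ∃ M, Fk wtC 1 M ∧ IsNilpotent.exp M =
        gs P Q ε ε' 1 1 (fun j => ![y j 0 / x₁, y j 1 / x₂]) (fun e => t e / (x₁ * x₂))
        (fun i => z i / (x₁ * x₂)) := ⟨_, Fk_lmat P Q ε ε' _ _ _, (gs_eq_exp P Q ε ε' _ _ _).symm⟩
    refine ⟨![x₁, x₂], M, fun r => ?_, hM, ?_⟩
    · fin_cases r
      · exact h1
      · exact h2
    · rw [gs_factor h1 h2, hM2, dt_eC P Q ε ε']
      rfl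

theorem exp_diag {B : Type} [Fintype B] [DecidableEq B] {wt : B → ℕ} {X : Matrix B B ℂ}
    (hX : Fk wt 1 X) (b : B) : IsNilpotent.exp X b b = 1 := by
  have h1 := exp_diff (wt := wt) le_rfl Fk.zero hX
  rw [zero_add, IsNilpotent.exp_zero] at h1
  have h0 : X b b = 0 := by
    by_contra h
    have := hX b b h
    omega
  by_contra hne
  have h2 : (IsNilpotent.exp X - 1 - X) b b ≠ 0 := by
    rw [Matrix.sub_apply, Matrix.sub_apply, Matrix.one_apply_eq, h0, sub_zero]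
    exact sub_ne_zero.2 hne
  have := h1 b b h2
  omega

include hε hε' in
theorem eq_lmat {X : Matrix (BB ρ I m) (BB ρ I m) ℂ} (hX : fl X ∈ UU wtC (GC ρ m I P Q ε ε')) :
    ∃ v s r, X = lmat P Q ε ε' v s r := by
  have h := cmMg (m := m) (P := P) (Q := Q) hε hε'
  obtain ⟨x₁, x₂, y, t, z, h1, h2, h3⟩ := h.exp_mem hX
  have hd := exp_diag hX.1
  have e1 : x₁ = 1 := by
    have h4 := hd (Sum.inl 0)
    have h5 : gs P Q ε ε' x₁ x₂ y t z (Sum.inl 0) (Sum.inl 0) = x₁ := by simp [gs, bd]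
    change IsNilpotent.exp X _ _ = 1 at h4
    rwa [h3, h5] at h4
  have e2 : x₂ = 1 := by
    have h4 := hd (Sum.inl 1)
    have h5 : gs P Q ε ε' x₁ x₂ y t z (Sum.inl 1) (Sum.inl 1) = x₂ := by simp [gs, bd]
    change IsNilpotent.exp X _ _ = 1 at h4
    rwa [h3, h5] at h4
  subst e1 e2
  rw [gs_eq_exp] at h3
  exact ⟨_, _, _, exp_inj hX.1 (Fk_lmat P Q ε ε' _ _ _) h3⟩

include hε hε' in
theorem lmat_mem (v : Fin ρ → Fin 2 → ℂ) (s : I → ℂ) (r : Fin m → ℂ) :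
    fl (lmat P Q ε ε' v s r) ∈ UU wtC (GC ρ m I P Q ε ε') := by
  refine (cmMg (m := m) (P := P) (Q := Q) hε hε').log_mem (Fk_lmat P Q ε ε' _ _ _) ?_
  rw [exp_lmat]
  exact ⟨1, 1, _, _, _, one_ne_zero, one_ne_zero, rfl⟩

end Pool.Agent.U725.CMG
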