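import Pool.Agent.U725.MG.CMTrans

/-!
# Complex multiplication: stability
-/

set_option autoImplicit false
set_option linter.unusedSectionVars false

open Matrix

namespace Pool.Agent.U725.CMG

open Pool.Agent.TH127.PT Pool.Agent.Y123.ST Pool.Agent.U725.OM Pool.Agent.U725.MT Pool.Agent.U725.MG

variable {ρ m : ℕ} {I : Type} [Fintype I] [DecidableEq I] {K : Subfield ℂ}

variable {P Q : I → Fin ρ} {ε ε' δ : I → ℂ} {τ θ κ k : ℂ}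

/-- **Stability under the unipotent elements.** -/
theorem cm_stab (hKQ : K ≤ QB) (h : θ ≠ τ) (hk0 : k ≠ 0) (hδ : ∀ e, δ e = κ * (ε e - ε' e))
    (hτ : τ ∈ QB) (hθ : θ ∈ QB) (hκ : κ ∈ QB) (hk : k ∈ QB) (hε : ∀ e, ε e ∈ QB)
    (hε' : ∀ e, ε' e ∈ QB)
    (hI : ∀ c : I → ℂ, (∀ i j, ∑ e, c e * ((if P e = i ∧ Q e = j then ε e else 0) +
      (if P e = j ∧ Q e = i then ε' e else 0)) = 0) → c = 0)
    {x₁ x₂ l₀ : ℂ} (hdet : (θ - τ) * (x₁ * x₂) = k * l₀) (h1 : Transcendental ℚ x₁)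
    (h2 : Transcendental ℚ x₂)
    (h12 : Transcendental ℚ (x₁ * x₂)) (h3 : Transcendental ℚ (x₁ / x₂))
    {Y₀ : Fin ρ → Fin 2 → ℂ} {t₀ : I → ℂ} {z₀ : Fin m → ℂ}
    (hY0 : ∀ u : Fin ρ → ℂ, (∀ j, u j ∈ QB) → ∀ a ∈ QB, ∀ β ∈ QB,
      ∑ j, u j * Y₀ j 0 = a * x₁ + β → u = 0)
    (hY1 : ∀ u : Fin ρ → ℂ, (∀ j, u j ∈ QB) → ∀ a ∈ QB, ∀ β ∈ QB,
      ∑ j, u j * (Y₀ j 1 - κ * Y₀ j 0) = a * x₂ + β → u = 0)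
    (hz : ∀ u : Fin m → ℂ, (∀ j, u j ∈ QB) → ∀ a ∈ QB, ∀ β ∈ QB,
      ∑ j, u j * z₀ j = a * (x₁ * x₂) + β → u = 0)
    (T : Set (Matrix (BB ρ I m) (BB ρ I m) ℂ)) (hT : IsSubtorsor K T)
    (hc : shp P Q ε ε' δ (Xc τ θ κ x₁ x₂) l₀ Y₀ t₀ z₀ ∈ T) (X : M2) (hX : X ∈ MC τ θ κ) (l : ℂ)
    (hl : X.det = k * l) (Y : Fin ρ → Fin 2 → ℂ) (t : I → ℂ) (z : Fin m → ℂ)
    (Y' : Fin ρ → Fin 2 → ℂ) (t' : I → ℂ) (z' : Fin m → ℂ)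
    (hx : shp P Q ε ε' δ X l Y t z ∈ T) : shp P Q ε ε' δ X l Y' t' z' ∈ T := by
  have h' : θ - τ ≠ 0 := sub_ne_zero.2 h
  obtain ⟨T', hT', hiff⟩ := exists_T' (ρ := ρ) (I := I) (m := m) hKQ h hk0 hτ hθ hκ hk hT
  obtain ⟨u₁, u₂, hu1, hu2, rfl⟩ := hX
  rw [Xc_det] at hl
  have hc1 := (hiff _).1 hc
  rw [key_eq h hδ hdet] at hc1
  have hx1 := (hiff _).1 hx
  rw [key_eq h hδ hl] at hx1
  have hU : UU wtC (GC ρ m I P Q ε ε') ≤ LL T' := cm_crit hε hε' hI h1 h2 h12 h3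
    (Y := fun j => ![Y₀ j 0, Y₀ j 1 - κ * Y₀ j 0]) hY0 hY1 hz hT' hc1
  rw [hiff, key_eq h hδ hl]
  exact cm_stable hε hε' hT' hU hx1 _ _ _

end Pool.Agent.U725.CMG
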