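import Pool.Agent.U725.MG.Shape

/-!
# Complex multiplication: diagonalization of the period matrix
-/

set_option autoImplicit false
set_option linter.unusedSectionVars false

open Matrix MvPolynomial

namespace Pool.Agent.U725.CMG

open Pool.Agent.TH127.PT Pool.Agent.Y123.ST Pool.Agent.U725.OM Pool.Agent.U725.MT Pool.Agent.U725.MG

variable {ρ m : ℕ} {I : Type} [Fintype I] [DecidableEq I] {K : Subfield ℂ}

/-- the base change of the Betti realization -/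
noncomputable def gm (τ θ : ℂ) : M2 := !![θ / (θ - τ), -1 / (θ - τ); -τ / (θ - τ), 1 / (θ - τ)]

/-- its inverse -/
def vm (τ θ : ℂ) : M2 := !![1, 1; τ, θ]

/-- the base change of the de Rham realization -/
def um' (κ : ℂ) : M2 := !![1, -κ; 0, 1]

/-- the period matrices of the curve -/
def Xc (τ θ κ x₁ x₂ : ℂ) : M2 := !![x₁, κ * x₁ + x₂; τ * x₁, τ * κ * x₁ + θ * x₂]

theorem gm_vm {τ θ : ℂ} (h : θ ≠ τ) : gm τ θ * vm τ θ = 1 := by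
  have h' : θ - τ ≠ 0 := sub_ne_zero.2 h
  ext a b
  fin_cases a <;> fin_cases b <;> simp [gm, vm, Matrix.mul_apply, Fin.sum_univ_two] <;>
    field_simp <;> ring

theorem um_inv (κ : ℂ) : um' κ * um' (-κ) = 1 := by
  ext a b
  fin_cases a <;> fin_cases b <;> simp [um', Matrix.mul_apply, Fin.sum_univ_two]

theorem Xc_eq {τ θ : ℂ} (h : θ ≠ τ) (κ x₁ x₂ : ℂ) :
    gm τ θ * Xc τ θ κ x₁ x₂ * um' κ = !![x₁, 0; 0, x₂] := by
  have h' : θ - τ ≠ 0 := sub_ne_zero.2 h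
  ext a b
  fin_cases a <;> fin_cases b <;> simp [gm, Xc, um', Matrix.mul_apply, Fin.sum_univ_two] <;>
    field_simp <;> ring

theorem Xc_det (τ θ κ x₁ x₂ : ℂ) : (Xc τ θ κ x₁ x₂).det = (θ - τ) * (x₁ * x₂) := by
  rw [Xc, Matrix.det_fin_two_of]
  ring

variable {P Q : I → Fin ρ} {ε ε' δ : I → ℂ} {τ θ κ k : ℂ}

theorem key_eq (h : θ ≠ τ) (hδ : ∀ e, δ e = κ * (ε e - ε' e)) {x₁ x₂ l : ℂ}
    (hl : (θ - τ) * (x₁ * x₂) = k * l) (Y : Fin ρ → Fin 2 → ℂ) (t : I → ℂ) (z : Fin m → ℂ) :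
    ps ρ I m (gm τ θ) (k / (θ - τ)) * shp P Q ε ε' δ (Xc τ θ κ x₁ x₂) l Y t z *
      ps ρ I m (um' κ) 1 =
      gs P Q ε ε' x₁ x₂ (fun j => ![Y j 0, Y j 1 - κ * Y j 0]) t z := by
  have h' : θ - τ ≠ 0 := sub_ne_zero.2 h
  have h2 := Xc_eq h κ x₁ x₂
  have hl' : k / (θ - τ) * l = x₁ * x₂ := by
    field_simp
    linear_combination -hl
  unfold ps shp gs
  rw [bd_mul, bd_mul, h2]
  simp only [b3_mul, b4_mul, b2_mul, hl']
  congr 1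
  · funext j
    congr 1 <;> simp [gm, Xc, um'] <;> (try field_simp) <;> (try ring)
  · funext e
    rw [hδ e]
    congr 1 <;> simp [gm, Xc, um'] <;> (try field_simp) <;> (try ring)
  · funext i
    congr 1 <;> simp

theorem ps_K {X : M2} {l : ℂ} (hX : ∀ a b, X a b ∈ K) (hl : l ∈ K) (b b' : BB ρ I m) :
    ps ρ I m X l b b' ∈ K := by
  have h0 : (0 : ℂ) ∈ K := K.zero_mem
  rcases b with a | ⟨a, j⟩ | ⟨a, i⟩ | ⟨a, i⟩ <;> rcases b' with a' | ⟨a', j'⟩ | ⟨a', i'⟩ | ⟨a', i'⟩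
  all_goals
    try (simp [ps, bd]; done)
  · exact hX a a'
  · simp only [ps, bd, fromBlocks_apply₂₂, fromBlocks_apply₁₁, blockDiagonal_apply, b3]
    split_ifs
    · fin_cases a <;> fin_cases a' <;> simp [hX]
    · exact h0
  · simp only [ps, bd, fromBlocks_apply₂₂, fromBlocks_apply₁₁, blockDiagonal_apply, b4]
    split_ifs
    · fin_cases a <;> fin_cases a' <;> simp [hX, hl]
    · exact h0
  · simp only [ps, bd, fromBlocks_apply₂₂, blockDiagonal_apply, b2]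
    split_ifs
    · fin_cases a <;> fin_cases a' <;> simp [hl]
    · exact h0

/-- diagonal matrices -/
theorem D2_sub : IsSubtorsor K {X : M2 | ∃ x₁ x₂ : ℂ, x₁ ≠ 0 ∧ x₂ ≠ 0 ∧ X = !![x₁, 0; 0, x₂]} := by
  rw [← subT_iff]
  refine ⟨?_, {MvPolynomial.X (0, 1), MvPolynomial.X (1, 0)}, fun x => ?_⟩
  · rintro _ ⟨x₁, x₂, h1, h2, rfl⟩ _ ⟨y₁, y₂, h3, h4, rfl⟩ _ ⟨z₁, z₂, h5, h6, rfl⟩
    refine ⟨x₁ * y₁⁻¹ * z₁, x₂ * y₂⁻¹ * z₂, mul_ne_zero (mul_ne_zero h1 (inv_ne_zero h3)) h5,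
      mul_ne_zero (mul_ne_zero h2 (inv_ne_zero h4)) h6, ?_⟩
    have h7 : (!![y₁, 0; 0, y₂] : M2)⁻¹ = !![y₁⁻¹, 0; 0, y₂⁻¹] := by
      refine Matrix.inv_eq_right_inv ?_
      ext a b
      fin_cases a <;> fin_cases b <;> simp [Matrix.mul_apply, Fin.sum_univ_two, h3, h4]
    rw [h7]
    ext a b
    fin_cases a <;> fin_cases b <;> simp [Matrix.mul_apply, Fin.sum_univ_two]
  · constructor
    · rintro ⟨x₁, x₂, h1, h2, rfl⟩
      refine ⟨?_, ?_⟩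
      · rw [Matrix.isUnit_iff_isUnit_det, Matrix.det_fin_two_of, isUnit_iff_ne_zero]
        simp [h1, h2]
      · rintro p (rfl | rfl) <;> simp
    · rintro ⟨h1, h2⟩
      have e1 := h2 _ (Or.inl rfl)
      have e2 := h2 _ (Or.inr rfl)
      rw [MvPolynomial.map_X, eval_X] at e1 e2
      change x 0 1 = 0 at e1
      change x 1 0 = 0 at e2
      have h3 := det_ne h1
      rw [Matrix.det_fin_two, e1, e2] at h3
      have h4 : x 0 0 * x 1 1 ≠ 0 := by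
        intro h0
        apply h3
        rw [h0]
        ring
      refine ⟨x 0 0, x 1 1, left_ne_zero_of_mul h4, right_ne_zero_of_mul h4, ?_⟩
      ext a b
      fin_cases a <;> fin_cases b
      · rfl
      · exact e1
      · exact e2
      · rfl

theorem unit_of_mul {N : Type} [Fintype N] [DecidableEq N] {A B : Matrix N N ℂ} (h : A * B = 1) :
    IsUnit A ∧ IsUnit B :=
  ⟨IsUnit.of_mul_eq_one _ h, IsUnit.of_mul_eq_one_right _ h⟩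

theorem gm_K (hτ : τ ∈ K) (hθ : θ ∈ K) (a b : Fin 2) : gm τ θ a b ∈ K := by
  have h1 : θ - τ ∈ K := K.sub_mem hθ hτ
  fin_cases a <;> fin_cases b
  · exact K.div_mem hθ h1
  · exact K.div_mem (K.neg_mem K.one_mem) h1
  · exact K.div_mem (K.neg_mem hτ) h1
  · exact K.div_mem K.one_mem h1

theorem vm_K (hτ : τ ∈ K) (hθ : θ ∈ K) (a b : Fin 2) : vm τ θ a b ∈ K := by
  fin_cases a <;> fin_cases b
  · exact K.one_mem
  · exact K.one_mem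
  · exact hτ
  · exact hθ

theorem um_K (hκ : κ ∈ K) (a b : Fin 2) : um' κ a b ∈ K := by
  fin_cases a <;> fin_cases b
  · exact K.one_mem
  · exact K.neg_mem hκ
  · exact K.zero_mem
  · exact K.one_mem

/-- the period matrices of the curve -/
def MC (τ θ κ : ℂ) : Set M2 := {X | ∃ x₁ x₂ : ℂ, x₁ ≠ 0 ∧ x₂ ≠ 0 ∧ X = Xc τ θ κ x₁ x₂}

theorem MC_eq (h : θ ≠ τ) : MC τ θ κ = {X | gm τ θ * X * um' κ ∈ {X : M2 | ∃ x₁ x₂ : ℂ,
    x₁ ≠ 0 ∧ x₂ ≠ 0 ∧ X = !![x₁, 0; 0, x₂]}} := by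
  ext X
  constructor
  · rintro ⟨x₁, x₂, h1, h2, rfl⟩
    exact ⟨x₁, x₂, h1, h2, Xc_eq h κ x₁ x₂⟩
  · rintro ⟨x₁, x₂, h1, h2, h3⟩
    refine ⟨x₁, x₂, h1, h2, ?_⟩
    rw [← Xc_eq h κ x₁ x₂] at h3
    have e1 := (Matrix.isUnit_iff_isUnit_det _).1 (unit_of_mul (gm_vm h)).1
    have e2 := (Matrix.isUnit_iff_isUnit_det _).1 (unit_of_mul (um_inv κ)).1
    have e3 := congrArg (fun A => (gm τ θ)⁻¹ * A * (um' κ)⁻¹) h3
    simp only [Matrix.mul_assoc] at e3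
    rw [Matrix.mul_nonsing_inv _ e2, Matrix.mul_one, Matrix.mul_one, ← Matrix.mul_assoc,
      ← Matrix.mul_assoc, Matrix.nonsing_inv_mul _ e1, Matrix.one_mul, Matrix.one_mul] at e3
    exact e3

theorem MC_sub (h : θ ≠ τ) (hτ : τ ∈ K) (hθ : θ ∈ K) (hκ : κ ∈ K) : IsSubtorsor K (MC τ θ κ) := by
  rw [MC_eq h]
  exact transport D2_sub (gm_K hτ hθ) (um_K hκ) (unit_of_mul (gm_vm h)).1
    (unit_of_mul (um_inv κ)).1

section Big

variable (h : θ ≠ τ) (hk0 : k ≠ 0)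

include h hk0

theorem ps_gm_inv : ps ρ I m (gm τ θ) (k / (θ - τ)) * ps ρ I m (vm τ θ) ((θ - τ) / k) = 1 := by
  have h' : θ - τ ≠ 0 := sub_ne_zero.2 h
  rw [ps_mul, gm_vm h, ← ps_one]
  congr 1
  field_simp

omit h hk0 in
theorem ps_um_inv : ps ρ I m (um' κ) 1 * ps ρ I m (um' (-κ)) 1 = 1 := by
  rw [ps_mul, um_inv, ← ps_one]
  congr 1
  ring

theorem ps_cancel {A B : Matrix (BB ρ I m) (BB ρ I m) ℂ}
    (hAB : ps ρ I m (gm τ θ) (k / (θ - τ)) * A * ps ρ I m (um' κ) 1 =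
      ps ρ I m (gm τ θ) (k / (θ - τ)) * B * ps ρ I m (um' κ) 1) : A = B := by
  have e1 := (Matrix.isUnit_iff_isUnit_det _).1
    (unit_of_mul (ps_gm_inv (ρ := ρ) (I := I) (m := m) h hk0)).1
  have e2 := (Matrix.isUnit_iff_isUnit_det _).1
    (unit_of_mul (ps_um_inv (ρ := ρ) (I := I) (m := m) (κ := κ))).1
  have e3 := congrArg (fun A => (ps ρ I m (gm τ θ) (k / (θ - τ)))⁻¹ * A * (ps ρ I m (um' κ) 1)⁻¹) hAB
  simp only [Matrix.mul_assoc] at e3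
  rw [Matrix.mul_nonsing_inv _ e2, Matrix.mul_one, Matrix.mul_one, ← Matrix.mul_assoc,
    ← Matrix.mul_assoc, Matrix.nonsing_inv_mul _ e1, Matrix.one_mul, Matrix.one_mul] at e3
  exact e3

theorem MM_sub (hδ : ∀ e, δ e = κ * (ε e - ε' e)) (hτ : τ ∈ K) (hθ : θ ∈ K) (hκ : κ ∈ K)
    (hk : k ∈ K) (hε : ∀ e, ε e ∈ K) (hε' : ∀ e, ε' e ∈ K) :
    IsSubtorsor K {x : Matrix (BB ρ I m) (BB ρ I m) ℂ | ∃ X ∈ MC τ θ κ, ∃ l Y t z,
      X.det = k * l ∧ x = shp P Q ε ε' δ X l Y t z} := by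
  have h' : θ - τ ≠ 0 := sub_ne_zero.2 h
  have h1 := transport (CMG.GC_sub (ρ := ρ) (m := m) P Q ε ε' hε hε')
    (ps_K (ρ := ρ) (I := I) (m := m) (gm_K hτ hθ) (K.div_mem hk (K.sub_mem hθ hτ)))
    (ps_K (um_K hκ) K.one_mem) (unit_of_mul (ps_gm_inv h hk0)).1 (unit_of_mul ps_um_inv).1
  convert h1 using 1
  ext x
  constructor
  · rintro ⟨_, ⟨x₁, x₂, hx1, hx2, rfl⟩, l, Y, t, z, h2, rfl⟩
    rw [Xc_det] at h2
    exact ⟨x₁, x₂, _, _, _, hx1, hx2, key_eq h hδ h2 Y t z⟩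
  · rintro ⟨x₁, x₂, y, t, z, hx1, hx2, h2⟩
    have h3 : (θ - τ) * (x₁ * x₂) = k * ((θ - τ) * (x₁ * x₂) / k) := by field_simp
    refine ⟨_, ⟨x₁, x₂, hx1, hx2, rfl⟩, (θ - τ) * (x₁ * x₂) / k,
      fun j => ![y j 0, y j 1 + κ * y j 0], t, z, ?_, ?_⟩
    · rw [Xc_det]
      exact h3
    · refine ps_cancel h hk0 (κ := κ) ?_
      rw [h2, key_eq h hδ h3]
      congr 1
      funext j c
      fin_cases c
      · rfl
      · simp

end Big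

theorem exists_tr {N : Type} [Fintype N] [DecidableEq N] {T : Set (Matrix N N ℂ)}
    (hT : IsSubtorsor K T) {A A' U U' : Matrix N N ℂ} (hA : A * A' = 1) (hU : U * U' = 1)
    (hA' : ∀ i j, A' i j ∈ K) (hU' : ∀ i j, U' i j ∈ K) : ∃ T' : Set (Matrix N N ℂ),
      IsSubtorsor K T' ∧ ∀ x, x ∈ T ↔ A * x * U ∈ T' := by
  refine ⟨_, transport hT hA' hU' (unit_of_mul hA).2 (unit_of_mul hU).2, fun x => ?_⟩
  have e1 := mul_eq_one_comm.1 hA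
  have e3 : A' * (A * x * U) * U' = (A' * A) * x * (U * U') := by
    simp only [Matrix.mul_assoc]
  rw [e1, hU, Matrix.one_mul, Matrix.mul_one] at e3
  rw [Set.mem_setOf_eq, e3]

theorem exists_T' (hKQ : K ≤ QB) (h : θ ≠ τ) (hk0 : k ≠ 0) (hτ : τ ∈ QB) (hθ : θ ∈ QB)
    (hκ : κ ∈ QB) (hk : k ∈ QB) {T : Set (Matrix (BB ρ I m) (BB ρ I m) ℂ)}
    (hT : IsSubtorsor K T) : ∃ T' : Set (Matrix (BB ρ I m) (BB ρ I m) ℂ), IsSubtorsor QB T' ∧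
      ∀ x, x ∈ T ↔ ps ρ I m (gm τ θ) (k / (θ - τ)) * x * ps ρ I m (um' κ) 1 ∈ T' :=
  exists_tr (sub_mono hKQ hT) (ps_gm_inv h hk0) ps_um_inv
    (ps_K (vm_K hτ hθ) (QB.div_mem (QB.sub_mem hθ hτ) hk)) (ps_K (um_K (QB.neg_mem hκ)) QB.one_mem)

end Pool.Agent.U725.CMG
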