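import Pool.Agent.U725.MG.Base

/-!
# The criterion for groups with a torus of arbitrary rank
-/

set_option autoImplicit false
set_option linter.unusedSectionVars false

open Matrix MvPolynomial

namespace Pool.Agent.U725.MG

open Pool.Agent.TH127.PT Pool.Agent.TH119.MX Pool.Agent.TH119.DR Pool.Agent.Y123.ST
  Pool.Agent.U725.OM Pool.Agent.U725.MT

variable {B R : Type} [Fintype B] [DecidableEq B] [Fintype R] [DecidableEq R]
  {e : B → R → ℤ} {wt : B → ℕ} {K : Subfield ℂ} {G T : Set (Matrix B B ℂ)}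

/-- a rational vector on which finitely many linear forms do not vanish -/
theorem exists_generic {J ι : Type} [Fintype J] [DecidableEq ι] (W : Submodule ℂ (J → ℂ))
    (hW : ∀ σ : ℂ ≃+* ℂ, (∀ x ∈ K, σ x = x) → ∀ v ∈ W, (fun i => σ (v i)) ∈ W)
    (φ : ι → (J → ℂ) →ₗ[ℂ] ℂ) (Ψ : Finset ι) (h : ∀ i ∈ Ψ, ∃ v ∈ W, φ i v ≠ 0) :
    ∃ w ∈ W, (∀ j, w j ∈ K) ∧ ∀ i ∈ Ψ, φ i w ≠ 0 := by
  induction Ψ using Finset.induction_on with
  | empty => exact ⟨0, W.zero_mem, fun _ => K.zero_mem, fun i hi => absurd hi (Finset.notMem_empty i)⟩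
  | insert a S ha ih =>
    obtain ⟨w₁, h1, h1K, h1S⟩ := ih fun i hi => h i (Finset.mem_insert_of_mem hi)
    obtain ⟨w₂, h2, h2K, h2a⟩ := exists_rat W hW (φ a) (h a (Finset.mem_insert_self a S))
    have hfin : ∀ i ∈ insert a S, {n : ℕ | (n : ℂ) * φ i w₁ + φ i w₂ = 0}.Finite := by
      intro i hi
      have hne : φ i w₁ ≠ 0 ∨ φ i w₂ ≠ 0 := by
        rcases Finset.mem_insert.1 hi with rfl | hi
        · exact Or.inr h2a
        · exact Or.inl (h1S i hi)
      refine Set.Subsingleton.finite fun n hn n' hn' => ?_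
      have e1 : (n : ℂ) * φ i w₁ + φ i w₂ = 0 := hn
      have e2 : (n' : ℂ) * φ i w₁ + φ i w₂ = 0 := hn'
      have e3 : ((n : ℂ) - n') * φ i w₁ = 0 := by linear_combination e1 - e2
      rcases mul_eq_zero.1 e3 with e4 | e4
      · exact_mod_cast sub_eq_zero.1 e4
      · rw [e4, mul_zero, zero_add] at e1
        rcases hne with h5 | h5
        · exact absurd e4 h5
        · exact absurd e1 h5
    have hfin2 : (⋃ i ∈ insert a S, {n : ℕ | (n : ℂ) * φ i w₁ + φ i w₂ = 0}).Finite :=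
      Set.Finite.biUnion (Finset.finite_toSet _) hfin
    obtain ⟨n, hn⟩ := hfin2.infinite_compl.nonempty
    refine ⟨(n : ℂ) • w₁ + w₂, W.add_mem (W.smul_mem _ h1) h2, fun j => ?_, fun i hi h0 => ?_⟩
    · exact K.add_mem (K.mul_mem (natCast_mem K n) (h1K j)) (h2K j)
    · apply hn
      rw [Set.mem_iUnion₂]
      refine ⟨i, hi, ?_⟩
      rw [map_add, map_smul, smul_eq_mul] at h0
      exact h0

/-- a subspace which is stable under `[H, ·]` is graded -/
theorem graded' {W : Submodule ℂ (B × B → ℂ)} (s : R → ℂ) (hW : ∀ w ∈ W, aT e s w ∈ W)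
    (Ξ : Finset (R → ℤ)) (hinj : ∀ χ ∈ Ξ, ∀ χ' ∈ Ξ, χ ≠ χ' → dch s χ ≠ dch s χ')
    {w : B × B → ℂ} (hw : w ∈ W) (hw' : w - ∑ χ ∈ Ξ, part e χ w ∈ W) {χ : R → ℤ} (hχ : χ ∈ Ξ) :
    part e χ w ∈ W := by
  classical
  set w' : B × B → ℂ := ∑ χ ∈ Ξ, part e χ w with hw'd
  have h0 : w' ∈ W := by
    have := Submodule.sub_mem _ hw hw'
    rwa [sub_sub_cancel] at this
  have hval : ∀ b, w' b = if e b.1 - e b.2 ∈ Ξ then w b else 0 := by
    intro b
    rw [hw'd, Finset.sum_apply]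
    simp only [part]
    rw [Finset.sum_ite_eq]
  have h1 : ∀ S : Finset (R → ℤ), (fun b : B × B =>
      (∏ ψ ∈ S, ((dch s (e b.1) - dch s (e b.2)) - dch s ψ)) * w' b) ∈ W := by
    intro S
    induction S using Finset.induction_on with
    | empty => simpa using h0
    | insert ψ S hψ ih =>
      have h2 := Submodule.sub_mem _ (hW _ ih) (Submodule.smul_mem _ (dch s ψ) ih)
      convert h2 using 1
      funext b
      rw [Finset.prod_insert hψ]
      simp only [aT, Pi.sub_apply, Pi.smul_apply, smul_eq_mul]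
      ring
  have h2 := h1 (Ξ.erase χ)
  set a : ℂ := ∏ ψ ∈ Ξ.erase χ, (dch s χ - dch s ψ) with ha
  have ha0 : a ≠ 0 := by
    rw [ha, Finset.prod_ne_zero_iff]
    intro ψ hψ h3
    exact hinj χ hχ ψ (Finset.mem_of_mem_erase hψ) (Finset.ne_of_mem_erase hψ).symm
      (sub_eq_zero.1 h3)
  have h3 := Submodule.smul_mem _ a⁻¹ h2
  convert h3 using 1
  funext b
  simp only [part, Pi.smul_apply, smul_eq_mul]
  rw [hval b]
  split_ifs with h5 h6 h6
  · rw [← dch_sub_right, h5, ← ha, ← mul_assoc, inv_mul_cancel₀ ha0, one_mul]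
  · exact absurd (h5 ▸ hχ) h6
  · have h7 : ∏ ψ ∈ Ξ.erase χ, ((dch s (e b.1) - dch s (e b.2)) - dch s ψ) = 0 := by
      refine Finset.prod_eq_zero (i := e b.1 - e b.2) (Finset.mem_erase.2 ⟨h5, h6⟩) ?_
      rw [dch_sub_right]
      ring
    rw [h7]
    ring
  · ring

/-- the elements of the Lie algebra of `T` in the sum of that of the torus and `𝔲` -/
def TT (wt : B → ℕ) (e : B → R → ℤ) (G T : Set (Matrix B B ℂ)) : Submodule ℂ (B × B → ℂ) where
  carrier := {w | w ∈ LL T ∧ ∃ s : R → ℂ, w - fl (Ht e s) ∈ UU wt G}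
  zero_mem' := ⟨Submodule.zero_mem _, 0, by
    rw [Ht_zero, fl_zero, sub_zero]
    exact Submodule.zero_mem _⟩
  add_mem' := by
    rintro v w ⟨hv, a, ha⟩ ⟨hw, a', ha'⟩
    refine ⟨Submodule.add_mem _ hv hw, a + a', ?_⟩
    have h1 : v + w - fl (Ht e (a + a')) = (v - fl (Ht e a)) + (w - fl (Ht e a')) := by
      rw [Ht_add, fl_add]
      abel
    rw [h1]
    exact Submodule.add_mem _ ha ha'
  smul_mem' := by
    rintro c v ⟨hv, a, ha⟩
    refine ⟨Submodule.smul_mem _ _ hv, c • a, ?_⟩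
    rw [Ht_smul, fl_smul, ← smul_sub]
    exact Submodule.smul_mem _ _ ha

theorem aut_Ht (σ : ℂ ≃+* ℂ) (s : R → ℂ) :
    (fun i => σ (fl (Ht e s) i)) = fl (Ht e (fun r => σ (s r)) : Matrix B B ℂ) := by
  funext i
  simp only [fl, Ht, Matrix.diagonal_apply]
  split_ifs
  · unfold dch
    rw [map_sum]
    refine Finset.sum_congr rfl fun r _ => ?_
    rw [map_mul, map_intCast]
  · exact map_zero σ

theorem aut_TT (hG : IsSubtorsor K G) (hT : IsSubtorsor K T) (σ : ℂ ≃+* ℂ)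
    (hσ : ∀ x ∈ K, σ x = x) (w : B × B → ℂ) (hw : w ∈ TT wt e G T) :
    (fun i => σ (w i)) ∈ TT wt e G T := by
  obtain ⟨h1, a, ha⟩ := hw
  refine ⟨LL_aut hT σ hσ w h1, fun r => σ (a r), ?_⟩
  have h2 := aut_UU hG σ hσ _ ha
  convert h2 using 1
  funext i
  have h3 := congrFun (aut_Ht (e := e) σ a) i
  simp only [Pi.sub_apply, map_sub]
  rw [h3]

theorem Ht_diag (s : R → ℂ) (b : B) : fl (Ht e s) (b, b) = dch s (e b) := by
  simp [fl, Ht]

/-- **The criterion.** -/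
theorem crit (h : Mg K wt e G) {τ : R → ℂ} (hτ0 : ∀ r, τ r ≠ 0) {L : Matrix B B ℂ}
    (hL : fl L ∈ UU wt G) (Ξ : Finset (R → ℤ)) (hocc : ∀ χ ∈ Ξ, ∃ b b' : B, e b - e b' = χ)
    (hΞ : ∀ w ∈ UU wt G, w - ∑ χ ∈ Ξ, part e χ w ∈ CC wt G)
    (htr : ∀ χ ∈ Ξ, Transcendental ℚ (mon τ χ))
    (htr2 : ∀ χ ∈ Ξ, ∀ χ' ∈ Ξ, χ ≠ χ' → Transcendental ℚ (mon τ (χ - χ')))
    (hcr : ∀ χ ∈ Ξ, ∀ f : B × B → ℂ, IsFm K e χ f → (∀ w ∈ CC wt G, prf f w = 0) →
      (∃ a ∈ K, ∃ β ∈ K, prf f (fl L) = a + β * mon τ χ) → ∀ w ∈ UU wt G, prf f w = 0)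
    (hT : IsSubtorsor K T) (hc : IsNilpotent.exp L * dt e τ ∈ T) : UU wt G ≤ LL T := by
  classical
  rcases isEmpty_or_nonempty B with hB | hB
  · intro w _
    have : w = 0 := Subsingleton.elim _ _
    rw [this]
    exact Submodule.zero_mem _
  choose! pb pb' hp using hocc
  -- the functionals
  set φ1 : (R → ℤ) → (B × B → ℂ) →ₗ[ℂ] ℂ := fun χ =>
    (LinearMap.proj (pb χ, pb χ) : (B × B → ℂ) →ₗ[ℂ] ℂ) -
      (LinearMap.proj (pb' χ, pb' χ) : (B × B → ℂ) →ₗ[ℂ] ℂ) with hφ1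
  have hφ : ∀ χ ∈ Ξ, ∀ (w : B × B → ℂ) (s : R → ℂ), w - fl (Ht e s) ∈ UU wt G →
      φ1 χ w = dch s χ := by
    intro χ hχ w s hws
    have h1 : ∀ b, w (b, b) = dch s (e b) := by
      intro b
      have h2 := UU_diag hws b
      have h3 : (w - fl (Ht e s)) (b, b) = w (b, b) - fl (Ht e s) (b, b) := rfl
      rw [h3, Ht_diag, sub_eq_zero] at h2
      exact h2
    rw [hφ1]
    dsimp only
    rw [LinearMap.sub_apply, LinearMap.proj_apply, LinearMap.proj_apply, h1, h1, ← dch_sub_right,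
      hp χ hχ]
  set φ : ((R → ℤ) ⊕ ((R → ℤ) × (R → ℤ))) → (B × B → ℂ) →ₗ[ℂ] ℂ := fun i =>
    Sum.elim φ1 (fun p => φ1 p.1 - φ1 p.2) i with hφd
  have hwTT : ∀ D : Derivation K ℂ ℂ, ∃ w ∈ TT wt e G T,
      w - fl (Ht e (fun r => D (τ r) / τ r)) ∈ UU wt G := fun D =>
    ⟨_, ⟨Mg.wD_mem hT D hτ0 hL.1 hc, _, h.wD_UU D τ hL⟩, h.wD_UU D τ hL⟩
  have hmon : ∀ χ, Transcendental ℚ (mon τ χ) → ∃ D : Derivation K ℂ ℂ,
      dch (fun r => D (τ r) / τ r) χ ≠ 0 := by
    intro χ hχ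
    obtain ⟨D, hD⟩ := exists_der_val h.hK hχ 1
    refine ⟨D, fun h0 => ?_⟩
    rw [mon_der D hτ0, h0, zero_mul] at hD
    exact zero_ne_one hD
  obtain ⟨h₀, hh1, hhK, hhφ⟩ := exists_generic (TT wt e G T) (aut_TT h.hG hT) φ
    (Finset.disjSum Ξ Ξ.offDiag) (by
      intro i hi
      rcases i with χ | p
      · have hχ : χ ∈ Ξ := by simpa using hi
        obtain ⟨D, hD⟩ := hmon χ (htr χ hχ)
        obtain ⟨w, hw, hw2⟩ := hwTT D
        refine ⟨w, hw, ?_⟩
        change φ1 χ w ≠ 0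
        rw [hφ χ hχ w _ hw2]
        exact hD
      · have hp' : p ∈ Ξ.offDiag := by simpa using hi
        obtain ⟨hp1, hp2, hp3⟩ := Finset.mem_offDiag.1 hp'
        obtain ⟨D, hD⟩ := hmon _ (htr2 p.1 hp1 p.2 hp2 hp3)
        obtain ⟨w, hw, hw2⟩ := hwTT D
        refine ⟨w, hw, ?_⟩
        change φ1 p.1 w - φ1 p.2 w ≠ 0
        rw [hφ p.1 hp1 w _ hw2, hφ p.2 hp2 w _ hw2, ← dch_sub_right]
        exact hD)
  obtain ⟨hh2, s₀, hs₀⟩ := hh1
  have hs1 : ∀ χ ∈ Ξ, dch s₀ χ ≠ 0 := by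
    intro χ hχ
    have h1 := hhφ (Sum.inl χ) (by simpa using hχ)
    change φ1 χ h₀ ≠ 0 at h1
    rwa [hφ χ hχ h₀ s₀ hs₀] at h1
  have hs2 : ∀ χ ∈ Ξ, ∀ χ' ∈ Ξ, χ ≠ χ' → dch s₀ χ ≠ dch s₀ χ' := by
    intro χ hχ χ' hχ' hne heq
    have h1 := hhφ (Sum.inr (χ, χ')) (by simp [hχ, hχ', hne])
    change φ1 χ h₀ - φ1 χ' h₀ ≠ 0 at h1
    rw [hφ χ hχ h₀ s₀ hs₀, hφ χ' hχ' h₀ s₀ hs₀, heq, sub_self] at h1
    exact h1 rfl
  have hdK : ∀ b, dch s₀ (e b) ∈ K := by
    intro b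
    have h2 := UU_diag hs₀ b
    have h3 : (h₀ - fl (Ht e s₀)) (b, b) = h₀ (b, b) - fl (Ht e s₀) (b, b) := rfl
    rw [h3, Ht_diag, sub_eq_zero] at h2
    rw [← h2]
    exact hhK _
  set Y₀ : Matrix B B ℂ := um (h₀ - fl (Ht e s₀)) with hY₀
  have hYU : fl Y₀ ∈ UU wt G := hs₀
  have hYK : ∀ b, fl Y₀ b ∈ K := by
    intro b
    rw [hY₀, fl_um]
    refine sub_mem (hhK b) ?_
    simp only [fl, Ht, Matrix.diagonal_apply]
    split_ifs
    · exact hdK _
    · exact K.zero_mem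
  have hHY : fl (Ht e s₀ + Y₀) ∈ LL T := by
    have h1 : fl (Ht e s₀ + Y₀) = h₀ := by
      rw [fl_add, hY₀, fl_um]
      abel
    rw [h1]
    exact hh2
  -- the rational subspaces
  set S : Submodule ℂ (B × B → ℂ) := LL T ⊓ UU wt G with hS
  set W : Submodule ℂ (B × B → ℂ) := S ⊔ CC wt G with hW
  have hWU : W ≤ UU wt G := sup_le inf_le_right CC_le
  have hWaut : ∀ σ : ℂ ≃+* ℂ, (∀ x ∈ K, σ x = x) → ∀ v ∈ W, (fun i => σ (v i)) ∈ W := by
    intro σ hσ v hv
    obtain ⟨s, hs, c, hc', hsc⟩ := Submodule.mem_sup.1 hv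
    have h1 : (fun i => σ (v i)) = (fun i => σ (s i)) + fun i => σ (c i) := by
      funext i
      rw [← hsc]
      exact map_add σ _ _
    rw [h1]
    exact Submodule.add_mem_sup ⟨LL_aut hT σ hσ s hs.1, aut_UU h.hG σ hσ s hs.2⟩
      (aut_CC h.hG σ hσ c hc')
  have hUaH : ∀ w ∈ UU wt G, aT e s₀ w ∈ UU wt G := by
    intro w hw
    have h3 := h.Ht_UU s₀ (X := um w) hw
    rwa [← aT_fl, fl_um] at h3
  have hWaH : ∀ w ∈ W, aT e s₀ w ∈ W := by
    intro v hv
    obtain ⟨s, hs, c, hc', hsc⟩ := Submodule.mem_sup.1 hv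
    have h1 : aT e s₀ v = aT e s₀ s + aT e s₀ c := by
      funext i
      rw [← hsc]
      simp only [aT, Pi.add_apply]
      ring
    have h2 : aT e s₀ c ∈ CC wt G := by
      have h3 := h.Ht_CC s₀ (X := um c) hc'
      rwa [← aT_fl, fl_um] at h3
    have hsU : fl (um s) ∈ UU wt G := hs.2
    have hsT : fl (um s) ∈ LL T := hs.1
    have h3 : aT e s₀ s = fl ((Ht e s₀ + Y₀) * um s - um s * (Ht e s₀ + Y₀)) -
        fl (Y₀ * um s - um s * Y₀) := by
      have h4 := aT_fl (e := e) s₀ (um s)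
      rw [fl_um] at h4
      rw [h4]
      funext b
      simp only [fl, Pi.sub_apply, Matrix.sub_apply, Matrix.add_mul, Matrix.mul_add,
        Matrix.add_apply]
      ring
    have h5 : fl (Y₀ * um s - um s * Y₀) ∈ CC wt G := br_CC hYU hsU
    have h6 : fl ((Ht e s₀ + Y₀) * um s - um s * (Ht e s₀ + Y₀)) ∈ S := by
      refine ⟨lie_mem hHY hsT, ?_⟩
      have h7 := Submodule.add_mem _ (h.Ht_UU s₀ hsU) (br_UU hYU hsU)
      have h8 : fl ((Ht e s₀ + Y₀) * um s - um s * (Ht e s₀ + Y₀)) =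
          fl (Ht e s₀ * um s - um s * Ht e s₀) + fl (Y₀ * um s - um s * Y₀) := by
        rw [← fl_add]
        congr 1
        noncomm_ring
      rw [h8]
      exact h7
    rw [h1]
    refine Submodule.add_mem _ ?_ (Submodule.mem_sup_right h2)
    rw [h3]
    exact Submodule.sub_mem _ (Submodule.mem_sup_left h6) (Submodule.mem_sup_right h5)
  have hWg : ∀ w ∈ W, ∀ χ ∈ Ξ, part e χ w ∈ W := fun w hw χ hχ =>
    graded' s₀ hWaH Ξ hs2 hw (Submodule.mem_sup_right (hΞ w (hWU hw))) hχ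
  have hUg : ∀ w ∈ UU wt G, ∀ χ ∈ Ξ, part e χ w ∈ UU wt G := fun w hw χ hχ =>
    graded' s₀ hUaH Ξ hs2 hw (CC_le (hΞ w hw)) hχ
  -- the main claim
  have hUW : UU wt G ≤ W := by
    by_contra hcon
    obtain ⟨w₀, hw₀, hw₀'⟩ := SetLike.not_le_iff_exists.1 hcon
    obtain ⟨χ, hχ, hd⟩ : ∃ χ ∈ Ξ, part e χ w₀ ∉ W := by
      by_contra hcon2
      push Not at hcon2
      apply hw₀'
      have h1 := Submodule.add_mem W (Submodule.mem_sup_right (hΞ w₀ hw₀))
        (Submodule.sum_mem W hcon2)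
      rwa [sub_add_cancel] at h1
    have hχ0 : χ ≠ 0 := by
      intro h0
      apply hs1 χ hχ
      rw [h0]
      simp [dch]
    have hvU := hUg w₀ hw₀ χ hχ
    obtain ⟨f, hfK, hfW, hfv⟩ := exists_form W hWaut hd
    set g : B × B → ℂ := fun b => if e b.1 - e b.2 = χ then f b else 0 with hg
    have hgform : IsFm K e χ g := by
      constructor
      · intro b
        rw [hg]
        dsimp only
        split_ifs
        · exact hfK b
        · exact K.zero_mem
      · intro b hb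
        by_contra h1
        apply hb
        rw [hg]
        dsimp only
        rw [if_neg h1]
    have hgf : ∀ w : B × B → ℂ, prf g w = prf f (part e χ w) := by
      intro w
      rw [prf_apply, prf_apply]
      refine Finset.sum_congr rfl fun b _ => ?_
      simp only [hg, part]
      split_ifs
      · rfl
      · rw [zero_mul, mul_zero]
    have hgW : ∀ w ∈ W, prf g w = 0 := by
      intro w hw
      rw [hgf]
      exact hfW _ (hWg w hw χ hχ)
    have hgC : ∀ w ∈ CC wt G, prf g w = 0 := fun w hw => hgW w (Submodule.mem_sup_right hw)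
    have hgv : prf g (part e χ w₀) ≠ 0 := by
      rw [hgf]
      have h1 : part e χ (part e χ w₀) = part e χ w₀ := by
        funext b
        simp only [part]
        split_ifs <;> rfl
      rw [h1]
      exact hfv
    have hdχ := hs1 χ hχ
    have hdχK : dch s₀ χ ∈ K := by
      rw [← hp χ hχ, dch_sub_right]
      exact sub_mem (hdK _) (hdK _)
    apply hgv
    refine hcr χ hχ g hgform hgC ?_ _ hvU
    -- the relation
    set z : ℂ := prf g (fl L) with hz
    set a₀ : ℂ := prf g (fl Y₀) with ha₀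
    have ha₀K : a₀ ∈ K := by
      rw [ha₀, prf_apply]
      exact sum_mem fun b _ => mul_mem (hgform.1 b) (hYK b)
    have hLG : IsNilpotent.exp L ∈ G := h.exp_mem hL
    have hcG : IsNilpotent.exp L * dt e τ ∈ G := h.mul_mem hLG (h.weight τ hτ0)
    have hy : (a₀ + dch s₀ χ * z) / mon τ χ ∈ K := by
      refine mem_of_fixed fun σ hσ => ?_
      -- the conjugate point
      have hcσ : (IsNilpotent.exp L * dt e τ).map σ =
          IsNilpotent.exp (L.map σ) * dt e (fun r => σ (τ r)) := by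
        have e1 : (IsNilpotent.exp L * dt e τ).map σ =
            (IsNilpotent.exp L).map σ * (dt e τ).map σ :=
          Matrix.map_mul (f := (σ : ℂ →+* ℂ))
        have e2 : (IsNilpotent.exp L).map σ = IsNilpotent.exp (L.map σ) :=
          IsNilpotent.map_exp (A := Matrix B B ℂ) hL.1.nil ((σ : ℂ →+* ℂ).mapMatrix (m := B))
        have e3 : (dt e τ).map σ = dt e (fun r => σ (τ r)) := by
          unfold dt
          rw [Matrix.diagonal_map (map_zero σ)]
          congr 1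
          funext b
          exact mon_map σ _ _
        rw [e1, e2, e3]
      have hcσT := aut_mem hT hσ hc
      have hστ : ∀ r, σ (τ r) ≠ 0 := by
        intro r h0
        exact hτ0 r (by simpa using h0)
      have hLσ : fl (L.map σ) ∈ UU wt G := aut_UU h.hG σ hσ _ hL
      have hcσG := aut_mem h.hG hσ hcG
      rw [hcσ] at hcσT hcσG
      set c := IsNilpotent.exp L * dt e τ with hc'
      set c' := IsNilpotent.exp (L.map σ) * dt e (fun r => σ (τ r)) with hc''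
      -- the element of the right Lie algebra
      set r : Matrix B B ℂ := c'⁻¹ * (Ht e s₀ + Y₀) * c' with hr
      have hrR : fl r ∈ RR T := conj_mem hT hcσT hHY
      have hrL : fl (c * r * c⁻¹) ∈ LL T := conj_mem' hT hc hrR
      have hcinv : c'⁻¹ ∈ G := h.inv_mem hcσG
      have hcinv2 : (c'⁻¹)⁻¹ = c' := Matrix.nonsing_inv_nonsing_inv _
        ((Matrix.isUnit_iff_isUnit_det _).1 (h.hG.isUnit _ hcσG))
      set V : Matrix B B ℂ := r - Ht e s₀ with hV
      have hRU : fl V ∈ UU wt G := by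
        have e1 := Submodule.add_mem _ (h.conj_Ht_mem s₀ hcinv) (h.conj_mem hYU hcinv)
        rw [hcinv2] at e1
        have e2 : fl V = fl (c'⁻¹ * Ht e s₀ * c' - Ht e s₀) + fl (c'⁻¹ * Y₀ * c') := by
          rw [← fl_add, hV, hr, Matrix.mul_add, Matrix.add_mul]
          congr 1
          abel
        rw [e2]
        exact e1
      have hrR' : r = Ht e s₀ + V := by rw [hV]; abel
      have hval : ∀ {l : R → ℂ}, (∀ r, l r ≠ 0) → ∀ {M : Matrix B B ℂ}, fl M ∈ UU wt G →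
          ∀ {V : Matrix B B ℂ}, fl V ∈ UU wt G →
          prf g (fl (IsNilpotent.exp M * dt e l * (Ht e s₀ + V) *
            (IsNilpotent.exp M * dt e l)⁻¹)) =
            -(dch s₀ χ * prf g (fl M)) + mon l χ * prf g (fl V) := by
        intro l hl M hM V hV
        rw [Matrix.mul_add, Matrix.add_mul, fl_add, map_add,
          h.prf_conj_Ht hχ0 hgform hgC s₀ hl hM, h.prf_conj hgform hgC hV hl hM]
      have e1 : prf g (fl (c' * r * c'⁻¹)) = a₀ := by
        have e2 : c' * r * c'⁻¹ = Ht e s₀ + Y₀ := by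
          rw [hr]
          have e3 : c' * (c'⁻¹ * (Ht e s₀ + Y₀) * c') * c'⁻¹ =
              (c' * c'⁻¹) * (Ht e s₀ + Y₀) * (c' * c'⁻¹) := by
            simp only [Matrix.mul_assoc]
          rw [e3, h.mul_inv hcσG, Matrix.one_mul, Matrix.mul_one]
        rw [e2, fl_add, map_add, prf_Ht hχ0 hgform, zero_add]
      have e2 := hval hστ hLσ hRU
      rw [← hrR', ← hc'', e1] at e2
      have e3 := hval hτ0 hL hRU
      rw [← hrR', ← hc'] at e3
      have e4 : prf g (fl (c * r * c⁻¹)) = a₀ := by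
        have e5 : fl (c * r * c⁻¹) - fl (Ht e s₀ + Y₀) ∈ S := by
          refine ⟨Submodule.sub_mem _ hrL hHY, ?_⟩
          have e6 := Submodule.sub_mem _ (Submodule.add_mem _ (h.conj_Ht_mem s₀ hcG)
            (h.conj_mem hRU hcG)) hYU
          have e7 : fl (c * r * c⁻¹) - fl (Ht e s₀ + Y₀) =
              fl (c * Ht e s₀ * c⁻¹ - Ht e s₀) + fl (c * V * c⁻¹) - fl Y₀ := by
            rw [hrR', Matrix.mul_add, Matrix.add_mul]
            funext b
            simp only [fl, Pi.sub_apply, Pi.add_apply, Matrix.add_apply, Matrix.sub_apply]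
            ring
          rw [e7]
          exact e6
        have e8 := hgW _ (Submodule.mem_sup_left e5)
        rw [map_sub, sub_eq_zero] at e8
        rw [e8, fl_add, map_add, prf_Ht hχ0 hgform, zero_add]
      rw [e4] at e3
      have e5 : prf g (fl (L.map σ)) = σ z := by
        rw [hz, prf_apply, prf_apply, map_sum]
        refine Finset.sum_congr rfl fun b _ => ?_
        rw [map_mul, hσ _ (hgform.1 b)]
        rfl
      rw [e5] at e2
      have hστd : mon (fun r => σ (τ r)) χ ≠ 0 := mon_ne hστ χ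
      have hτd : mon τ χ ≠ 0 := mon_ne hτ0 χ
      rw [map_div₀, map_add, map_mul, mon_map, hσ a₀ ha₀K, hσ _ hdχK, div_eq_div_iff hστd hτd]
      linear_combination (mon τ χ) * e2 - (mon (fun r => σ (τ r)) χ) * e3
    refine ⟨-(a₀ / dch s₀ χ), neg_mem (div_mem ha₀K hdχK),
      (a₀ + dch s₀ χ * z) / mon τ χ / dch s₀ χ, div_mem hy hdχK, ?_⟩
    have hτd : mon τ χ ≠ 0 := mon_ne hτ0 χ
    field_simp
    ring
  -- Frattini
  have hUS : UU wt G ≤ S := frattini inf_le_right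
    (fun X Y hX hY => ⟨lie_mem hX.1 hY.1, br_UU hX.2 hY.2⟩) hUW
  exact le_trans hUS inf_le_left

end Pool.Agent.U725.MG
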