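import Pool.Agent.U725.MG.CMEll

/-!
# Curves without complex multiplication
-/

set_option autoImplicit false
set_option linter.unusedSectionVars false

open Matrix
open scoped PeriodPair ComplexConjugate

namespace Pool.Agent.U725.CMA

open H667R3 Pool.Agent.W245.EB Pool.Agent.U725.OM Pool.Agent.U725.MT Pool.Agent.U725.MG
  Pool.Agent.U725.CMG Pool.Agent.TH127.PT

noncomputable section

variable {L : PeriodPair} {ρ m : ℕ} {I : Type} [Fintype I] [DecidableEq I] {K : Subfield ℂ}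
  {P Q : I → Fin ρ}

/-- diagonal matrices -/
def Dg (ρ : ℕ) {I : Type} [DecidableEq I] (m : ℕ) (d : I → ℂ) : Matrix (BB ρ I m) (BB ρ I m) ℂ :=
  bd (1 : M2) (fun _ => (1 : Matrix (Fin 3) (Fin 3) ℂ)) (fun e => b4 1 0 0 1 0 0 1 0 0 0 (d e))
    (fun _ => (1 : M2))

theorem Dg_mul (d d' : I → ℂ) : Dg ρ m d * Dg ρ m d' = Dg ρ m (fun e => d e * d' e) := by
  unfold Dg
  rw [bd_mul]
  simp only [b4_mul, Matrix.one_mul]
  congr 1
  funext e
  congr 1 <;> simp

theorem Dg_one : Dg ρ m (fun _ : I => (1 : ℂ)) = 1 := by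
  rw [← bd_one]
  unfold Dg
  congr 1
  funext e
  rw [← b4_one]

theorem Dg_K {d : I → ℂ} (hd : ∀ e, d e ∈ K) (b b' : BB ρ I m) : Dg ρ m d b b' ∈ K := by
  have h0 : (0 : ℂ) ∈ K := K.zero_mem
  have h1 : (1 : ℂ) ∈ K := K.one_mem
  rcases b with a | ⟨a, j⟩ | ⟨a, i⟩ | ⟨a, i⟩ <;> rcases b' with a' | ⟨a', j'⟩ | ⟨a', i'⟩ | ⟨a', i'⟩
  all_goals
    try (simp [Dg, bd]; done)
  · simp only [Dg, bd, fromBlocks_apply₁₁, Matrix.one_apply]
    split_ifs
    · exact h1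
    · exact h0
  · simp only [Dg, bd, fromBlocks_apply₂₂, fromBlocks_apply₁₁, blockDiagonal_apply,
      Matrix.one_apply]
    split_ifs
    · exact h1
    · exact h0
    · exact h0
  · simp only [Dg, bd, fromBlocks_apply₂₂, fromBlocks_apply₁₁, blockDiagonal_apply, b4]
    split_ifs
    · fin_cases a <;> fin_cases a' <;> simp [hd]
    · exact h0
  · simp only [Dg, bd, fromBlocks_apply₂₂, blockDiagonal_apply, Matrix.one_apply]
    split_ifs
    · exact h1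
    · exact h0
    · exact h0

theorem key_ncm {ε : I → ℂ} (h0 : ∀ e, ε e ≠ 0) (X : M2) (l : ℂ) (Y : Fin ρ → Fin 2 → ℂ)
    (t : I → ℂ) (z : Fin m → ℂ) : Dg ρ m (fun e => (ε e)⁻¹) * shp P Q ε ε 0 X l Y t z * Dg ρ m ε =
      mat P Q X l Y (fun e => t e / ε e) z := by
  unfold Dg shp mat
  rw [bd_mul, bd_mul]
  simp only [b4_mul, Matrix.one_mul, Matrix.mul_one]
  congr 1
  funext e
  have h1 := h0 e
  congr 1 <;> simp <;> field_simp

theorem Tor_sub (P Q : I → Fin ρ) {k : ℂ} (hk : k ≠ 0) (hkK : k ∈ K) :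
    IsSubtorsor K (Tor ρ m I P Q k) := by
  rw [← subT_iff]
  exact ⟨Tor_torsor P Q hk, Tor_algebraic P Q hk hkK⟩

theorem Dg_inv {ε : I → ℂ} (h0 : ∀ e, ε e ≠ 0) :
    Dg ρ m (fun e => (ε e)⁻¹) * Dg ρ m ε = 1 := by
  rw [Dg_mul, ← Dg_one]
  congr 1
  funext e
  exact inv_mul_cancel₀ (h0 e)

theorem cancel_two {N : Type} [Fintype N] [DecidableEq N] {A U X Y : Matrix N N ℂ}
    (hA : IsUnit A) (hU : IsUnit U) (h : A * X * U = A * Y * U) : X = Y := by
  have e1 := (Matrix.isUnit_iff_isUnit_det _).1 hA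
  have e2 := (Matrix.isUnit_iff_isUnit_det _).1 hU
  have e3 := congrArg (fun B => A⁻¹ * B * U⁻¹) h
  simp only [Matrix.mul_assoc] at e3
  rw [Matrix.mul_nonsing_inv _ e2, Matrix.mul_one, Matrix.mul_one, ← Matrix.mul_assoc,
    ← Matrix.mul_assoc, Matrix.nonsing_inv_mul _ e1, Matrix.one_mul, Matrix.one_mul] at e3
  exact e3

theorem MM_ncm {ε : I → ℂ} (h0 : ∀ e, ε e ≠ 0) (hε : ∀ e, ε e ∈ K) {k : ℂ} (hk : k ≠ 0)
    (hkK : k ∈ K) : IsSubtorsor K {x : Matrix (BB ρ I m) (BB ρ I m) ℂ | ∃ X ∈ {X : M2 | IsUnit X},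
      ∃ l Y t z, X.det = k * l ∧ x = shp P Q ε ε 0 X l Y t z} := by
  have hD := Dg_inv (ρ := ρ) (m := m) h0
  have h1 := transport (Tor_sub (m := m) P Q hk hkK) (Dg_K (ρ := ρ) (m := m) fun e => K.inv_mem (hε e))
    (Dg_K hε) (unit_of_mul hD).1 (unit_of_mul hD).2
  convert h1 using 1
  ext x
  rw [Set.mem_setOf_eq, Set.mem_setOf_eq]
  constructor
  · rintro ⟨X, hX, l, Y, t, z, h2, rfl⟩
    rw [key_ncm h0]
    exact ⟨X, l, Y, _, z, det_ne hX, by rw [← h2, Matrix.det_fin_two], rfl⟩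
  · rintro ⟨X, l, Y, t, z, h2, h3, h4⟩
    refine ⟨X, ?_, l, Y, fun e => t e * ε e, z, ?_, ?_⟩
    · rw [Set.mem_setOf_eq, Matrix.isUnit_iff_isUnit_det]
      exact isUnit_iff_ne_zero.2 h2
    · rw [Matrix.det_fin_two, h3]
    · refine cancel_two (unit_of_mul hD).1 (unit_of_mul hD).2 ?_
      rw [h4, key_ncm h0]
      congr 1
      funext e
      exact (mul_div_cancel_right₀ _ (h0 e)).symm

theorem indep_append {w : Fin ρ → ℂ} (hi : Indep L w) :
    LinearIndependent ℚ (Fin.append ![L.ω₁, L.ω₂] w) := by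
  rw [Fintype.linearIndependent_iff]
  intro g hg
  rw [Fin.sum_univ_add] at hg
  simp only [Fin.append_left, Fin.append_right, Fin.sum_univ_two, Matrix.cons_val_zero,
    Matrix.cons_val_one, Rat.smul_def] at hg
  -- clear denominators
  set a := g (Fin.castAdd ρ 0) with ha
  set b := g (Fin.castAdd ρ 1) with hb
  have h1 : (fun j : Fin ρ => ((g (Fin.natAdd 2 j) : ℚ) : ℂ)) = 0 := by
    refine hi _ (fun j => SubfieldClass.ratCast_mem _ _) ⟨a.den * b.den,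
      Nat.mul_pos a.den_pos b.den_pos, ?_⟩
    rw [PeriodPair.mem_lattice]
    refine ⟨-(a.num * b.den), -(b.num * a.den), ?_⟩
    have ea : ((a.den : ℕ) : ℂ) * (a : ℂ) = (a.num : ℂ) := by
      exact_mod_cast congrArg (fun x : ℚ => (x : ℂ)) (Rat.den_mul_eq_num a)
    have eb : ((b.den : ℕ) : ℂ) * (b : ℂ) = (b.num : ℂ) := by
      exact_mod_cast congrArg (fun x : ℚ => (x : ℂ)) (Rat.den_mul_eq_num b)
    push_cast
    rw [← ea, ← eb]
    linear_combination (-(a.den : ℂ) * b.den) * hg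
  have h2 : ∀ j : Fin ρ, g (Fin.natAdd 2 j) = 0 := fun j => by
    have h5 : ((g (Fin.natAdd 2 j) : ℚ) : ℂ) = 0 := congrFun h1 j
    exact_mod_cast h5
  have h3 : ∑ j, ((g (Fin.natAdd 2 j) : ℚ) : ℂ) * w j = 0 :=
    Finset.sum_eq_zero fun j _ => by rw [h2 j]; simp
  rw [h3, add_zero] at hg
  have h4 := LinearIndependent.pair_iff.1 L.indep (a : ℝ) (b : ℝ) (by
    simp only [Complex.real_smul]
    push_cast
    exact hg)
  have h5 : a = 0 := by exact_mod_cast h4.1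
  have h6 : b = 0 := by exact_mod_cast h4.2
  intro i
  refine Fin.addCases (fun i => ?_) (fun j => h2 j) i
  fin_cases i
  · exact h5
  · exact h6

/-- distinct pairs -/
theorem pairs_of {ε : I → ℂ} (hq : ∀ e, ∃ q : ℚ, ε e = q)
    (hH : LinearIndependent ℝ fun e : I => (Matrix.single (P e) (Q e) (ε e) +
      Matrix.single (Q e) (P e) (conj (ε e)) : Matrix (Fin ρ) (Fin ρ) ℂ)) :
    (∀ e, ε e ≠ 0) ∧
      ∀ e e' : I, (P e = P e' ∧ Q e = Q e') ∨ (P e = Q e' ∧ Q e = P e') → e = e' := by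
  have h0 : ∀ e, ε e ≠ 0 := by
    intro e h
    apply hH.ne_zero e
    simp only [h, map_zero, Matrix.single_zero, add_zero]
  refine ⟨h0, fun e e' hee => ?_⟩
  by_contra hne
  choose q hq using hq
  have hS : ∀ e, (Matrix.single (P e) (Q e) (ε e) +
      Matrix.single (Q e) (P e) (conj (ε e)) : Matrix (Fin ρ) (Fin ρ) ℂ) =
      (q e : ℝ) • (Matrix.single (P e) (Q e) 1 + Matrix.single (Q e) (P e) 1) := by
    intro e
    have h4 : conj (ε e) = ((q e : ℝ) : ℂ) := by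
      rw [hq e]
      simp
    have h5 : ε e = ((q e : ℝ) : ℂ) := by
      rw [hq e]
      simp
    rw [h4, h5, smul_add, Matrix.smul_single, Matrix.smul_single, Complex.real_smul, mul_one]
  have hSS : (Matrix.single (P e) (Q e) 1 + Matrix.single (Q e) (P e) 1 :
      Matrix (Fin ρ) (Fin ρ) ℂ) = Matrix.single (P e') (Q e') 1 + Matrix.single (Q e') (P e') 1 := by
    rcases hee with ⟨h4, h5⟩ | ⟨h4, h5⟩
    · rw [h4, h5]
    · rw [h4, h5, add_comm]
  have h6 := Fintype.linearIndependent_iff.1 hH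
    (fun i => (if i = e then (q e' : ℝ) else 0) - (if i = e' then (q e : ℝ) else 0)) (by
      simp only [sub_smul, ite_smul, zero_smul]
      rw [Finset.sum_sub_distrib, Finset.sum_ite_eq', Finset.sum_ite_eq', if_pos (Finset.mem_univ _),
        if_pos (Finset.mem_univ _), hS e, hS e', hSS, smul_smul, smul_smul, mul_comm, sub_self]) e
  rw [if_pos rfl, if_neg hne, sub_zero] at h6
  apply h0 e'
  rw [hq e']
  have h7 : q e' = 0 := by exact_mod_cast h6
  rw [h7]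
  simp

/-- **Curves without complex multiplication.** -/
theorem ncm_final (h2 : IsAlgebraic ℚ L.g₂) (h3 : IsAlgebraic ℚ L.g₃)
    (hL : ∀ β ∈ Pool.Agent.TH813.Ell.kL L, ∃ q : ℚ, β = q) {w : Fin ρ → ℂ}
    (hw : ∀ j, IsAlgebraic ℚ (℘[L] (w j))) (hi : Indep L w) {b : Fin m → ℂ}
    (hb : ∀ i, IsAlgebraic ℚ (Complex.exp (b i)))
    (hbi : LinearIndependent ℚ (Fin.cons (2 * Real.pi * Complex.I) b : Fin (m + 1) → ℂ))
    {ε : I → ℂ} (hε : ∀ e, ε e ∈ Pool.Agent.TH813.Ell.kL L)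
    (hH : LinearIndependent ℝ fun e : I => (Matrix.single (P e) (Q e) (ε e) +
      Matrix.single (Q e) (P e) (conj (ε e)) : Matrix (Fin ρ) (Fin ρ) ℂ))
    (s : I → ℂ) {n : ℤ} (hn : n ≠ 0)
    (hleg : L.ω₁ * (2 * zeta L (L.ω₂ / 2)) - 2 * zeta L (L.ω₁ / 2) * L.ω₂ =
      n * (2 * Real.pi * Complex.I)) (hK : K ≤ OM.QB) :
    Om K (shp P Q ε (fun e => conj (ε e)) (fun e => kap L * (ε e - conj (ε e))) (X0 L)
      (2 * Real.pi * Complex.I) (fun j => ![w j, zeta L (w j)]) s b) =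
    {x | ∃ X ∈ Om K (X0 L), ∃ l Y t z, X.det = (n : ℂ) * l ∧
      x = shp P Q ε (fun e => conj (ε e)) (fun e => kap L * (ε e - conj (ε e))) X l Y t z} := by
  have hq : ∀ e, ∃ q : ℚ, ε e = q := fun e => hL _ (hε e)
  obtain ⟨h0, hPQ⟩ := pairs_of hq hH
  have hc1 : (fun e => conj (ε e)) = ε := by
    funext e
    obtain ⟨q, h⟩ := hq e
    rw [h]
    simp
  have hc2 : (fun e => kap L * (ε e - conj (ε e))) = 0 := by
    funext e
    have h : conj (ε e) = ε e := congrFun hc1 e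
    rw [h, sub_self, mul_zero, Pi.zero_apply]
  rw [hc1, hc2]
  have hn0 : (n : ℂ) ≠ 0 := by exact_mod_cast hn
  have hpi : (2 * Real.pi * Complex.I : ℂ) ≠ 0 := Complex.two_pi_I_ne_zero
  have hnK : (n : ℂ) ∈ K := intCast_mem K n
  have hεK : ∀ e, ε e ∈ K := by
    intro e
    obtain ⟨q, h⟩ := hq e
    rw [h]
    exact SubfieldClass.ratCast_mem K q
  have hdet : (X0 L).det = (n : ℂ) * (2 * Real.pi * Complex.I) := by
    rw [X0, Matrix.det_fin_two_of, ← hleg]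
  have hu : IsUnit (X0 L) := by
    rw [Matrix.isUnit_iff_isUnit_det, hdet]
    exact isUnit_iff_ne_zero.2 (mul_ne_zero hn0 hpi)
  refine main_eq hn0 hnK (M₂ := {X : M2 | IsUnit X}) GL_sub (MM_ncm h0 hεK hn0 hnK) hu hdet ?_
  intro T hT hc X hX l hl Y t z Y' t' z' _
  have hD := Dg_inv (ρ := ρ) (m := m) h0
  obtain ⟨T', hT', hiff⟩ := exists_tr (sub_mono hK hT) hD (mul_eq_one_comm.1 hD)
    (Dg_K fun e => hK (hεK e)) (Dg_K fun e => inv_mem (hK (hεK e)))
  have hc' := (hiff _).1 hc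
  rw [key_ncm h0] at hc'
  have hL' : ∀ β ∈ Pool.Agent.W245.EB.kL L, ∃ q : ℚ, β = q := fun β hβ => hL β hβ
  have hS := sit h2 h3 hL' hw (indep_append hi) hb hbi hPQ (fun e => s e / ε e) hn hleg hT' hc'
  rw [hiff, key_ncm h0]
  exact hS.sub X l (det_ne hX) (by rw [← hl, Matrix.det_fin_two]) _ _ _

end

end Pool.Agent.U725.CMA
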