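import Pool.Agent.U725.MG.CMCrit2

/-!
# The smallest subtorsor, and inverse images of subtorsors
-/

set_option autoImplicit false
set_option linter.unusedSectionVars false

open Matrix MvPolynomial

namespace Pool.Agent.U725.MG

open Pool.Agent.TH127.PT Pool.Agent.Y123.ST Pool.Agent.U725.OM Pool.Agent.U725.MT

variable {N N' : Type} [Fintype N] [DecidableEq N] [Fintype N'] [DecidableEq N'] {K : Subfield ℂ}

/-- the intersection of all subtorsors which contain `c` -/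
def Om (K : Subfield ℂ) (c : Matrix N N ℂ) : Set (Matrix N N ℂ) :=
  {x | ∀ T : Set (Matrix N N ℂ), IsSubtorsor K T → c ∈ T → x ∈ T}

theorem GL_sub : IsSubtorsor K {x : Matrix N N ℂ | IsUnit x} := by
  rw [← subT_iff]
  refine ⟨fun x hx y hy z hz => ?_, ∅, fun x => by simp⟩
  have h1 : IsUnit y⁻¹ := (Matrix.isUnit_nonsing_inv_iff (A := y)).2 hy
  exact (IsUnit.mul hx h1).mul hz

theorem Om_isUnit {c : Matrix N N ℂ} (hc : IsUnit c) {x : Matrix N N ℂ} (hx : x ∈ Om K c) :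
    IsUnit x := hx _ GL_sub hc

theorem mem_Om_self (c : Matrix N N ℂ) : c ∈ Om K c := fun _ _ h => h

theorem Om_sub {c : Matrix N N ℂ} (hc : IsUnit c) : IsSubtorsor K (Om K c) := by
  refine ⟨fun x hx => Om_isUnit hc hx, fun x hx y hy z hz T hT hcT =>
    hT.torsor x (hx T hT hcT) y (hy T hT hcT) z (hz T hT hcT),
    {p | (∀ m, p.coeff m ∈ K) ∧ ∀ x ∈ Om K c, MvPolynomial.eval (fun b => x b.1 b.2) p = 0},
    fun p hp => hp.1, fun x => ⟨fun hx => ⟨Om_isUnit hc hx, fun p hp => hp.2 x hx⟩, ?_⟩⟩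
  rintro ⟨h1, h2⟩ T hT hcT
  obtain ⟨J, hJ, hJ2⟩ := hT.algebraic
  rw [hJ2]
  refine ⟨h1, fun p hp => h2 p ⟨hJ p hp, fun y hy => ?_⟩⟩
  exact ((hJ2 y).1 (hy T hT hcT)).2 p hp

theorem eval_bind {σ τ : Type} (g : σ → MvPolynomial τ K) (p : MvPolynomial σ K) (x : τ → ℂ) :
    MvPolynomial.eval x (MvPolynomial.map (algebraMap K ℂ) (bind₁ g p)) =
      MvPolynomial.eval (fun b => MvPolynomial.eval x (MvPolynomial.map (algebraMap K ℂ) (g b)))
        (MvPolynomial.map (algebraMap K ℂ) p) := by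
  induction p using MvPolynomial.induction_on with
  | C a => rw [bind₁_C_right, MvPolynomial.map_C, MvPolynomial.map_C, eval_C, eval_C]
  | add p q hp hq => rw [map_add, map_add, map_add, map_add, map_add, hp, hq]
  | mul_X p b hp => rw [map_mul, map_mul, map_mul, map_mul, map_mul, hp, bind₁_X_right,
      MvPolynomial.map_X, eval_X]

/-- inverse images of subtorsors -/
theorem pull {M : Set (Matrix N N ℂ)} (hM : IsSubtorsor K M) {T : Set (Matrix N' N' ℂ)}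
    (hT : IsSubtorsor K T) (φ : Matrix N N ℂ → Matrix N' N' ℂ)
    (g : N' × N' → MvPolynomial (N × N) K)
    (hg : ∀ x b, MvPolynomial.eval (fun b => x b.1 b.2) (MvPolynomial.map (algebraMap K ℂ) (g b)) =
      φ x b.1 b.2)
    (hu : ∀ x ∈ M, IsUnit (φ x))
    (hφ : ∀ x ∈ M, ∀ y ∈ M, ∀ z ∈ M, φ (x * y⁻¹ * z) = φ x * (φ y)⁻¹ * φ z) :
    IsSubtorsor K {x | x ∈ M ∧ φ x ∈ T} := by
  obtain ⟨hM1, JM, hJM⟩ := subT_iff.2 hM
  obtain ⟨hT1, JT, hJT⟩ := subT_iff.2 hT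
  rw [← subT_iff]
  refine ⟨fun x hx y hy z hz => ⟨hM1 x hx.1 y hy.1 z hz.1, ?_⟩, JM ∪ (bind₁ g) '' JT,
    fun x => ?_⟩
  · rw [hφ x hx.1 y hy.1 z hz.1]
    exact hT1 _ hx.2 _ hy.2 _ hz.2
  · constructor
    · rintro ⟨h1, h2⟩
      refine ⟨((hJM x).1 h1).1, ?_⟩
      rintro p (hp | ⟨p, hp, rfl⟩)
      · exact ((hJM x).1 h1).2 p hp
      · rw [eval_bind]
        simp only [hg]
        exact ((hJT _).1 h2).2 p hp
    · rintro ⟨h1, h2⟩
      have h3 : x ∈ M := (hJM x).2 ⟨h1, fun p hp => h2 p (Or.inl hp)⟩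
      refine ⟨h3, (hJT _).2 ⟨hu x h3, fun p hp => ?_⟩⟩
      have h4 := h2 _ (Or.inr ⟨p, hp, rfl⟩)
      rw [eval_bind] at h4
      simp only [hg] at h4
      exact h4

/-- base change -/
theorem transport {T : Set (Matrix N N ℂ)} (hT : IsSubtorsor K T) {P U : Matrix N N ℂ}
    (hP : ∀ i j, P i j ∈ K) (hU : ∀ i j, U i j ∈ K) (hPu : IsUnit P) (hUu : IsUnit U) :
    IsSubtorsor K {x | P * x * U ∈ T} := by
  have h1 := pull (GL_sub (N := N) (K := K)) hT (fun x => P * x * U)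
    (fun b => ∑ j, (∑ i, C (⟨P b.1 i, hP _ _⟩ : K) * X (i, j)) * C (⟨U j b.2, hU _ _⟩ : K))
    (fun x b => by
      simp only [map_sum, map_mul, MvPolynomial.map_C, eval_C, MvPolynomial.map_X, eval_X]
      simp only [Matrix.mul_apply]
      rfl)
    (fun x hx => (hPu.mul hx).mul hUu)
    (fun x _ y _ z _ => by
      have e1 : U * U⁻¹ = 1 := Matrix.mul_nonsing_inv _ ((Matrix.isUnit_iff_isUnit_det _).1 hUu)
      have e2 : P⁻¹ * P = 1 := Matrix.nonsing_inv_mul _ ((Matrix.isUnit_iff_isUnit_det _).1 hPu)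
      rw [Matrix.mul_inv_rev, Matrix.mul_inv_rev]
      have e3 : P * x * U * (U⁻¹ * (y⁻¹ * P⁻¹)) * (P * z * U) =
          P * x * (U * U⁻¹) * y⁻¹ * (P⁻¹ * P) * z * U := by
        simp only [Matrix.mul_assoc]
      rw [e3, e1, e2]
      simp only [Matrix.mul_one, Matrix.mul_assoc])
  convert h1 using 1
  ext x
  simp only [Set.mem_setOf_eq]
  refine ⟨fun h => ⟨?_, h⟩, fun h => h.2⟩
  have h2 := hT.isUnit _ h
  rw [Matrix.isUnit_iff_isUnit_det, Matrix.det_mul, Matrix.det_mul] at h2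
  rw [Matrix.isUnit_iff_isUnit_det]
  exact isUnit_of_mul_isUnit_right (isUnit_of_mul_isUnit_left h2)

end Pool.Agent.U725.MG
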