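import Pool.Agent.U725.MG.All

/-!
# Independence over the rational numbers
-/

set_option autoImplicit false
set_option linter.unusedSectionVars false

open Matrix
open scoped PeriodPair ComplexConjugate

namespace Pool.Agent.U725.CMA

open H667R3 Pool.Agent.W245.EB

noncomputable section

variable {L : PeriodPair} {ρ : ℕ} {I : Type} [Fintype I]

theorem kL_coord {x : ℂ} (hx : x ∈ Pool.Agent.TH813.Ell.kL L) :
    ∃ p q : ℚ, x = (p : ℂ) + q * tau L := by
  obtain ⟨n, hn, hm⟩ := hx
  obtain ⟨a, c, hac⟩ := mult_coord hm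
  have hn0 : (n : ℂ) ≠ 0 := by exact_mod_cast hn.ne'
  refine ⟨a / n, c / n, ?_⟩
  push_cast
  field_simp
  linear_combination hac

/-- matrices over the field of multiplications which are independent over the rational numbers
are independent over the real numbers -/
theorem real_indep {H : I → Matrix (Fin ρ) (Fin ρ) ℂ}
    (hk : ∀ e i j, H e i j ∈ Pool.Agent.TH813.Ell.kL L) (hH : LinearIndependent ℚ H) :
    LinearIndependent ℝ H := by
  rw [Fintype.linearIndependent_iff] at hH ⊢
  intro r hr
  choose R S hRS using fun e i j => kL_coord (hk e i j)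
  have key : ∀ i j, ∑ e, r e * (R e i j : ℝ) = 0 ∧ ∑ e, r e * (S e i j : ℝ) = 0 := by
    intro i j
    have h1 : ∑ e, (r e : ℂ) * H e i j = 0 := by
      have h2 := congrFun (congrFun hr i) j
      rw [Matrix.sum_apply, Matrix.zero_apply] at h2
      rw [← h2]
      refine Finset.sum_congr rfl fun e _ => ?_
      rw [Matrix.smul_apply, Complex.real_smul]
    have h2 : ((∑ e, r e * (R e i j : ℝ) : ℝ) : ℂ) + ((∑ e, r e * (S e i j : ℝ) : ℝ) : ℂ) * tau L =
        0 := by
      rw [← h1]
      push_cast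
      rw [Finset.sum_mul, ← Finset.sum_add_distrib]
      refine Finset.sum_congr rfl fun e _ => ?_
      rw [hRS e i j]
      ring
    have h3 := congrArg Complex.im h2
    rw [Complex.add_im, Complex.ofReal_im, zero_add, Complex.im_ofReal_mul, Complex.zero_im] at h3
    have h4 := (mul_eq_zero.1 h3).resolve_right (tau_im L)
    rw [h4, Complex.ofReal_zero, zero_mul, add_zero] at h2
    exact ⟨by exact_mod_cast h2, h4⟩
  intro e
  rw [← Module.forall_dual_apply_eq_zero_iff ℚ]
  intro φ
  have hφ : ∀ (x : ℝ) (q : ℚ), φ (x * (q : ℝ)) = φ x * q := by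
    intro x q
    rw [mul_comm, ← Rat.smul_def, map_smul, smul_eq_mul, mul_comm]
  refine hH (fun e => φ (r e)) ?_ e
  ext i j
  rw [Matrix.sum_apply, Matrix.zero_apply]
  obtain ⟨h1, h2⟩ := key i j
  have e1 := congrArg φ h1
  have e2 := congrArg φ h2
  rw [map_sum, map_zero] at e1 e2
  simp only [hφ] at e1 e2
  have e3 : ∑ e, (φ (r e) • H e) i j = ((∑ e, φ (r e) * R e i j : ℚ) : ℂ) +
      ((∑ e, φ (r e) * S e i j : ℚ) : ℂ) * tau L := by
    push_cast
    rw [Finset.sum_mul, ← Finset.sum_add_distrib]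
    refine Finset.sum_congr rfl fun e _ => ?_
    rw [Matrix.smul_apply, Rat.smul_def, hRS e i j]
    ring
  rw [e3, e1, e2]
  simp

/-- the case of Hermitian matrices -/
theorem herm_real [DecidableEq I] {P Q : I → Fin ρ} {ε : I → ℂ}
    (hε : ∀ e, ε e ∈ Pool.Agent.TH813.Ell.kL L)
    (hH : LinearIndependent ℚ fun e : I => (Matrix.single (P e) (Q e) (ε e) +
      Matrix.single (Q e) (P e) (conj (ε e)) : Matrix (Fin ρ) (Fin ρ) ℂ)) :
    LinearIndependent ℝ fun e : I => (Matrix.single (P e) (Q e) (ε e) +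
      Matrix.single (Q e) (P e) (conj (ε e)) : Matrix (Fin ρ) (Fin ρ) ℂ) := by
  refine real_indep (L := L) (fun e i j => ?_) hH
  rw [Matrix.add_apply, Matrix.single_apply, Matrix.single_apply]
  refine add_mem ?_ ?_
  · split_ifs
    · exact hε e
    · exact zero_mem _
  · split_ifs
    · exact Pool.Agent.TH813.Ell.conj_mem_kL (hε e)
    · exact zero_mem _

end

end Pool.Agent.U725.CMA
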