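import Pool.Agent.U725.MG.Omega

/-!
# Matrices of the shape of the period matrix
-/

set_option autoImplicit false
set_option linter.unusedSectionVars false

open Matrix MvPolynomial

namespace Pool.Agent.U725.MG

open Pool.Agent.TH127.PT Pool.Agent.Y123.ST Pool.Agent.U725.OM Pool.Agent.U725.MT

variable {ρ m : ℕ} {I : Type} [Fintype I] [DecidableEq I] {K : Subfield ℂ}

/-- the shape of the period matrix -/
def shp (P Q : I → Fin ρ) (ε ε' δ : I → ℂ) (X : M2) (l : ℂ) (Y : Fin ρ → Fin 2 → ℂ) (t : I → ℂ)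
    (z : Fin m → ℂ) : Matrix (BB ρ I m) (BB ρ I m) ℂ :=
  bd X
    (fun j => b3 (X 0 0) (X 0 1) (X 1 0) (X 1 1) (Y j 0) (Y j 1) 1)
    (fun e => b4 l (X 0 1 * Y (Q e) 0 - X 0 0 * Y (Q e) 1) (X 1 1 * Y (Q e) 0 - X 1 0 * Y (Q e) 1)
      (X 0 0) (X 0 1) (X 1 0) (X 1 1) (t e) (ε e * Y (P e) 0)
      (δ e * Y (P e) 0 + ε' e * Y (P e) 1) 1)
    (fun i => b2 l (z i) 1)

/-- the matrices without unipotent part, over any ring -/
def psR {R : Type} [CommRing R] (ρ : ℕ) (I : Type) [DecidableEq I] (m : ℕ)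
    (X : Matrix (Fin 2) (Fin 2) R) (l : R) : Matrix (BB ρ I m) (BB ρ I m) R :=
  fromBlocks X 0 0 (fromBlocks
    (blockDiagonal fun _ : Fin ρ => !![X 0 0, X 0 1, 0; X 1 0, X 1 1, 0; 0, 0, 1]) 0 0
    (fromBlocks (blockDiagonal fun _ : I => !![l, 0, 0, 0; 0, X 0 0, X 0 1, 0;
      0, X 1 0, X 1 1, 0; 0, 0, 0, 1]) 0 0
    (blockDiagonal fun _ : Fin m => !![l, 0; 0, 1])))

/-- the matrices without unipotent part -/
def ps (ρ : ℕ) (I : Type) [DecidableEq I] (m : ℕ) (X : M2) (l : ℂ) :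
    Matrix (BB ρ I m) (BB ρ I m) ℂ :=
  bd X (fun _ => b3 (X 0 0) (X 0 1) (X 1 0) (X 1 1) 0 0 1)
    (fun _ => b4 l 0 0 (X 0 0) (X 0 1) (X 1 0) (X 1 1) 0 0 0 1) (fun _ => b2 l 0 1)

theorem psR_eq (X : M2) (l : ℂ) : psR ρ I m X l = ps ρ I m X l := rfl

theorem psR_map {R S : Type} [CommRing R] [CommRing S] (f : R →+* S)
    (X : Matrix (Fin 2) (Fin 2) R) (l : R) :
    (psR ρ I m X l).map f = psR ρ I m (X.map f) (f l) := by
  have h1 : (blockDiagonal fun _ : Fin ρ => !![X 0 0, X 0 1, 0; X 1 0, X 1 1, 0; 0, 0, 1]).map f =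
      blockDiagonal fun _ : Fin ρ => !![f (X 0 0), f (X 0 1), 0; f (X 1 0), f (X 1 1), 0; 0, 0, 1] := by
    rw [blockDiagonal_map _ _ (map_zero f)]
    congr 1
    funext j
    ext a b
    fin_cases a <;> fin_cases b <;> simp
  have h2 : (blockDiagonal fun _ : I => !![l, 0, 0, 0; 0, X 0 0, X 0 1, 0;
      0, X 1 0, X 1 1, 0; 0, 0, 0, 1]).map f = blockDiagonal fun _ : I => !![f l, 0, 0, 0;
      0, f (X 0 0), f (X 0 1), 0; 0, f (X 1 0), f (X 1 1), 0; 0, 0, 0, 1] := by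
    rw [blockDiagonal_map _ _ (map_zero f)]
    congr 1
    funext j
    ext a b
    fin_cases a <;> fin_cases b <;> simp
  have h3 : (blockDiagonal fun _ : Fin m => !![l, 0; 0, 1]).map f =
      blockDiagonal fun _ : Fin m => !![f l, 0; 0, 1] := by
    rw [blockDiagonal_map _ _ (map_zero f)]
    congr 1
    funext j
    ext a b
    fin_cases a <;> fin_cases b <;> simp
  unfold psR
  simp only [fromBlocks_map, Matrix.map_zero f (map_zero f), h1, h2, h3]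
  rfl

theorem ps_mul (X X' : M2) (l l' : ℂ) : ps ρ I m X l * ps ρ I m X' l' = ps ρ I m (X * X') (l * l') := by
  unfold ps
  rw [bd_mul]
  simp only [b3_mul, b4_mul, b2_mul, Matrix.mul_apply, Fin.sum_univ_two]
  congr 1
  · funext j
    congr 1 <;> simp
  · funext e
    congr 1 <;> simp
  · funext i
    congr 1 <;> simp

theorem ps_one : ps ρ I m 1 1 = 1 := by
  rw [← bd_one]
  unfold ps
  congr 1
  · funext j
    rw [← b3_one]
    congr 1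
  · funext e
    rw [← b4_one]
    congr 1
  · funext i
    rw [← b2_one]

theorem ps_unit {X : M2} (hX : IsUnit X) {l : ℂ} (hl : l ≠ 0) : IsUnit (ps ρ I m X l) ∧
    (ps ρ I m X l)⁻¹ = ps ρ I m X⁻¹ l⁻¹ := by
  have h1 : ps ρ I m X l * ps ρ I m X⁻¹ l⁻¹ = 1 := by
    rw [ps_mul, Matrix.mul_nonsing_inv _ ((Matrix.isUnit_iff_isUnit_det _).1 hX),
      mul_inv_cancel₀ hl, ps_one]
  exact ⟨IsUnit.of_mul_eq_one _ h1, Matrix.inv_eq_right_inv h1⟩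

theorem shp_zero (P Q : I → Fin ρ) (ε ε' δ : I → ℂ) (X : M2) (l : ℂ) :
    shp P Q ε ε' δ X l 0 0 (0 : Fin m → ℂ) = ps ρ I m X l := by
  unfold shp ps
  congr 1
  funext e
  congr 1 <;> simp

theorem det_ne {X : M2} (hX : IsUnit X) : X.det ≠ 0 := by
  rw [Matrix.isUnit_iff_isUnit_det] at hX
  exact hX.ne_zero

/-- the elements without unipotent part of a subtorsor -/
theorem T0_sub {k : ℂ} (hk0 : k ≠ 0) (hkK : k ∈ K) {M₂ : Set M2} (hM₂ : IsSubtorsor K M₂)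
    {T : Set (Matrix (BB ρ I m) (BB ρ I m) ℂ)} (hT : IsSubtorsor K T) :
    IsSubtorsor K {X | X ∈ M₂ ∧ ps ρ I m X (X.det / k) ∈ T} := by
  set gen : Matrix (Fin 2) (Fin 2) (MvPolynomial (Fin 2 × Fin 2) K) :=
    Matrix.of fun a b => MvPolynomial.X (a, b) with hgen
  have hkK' : k⁻¹ ∈ K := inv_mem hkK
  refine pull hM₂ hT (fun X => ps ρ I m X (X.det / k))
    (fun b => psR ρ I m gen (gen.det * MvPolynomial.C (⟨k⁻¹, hkK'⟩ : K)) b.1 b.2) (fun x b => ?_)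
    (fun x hx => (ps_unit (hM₂.isUnit x hx) (div_ne_zero (det_ne (hM₂.isUnit x hx)) hk0)).1)
    (fun x hx y hy z hz => ?_)
  · set f : MvPolynomial (Fin 2 × Fin 2) K →+* ℂ :=
      (MvPolynomial.eval (fun b : Fin 2 × Fin 2 => x b.1 b.2)).comp
        (MvPolynomial.map (algebraMap K ℂ)) with hf
    have hfx : gen.map f = x := by
      ext b b'
      simp [hgen, hf]
    have h1 := congrFun (congrFun (psR_map (ρ := ρ) (I := I) (m := m) f gen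
      (gen.det * MvPolynomial.C (⟨k⁻¹, hkK'⟩ : K))) b.1) b.2
    rw [Matrix.map_apply] at h1
    change f _ = _
    rw [h1, hfx, map_mul, RingHom.map_det, RingHom.mapMatrix_apply, hfx, ← psR_eq]
    congr 2
    rw [hf, RingHom.comp_apply, MvPolynomial.map_C, eval_C]
    rfl
  · have hy' := ps_unit (ρ := ρ) (I := I) (m := m) (hM₂.isUnit y hy)
      (div_ne_zero (det_ne (hM₂.isUnit y hy)) hk0)
    rw [hy'.2, ps_mul, ps_mul]
    congr 1
    have hy0 := det_ne (hM₂.isUnit y hy)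
    rw [Matrix.det_mul, Matrix.det_mul, Matrix.det_nonsing_inv, Ring.inverse_eq_inv']
    field_simp

/-- the upper left block -/
def ul (x : Matrix (BB ρ I m) (BB ρ I m) ℂ) : M2 := x.toBlocks₁₁

theorem ul_bd (X : M2) (E : Fin ρ → Matrix (Fin 3) (Fin 3) ℂ) (F : I → Matrix (Fin 4) (Fin 4) ℂ)
    (G : Fin m → M2) : ul (bd X E F G) = X := rfl

theorem block_sub {M : Set (Matrix (BB ρ I m) (BB ρ I m) ℂ)} (hM : IsSubtorsor K M)
    (hb : ∀ x ∈ M, ∃ X D, x = fromBlocks X 0 0 D) {T : Set M2} (hT : IsSubtorsor K T) :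
    IsSubtorsor K {x | x ∈ M ∧ ul x ∈ T} := by
  have hinv : ∀ y ∈ M, ul y * ul y⁻¹ = 1 ∧ (y⁻¹).toBlocks₁₂ = 0 := by
    intro y hy
    obtain ⟨Y, D, rfl⟩ := hb y hy
    have hu := (Matrix.isUnit_iff_isUnit_det _).1 (hM.isUnit _ hy)
    have h1 := Matrix.mul_nonsing_inv _ hu
    rw [← Matrix.fromBlocks_toBlocks (fromBlocks Y 0 0 D)⁻¹, Matrix.fromBlocks_multiply,
      ← Matrix.fromBlocks_one, Matrix.fromBlocks_inj] at h1
    obtain ⟨e1, e2, _, _⟩ := h1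
    rw [Matrix.zero_mul, add_zero] at e1 e2
    refine ⟨e1, ?_⟩
    have h2 : IsUnit Y := IsUnit.of_mul_eq_one _ e1
    have h3 := Matrix.nonsing_inv_mul _ ((Matrix.isUnit_iff_isUnit_det _).1 h2)
    calc _ = Y⁻¹ * (Y * (fromBlocks Y 0 0 D)⁻¹.toBlocks₁₂) := by
          rw [← Matrix.mul_assoc, h3, Matrix.one_mul]
      _ = 0 := by rw [e2, Matrix.mul_zero]
  refine pull hM hT ul (fun b => MvPolynomial.X (Sum.inl b.1, Sum.inl b.2)) (fun x b => by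
    rw [MvPolynomial.map_X, eval_X]
    rfl) (fun x hx => IsUnit.of_mul_eq_one _ (hinv x hx).1) (fun x hx y hy z hz => ?_)
  obtain ⟨X, D, rfl⟩ := hb x hx
  obtain ⟨Z, D', rfl⟩ := hb z hz
  obtain ⟨e1, e2⟩ := hinv y hy
  have e3 : (ul y)⁻¹ = ul y⁻¹ := Matrix.inv_eq_right_inv e1
  rw [e3]
  have h4 : y⁻¹ = fromBlocks (ul y⁻¹) 0 (y⁻¹).toBlocks₂₁ (y⁻¹).toBlocks₂₂ := by
    conv_lhs => rw [← Matrix.fromBlocks_toBlocks y⁻¹, e2]
    rfl
  conv_lhs => rw [h4]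
  rw [Matrix.fromBlocks_multiply, Matrix.fromBlocks_multiply]
  unfold ul
  rw [Matrix.toBlocks_fromBlocks₁₁]
  simp

variable {P Q : I → Fin ρ} {ε ε' δ : I → ℂ}

/-- **The smallest subtorsor is an inverse image.** -/
theorem main_eq {k : ℂ} (hk0 : k ≠ 0) (hkK : k ∈ K) {M₂ : Set M2} (hM₂ : IsSubtorsor K M₂)
    (hMM : IsSubtorsor K {x : Matrix (BB ρ I m) (BB ρ I m) ℂ | ∃ X ∈ M₂, ∃ l Y t z,
      X.det = k * l ∧ x = shp P Q ε ε' δ X l Y t z})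
    {X₀ : M2} (hX₀ : X₀ ∈ M₂) {l₀ : ℂ} (hdet : X₀.det = k * l₀) {Y₀ : Fin ρ → Fin 2 → ℂ}
    {t₀ : I → ℂ} {z₀ : Fin m → ℂ}
    (stab : ∀ T : Set (Matrix (BB ρ I m) (BB ρ I m) ℂ), IsSubtorsor K T →
      shp P Q ε ε' δ X₀ l₀ Y₀ t₀ z₀ ∈ T → ∀ X ∈ M₂, ∀ l, X.det = k * l → ∀ Y t z Y' t' z',
      shp P Q ε ε' δ X l Y t z ∈ T → shp P Q ε ε' δ X l Y' t' z' ∈ T) :
    Om K (shp P Q ε ε' δ X₀ l₀ Y₀ t₀ z₀) = {x | ∃ X ∈ Om K X₀, ∃ l Y t z,
      X.det = k * l ∧ x = shp P Q ε ε' δ X l Y t z} := by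
  have hX₀u : IsUnit X₀ := hM₂.isUnit _ hX₀
  have hR : IsSubtorsor K {x : Matrix (BB ρ I m) (BB ρ I m) ℂ | ∃ X ∈ Om K X₀, ∃ l Y t z,
      X.det = k * l ∧ x = shp P Q ε ε' δ X l Y t z} := by
    have h1 := block_sub hMM (by
      rintro _ ⟨X, _, l, Y, t, z, _, rfl⟩
      exact ⟨_, _, rfl⟩) (Om_sub (K := K) hX₀u)
    convert h1 using 1
    ext x
    constructor
    · rintro ⟨X, hX, l, Y, t, z, h2, rfl⟩
      exact ⟨⟨X, hX M₂ hM₂ hX₀, l, Y, t, z, h2, rfl⟩, hX⟩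
    · rintro ⟨⟨X, _, l, Y, t, z, h2, rfl⟩, h3⟩
      exact ⟨X, h3, l, Y, t, z, h2, rfl⟩
  refine Set.Subset.antisymm (fun x hx => hx _ hR ⟨X₀, mem_Om_self _, l₀, Y₀, t₀, z₀, hdet, rfl⟩) ?_
  rintro _ ⟨X, hX, l, Y, t, z, h2, rfl⟩ T hT hc
  have hdiv : ∀ {X : M2} {l : ℂ}, X.det = k * l → X.det / k = l := by
    intro X l h
    rw [h, mul_div_cancel_left₀ _ hk0]
  have h0 : X₀ ∈ {X | X ∈ M₂ ∧ ps ρ I m X (X.det / k) ∈ T} := by
    refine ⟨hX₀, ?_⟩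
    rw [hdiv hdet, ← shp_zero P Q ε ε' δ]
    exact stab T hT hc X₀ hX₀ l₀ hdet _ _ _ _ _ _ hc
  have h3 := hX _ (T0_sub hk0 hkK hM₂ hT) h0
  obtain ⟨h4, h5⟩ := h3
  rw [hdiv h2, ← shp_zero P Q ε ε' δ] at h5
  exact stab T hT hc X h4 l h2 _ _ _ _ _ _ h5

end Pool.Agent.U725.MG
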